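import Pool.Agent.H2.Dij.Form

/-!
Arrangements: linear orders, classes, nondegenerate subspaces.
-/

set_option autoImplicit false

namespace Pool.Agent.H2.Dij2

open Finset Matrix Module

lemma exists_lin {α : Type} {R : α → α → Prop} (h : Acy R) : ∃ lt : α → α → Prop,
    (∀ a b, R a b → lt a b) ∧ (∀ a, ¬ lt a a) ∧ (∀ a b c, lt a b → lt b c → lt a c) ∧
    (∀ a b, a ≠ b → lt a b ∨ lt b a) := by
  have : IsPartialOrder α (Relation.ReflTransGen R) :=
    { refl := fun a => Relation.ReflTransGen.refl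
      trans := fun a b c => Relation.ReflTransGen.trans
      antisymm := by
        intro a b hab hba
        rcases Relation.reflTransGen_iff_eq_or_transGen.1 hab with g | g
        · exact g.symm
        · rcases Relation.reflTransGen_iff_eq_or_transGen.1 hba with g' | g'
          · exact g'
          · exact (h a (g.trans g')).elim }
  obtain ⟨s, hs, hrs⟩ := extend_partialOrder (Relation.ReflTransGen R)
  refine ⟨fun a b => s a b ∧ a ≠ b, ?_, fun a h => h.2 rfl, ?_, ?_⟩
  · intro a b hab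
    refine ⟨hrs a b (Relation.ReflTransGen.single hab), ?_⟩
    rintro rfl
    exact h a (Relation.TransGen.single hab)
  · rintro a b c ⟨h1, h2⟩ ⟨h3, h4⟩
    refine ⟨_root_.trans h1 h3, ?_⟩
    rintro rfl
    exact h2 (antisymm h1 h3)
  · intro a b hab
    rcases total_of s a b with h | h
    · exact Or.inl ⟨h, hab⟩
    · exact Or.inr ⟨h, hab.symm⟩

/-- A strict linear order. -/
structure Lin {α : Type} (lt : α → α → Prop) : Prop where
  irr : ∀ a, ¬ lt a a
  tr : ∀ a b c, lt a b → lt b c → lt a c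
  tot : ∀ a b, a ≠ b → lt a b ∨ lt b a

lemma acy_new {α : Type} {lt : α → α → Prop} (hl : Lin lt) (G : α → α → ZMod 2)
    (hG : ∀ a b, G a b = G b a)
    (h : ∀ a b c, lt a b → lt b c → ¬ (G a b = G b c ∧ G a c = G a b + 1))
    {R : α → α → Prop}
    (hR : ∀ a b, R a b → (lt a b ∧ G a b = 0) ∨ (lt b a ∧ G a b = 1)) : Acy R := by
  have e01 : (0 : ZMod 2) ≠ 1 := by decide
  have e11 : (0 : ZMod 2) = 1 + 1 := by decide
  have key : ∀ a b, Relation.TransGen R a b →
      (lt a b ∧ G a b = 0) ∨ (lt b a ∧ G a b = 1) := by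
    intro a b hab
    induction hab with
    | single h1 => exact hR _ _ h1
    | @tail b c _ h1 ih =>
      have h2 := hR _ _ h1
      have hac : a ≠ c := by
        rintro rfl
        rcases ih with ⟨i1, i2⟩ | ⟨i1, i2⟩ <;> rcases h2 with ⟨g1, g2⟩ | ⟨g1, g2⟩
        · exact hl.irr _ (hl.tr _ _ _ i1 g1)
        · rw [hG] at g2; exact e01 (i2.symm.trans g2)
        · rw [hG] at g2; exact e01 (g2.symm.trans i2)
        · exact hl.irr _ (hl.tr _ _ _ i1 g1)
      rcases ih with ⟨i1, i2⟩ | ⟨i1, i2⟩ <;> rcases h2 with ⟨g1, g2⟩ | ⟨g1, g2⟩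
      · left
        refine ⟨hl.tr _ _ _ i1 g1, (zc _).resolve_right fun hc => ?_⟩
        exact h a b c i1 g1 ⟨by rw [i2, g2], by rw [hc, i2, zero_add]⟩
      · rcases hl.tot a c hac with o | o
        · refine Or.inl ⟨o, (zc _).resolve_right fun hc => ?_⟩
          exact h a c b o g1 ⟨by rw [hc, hG c b, g2], by rw [hc, i2]; exact e11⟩
        · refine Or.inr ⟨o, (zc _).resolve_left fun hc => ?_⟩
          rw [hG] at hc
          exact h c a b o i1 ⟨by rw [hc, i2], by rw [hc, hG c b, g2, zero_add]⟩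
      · rcases hl.tot a c hac with o | o
        · refine Or.inl ⟨o, (zc _).resolve_right fun hc => ?_⟩
          exact h b a c i1 o ⟨by rw [hc, hG b a, i2], by rw [g2, hG b a, i2]; exact e11⟩
        · refine Or.inr ⟨o, (zc _).resolve_left fun hc => ?_⟩
          rw [hG] at hc
          exact h b c a g1 o ⟨by rw [hc, g2], by rw [g2, hG b a, i2, zero_add]⟩
      · right
        refine ⟨hl.tr _ _ _ g1 i1, (zc _).resolve_left fun hc => ?_⟩
        rw [hG] at hc
        exact h c b a g1 i1 ⟨by rw [hG c b, g2, hG b a, i2], by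
          rw [hc, hG c b, g2]; exact e11⟩
  intro a ha
  rcases key a a ha with g | g <;> exact hl.irr _ g.1

lemma cls_cond {α : Type} {lt : α → α → Prop} {n : ℕ} (g : α → Fin n)
    (hg : ∀ a b, lt a b → g a ≤ g b) (P : Fin n → Fin n → ZMod 2)
    (hT : ∀ i j k, i < j → j < k → (∃ a, g a = i) → (∃ a, g a = j) → (∃ a, g a = k) →
      ¬ (P i j = P j k ∧ P i k = P i j + 1)) (a b c : α) (hab : lt a b) (hbc : lt b c) :
    ¬ (P (g a) (g b) = P (g b) (g c) ∧ P (g a) (g c) = P (g a) (g b) + 1) := by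
  rintro ⟨h1, h2⟩
  have e : ∀ p : ZMod 2, p ≠ p + 1 := by decide
  rcases (hg a b hab).lt_or_eq with h | h
  · rcases (hg b c hbc).lt_or_eq with h' | h'
    · exact hT _ _ _ h h' ⟨a, rfl⟩ ⟨b, rfl⟩ ⟨c, rfl⟩ ⟨h1, h2⟩
    · rw [← h'] at h2
      exact e _ h2
  · rw [h] at h1 h2
    rw [h1] at h2
    exact e _ h2

/-- Counting a lower set. -/
lemma lower_card {m : ℕ} (p : Fin m → Prop) [DecidablePred p]
    (hp : ∀ i j, i ≤ j → p j → p i) (i : Fin m) :
    p i ↔ i.val < (univ.filter p).card := by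
  constructor
  · intro hi
    have h1 : Finset.Iic i ⊆ univ.filter p := by
      intro j hj
      rw [Finset.mem_filter]
      exact ⟨mem_univ _, hp j i (Finset.mem_Iic.1 hj) hi⟩
    have h2 := Finset.card_le_card h1
    rw [Fin.card_Iic] at h2
    omega
  · intro hi
    by_contra hn
    have h1 : univ.filter p ⊆ Finset.Iio i := by
      intro j hj
      rw [Finset.mem_filter] at hj
      rw [Finset.mem_Iio]
      by_contra hc
      exact hn (hp i j (not_lt.1 hc) hj.2)
    have h2 := Finset.card_le_card h1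
    rw [Fin.card_Iio] at h2
    omega

section

variable {U : Type} [AddCommGroup U] [Module (ZMod 2) U]
  (B : U →ₗ[ZMod 2] U →ₗ[ZMod 2] ZMod 2)

/-- The orthogonal complement. -/
def orth (S : Submodule (ZMod 2) U) : Submodule (ZMod 2) U where
  carrier := {z | ∀ t ∈ S, B t z = 0}
  add_mem' := by
    intro a b ha hb t ht
    rw [map_add, ha t ht, hb t ht, add_zero]
  zero_mem' := fun t _ => map_zero _
  smul_mem' := by
    intro c a ha t ht
    rw [map_smul, ha t ht, smul_zero]

/-- `S` is nondegenerate, and its orthogonal complement has codimension at least `m`. -/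
def ND (S : Submodule (ZMod 2) U) (m : ℕ) : Prop :=
  (∀ z, ∃ s ∈ S, ∀ t ∈ S, B t z = B t s) ∧
    finrank (ZMod 2) (orth B S) + m ≤ finrank (ZMod 2) U

variable {B} [FiniteDimensional (ZMod 2) U]

lemma nd_bot : ND B ⊥ 0 := by
  refine ⟨fun z => ⟨0, Submodule.zero_mem _, fun t ht => ?_⟩, ?_⟩
  · rw [(Submodule.mem_bot _).1 ht]; simp
  · rw [add_zero]; exact Submodule.finrank_le _

lemma sup_span_eq {S : Submodule (ZMod 2) U} {c s : U} (hs : s ∈ S) :
    S ⊔ Submodule.span (ZMod 2) {c + s} = S ⊔ Submodule.span (ZMod 2) {c} := by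
  apply le_antisymm
  · refine sup_le le_sup_left ?_
    rw [Submodule.span_singleton_le_iff_mem]
    exact add_mem ((le_sup_right : _ ≤ S ⊔ _) (Submodule.mem_span_singleton_self c))
      ((le_sup_left : S ≤ _) hs)
  · refine sup_le le_sup_left ?_
    rw [Submodule.span_singleton_le_iff_mem]
    have h1 := add_mem ((le_sup_right : _ ≤ S ⊔ _) (Submodule.mem_span_singleton_self (R := ZMod 2)
      (c + s))) ((le_sup_left : S ≤ S ⊔ Submodule.span (ZMod 2) {c + s}) (neg_mem hs))
    rwa [add_neg_cancel_right] at h1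

lemma orth_anti {S T : Submodule (ZMod 2) U} (h : S ≤ T) : orth B T ≤ orth B S :=
  fun _ hz t ht => hz t (h ht)

lemma nd_ext1 (hB : ∀ a b, B a b = B b a) {S : Submodule (ZMod 2) U} {m : ℕ} (h : ND B S m)
    {c s : U} (hs : s ∈ S) (hc : c + s ∈ orth B S) (h1 : B (c + s) (c + s) = 1) :
    ND B (S ⊔ Submodule.span (ZMod 2) {c}) (m + 1) := by
  rw [← sup_span_eq hs]
  generalize c + s = d at *
  clear hs
  obtain ⟨hr, hd⟩ := h
  refine ⟨?_, ?_⟩
  · intro z
    obtain ⟨s1, hs1, h2⟩ := hr z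
    refine ⟨s1 + B d z • d, add_mem ((le_sup_left : S ≤ _) hs1) (Submodule.smul_mem _ _
      ((le_sup_right : _ ≤ S ⊔ _) (Submodule.mem_span_singleton_self d))), ?_⟩
    intro t ht
    obtain ⟨t1, ht1, t2, ht2, rfl⟩ := Submodule.mem_sup.1 ht
    obtain ⟨q, rfl⟩ := Submodule.mem_span_singleton.1 ht2
    simp only [map_add, LinearMap.add_apply, map_smul, LinearMap.smul_apply, smul_eq_mul]
    rw [hc t1 ht1, h1, hB d s1, hc s1 hs1, h2 t1 ht1]
    generalize B t1 s1 = a
    generalize B d z = b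
    clear ht ht2
    revert a b q; decide
  · have h2 : orth B (S ⊔ Submodule.span (ZMod 2) {d}) < orth B S := by
      refine lt_of_le_of_ne (orth_anti le_sup_left) fun he => ?_
      have h3 : d ∈ orth B (S ⊔ Submodule.span (ZMod 2) {d}) := by rw [he]; exact hc
      have h4 := h3 d ((le_sup_right : _ ≤ S ⊔ _) (Submodule.mem_span_singleton_self d))
      rw [h1] at h4
      exact absurd h4 (by decide)
    have := Submodule.finrank_lt_finrank_of_lt h2
    omega

lemma nd_ext2 (hB : ∀ a b, B a b = B b a) {S : Submodule (ZMod 2) U} {m : ℕ} (h : ND B S m)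
    {c s c' s' : U} (hs : s ∈ S) (hc : c + s ∈ orth B S) (hs' : s' ∈ S)
    (hc' : c' + s' ∈ orth B S)
    (hdet : B (c + s) (c + s) * B (c' + s') (c' + s') + B (c + s) (c' + s') = 1) :
    ND B (S ⊔ Submodule.span (ZMod 2) {c} ⊔ Submodule.span (ZMod 2) {c'}) (m + 2) := by
  rw [← sup_span_eq hs, ← sup_span_eq (c := c') (s := s')
    ((le_sup_left : S ≤ S ⊔ Submodule.span (ZMod 2) {c + s}) hs')]
  generalize c + s = d at *
  generalize c' + s' = d' at *
  clear hs hs'
  obtain ⟨hr, hd⟩ := h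
  have md : ∀ x : U, x ∈ Submodule.span (ZMod 2) {x} := fun x => Submodule.mem_span_singleton_self x
  have hdT : d ∈ S ⊔ Submodule.span (ZMod 2) {d} ⊔ Submodule.span (ZMod 2) {d'} :=
    (le_sup_left : _ ≤ _ ⊔ Submodule.span (ZMod 2) {d'})
      ((le_sup_right : _ ≤ S ⊔ Submodule.span (ZMod 2) {d}) (md d))
  have hdT' : d' ∈ S ⊔ Submodule.span (ZMod 2) {d} ⊔ Submodule.span (ZMod 2) {d'} :=
    (le_sup_right : _ ≤ S ⊔ Submodule.span (ZMod 2) {d} ⊔ _) (md d')
  refine ⟨?_, ?_⟩
  · intro z
    obtain ⟨s1, hs1, h2⟩ := hr z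
    refine ⟨s1 + (B d' d' * B d z + B d d' * B d' z) • d +
      (B d d' * B d z + B d d * B d' z) • d', ?_, ?_⟩
    · refine add_mem (add_mem ((le_sup_left : _ ≤ _ ⊔ Submodule.span (ZMod 2) {d'})
        ((le_sup_left : S ≤ _) hs1)) (Submodule.smul_mem _ _ hdT)) (Submodule.smul_mem _ _ hdT')
    intro t ht
    obtain ⟨t0, ht0, t3, ht3, rfl⟩ := Submodule.mem_sup.1 ht
    obtain ⟨t1, ht1, t2, ht2, rfl⟩ := Submodule.mem_sup.1 ht0
    obtain ⟨q, rfl⟩ := Submodule.mem_span_singleton.1 ht2
    obtain ⟨q', rfl⟩ := Submodule.mem_span_singleton.1 ht3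
    simp only [map_add, LinearMap.add_apply, map_smul, LinearMap.smul_apply, smul_eq_mul]
    rw [hc t1 ht1, hc' t1 ht1, hB d s1, hB d' s1, hc s1 hs1, hc' s1 hs1, h2 t1 ht1, hB d' d]
    clear ht ht0 ht2 ht3
    generalize B t1 s1 = e0
    generalize B d z = e1
    generalize B d' z = e2
    generalize B d d' = e3 at *
    generalize B d d = e4 at *
    generalize B d' d' = e5 at *
    revert hdet
    revert e0 e1 e2 e3 e4 e5 q q'
    decide
  · have hidem : B d d' * B d d' = B d d' := by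
      generalize B d d' = p; revert p; decide
    have h2 : orth B (S ⊔ Submodule.span (ZMod 2) {d}) < orth B S := by
      refine lt_of_le_of_ne (orth_anti le_sup_left) fun he => ?_
      have h3 : B d' d' • d + B d d' • d' ∈ orth B (S ⊔ Submodule.span (ZMod 2) {d}) := by
        rw [he]
        exact add_mem (Submodule.smul_mem _ _ hc) (Submodule.smul_mem _ _ hc')
      have h4 := h3 d ((le_sup_right : _ ≤ S ⊔ _) (md d))
      rw [map_add, map_smul, map_smul, smul_eq_mul, smul_eq_mul, hidem, mul_comm, hdet] at h4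
      exact absurd h4 (by decide)
    have h3 : orth B (S ⊔ Submodule.span (ZMod 2) {d} ⊔ Submodule.span (ZMod 2) {d'}) <
        orth B (S ⊔ Submodule.span (ZMod 2) {d}) := by
      refine lt_of_le_of_ne (orth_anti le_sup_left) fun he => ?_
      have h3 : B d d • d' + B d d' • d ∈ orth B (S ⊔ Submodule.span (ZMod 2) {d}) := by
        intro t ht
        obtain ⟨t1, ht1, t2, ht2, rfl⟩ := Submodule.mem_sup.1 ht
        obtain ⟨q, rfl⟩ := Submodule.mem_span_singleton.1 ht2
        simp only [map_add, LinearMap.add_apply, map_smul, LinearMap.smul_apply, smul_eq_mul]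
        rw [hc t1 ht1, hc' t1 ht1]
        clear ht ht2
        generalize B d d' = a
        generalize B d d = b
        revert a b q; decide
      rw [← he] at h3
      have h4 := h3 d' hdT'
      rw [map_add, map_smul, map_smul, smul_eq_mul, smul_eq_mul, hB d' d, hidem, hdet] at h4
      exact absurd h4 (by decide)
    have i1 := Submodule.finrank_lt_finrank_of_lt h2
    have i2 := Submodule.finrank_lt_finrank_of_lt h3
    omega

/-- Projection to the complement of a nondegenerate subspace. -/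
lemma nd_proj (hB : ∀ a b, B a b = B b a) {S : Submodule (ZMod 2) U} {m : ℕ} (h : ND B S m) :
    ∃ p : U → U, (∀ z, p z ∈ S) ∧ (∀ z, ∀ t ∈ S, B t z = B t (p z)) ∧
      (∀ z, z + p z ∈ orth B S) ∧
      ∀ z z', B (z + p z) (z' + p z') = B z z' + B (p z) (p z') := by
  choose p hp1 hp2 using h.1
  refine ⟨p, hp1, hp2, ?_, ?_⟩
  · intro z t ht
    rw [map_add, ← hp2 z t ht]
    exact CharTwo.add_self_eq_zero _
  · intro z z'
    rw [map_add, map_add, LinearMap.add_apply, LinearMap.add_apply, hp2 z' _ (hp1 z), hB z (p z'),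
      hp2 z _ (hp1 z'), hB (p z') (p z)]
    generalize B z z' = a
    generalize B (p z) (p z') = b
    revert a b; decide

end

end Pool.Agent.H2.Dij2
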