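import Pool.Agent.H2.Dij.Cnt

/-!
The number of tournaments on `Fin t` of inversion number at most `k`.
-/

set_option autoImplicit false

namespace Pool.Agent.H2.Dij2

open Finset Matrix

/-- For `a < b` the arc after the inversions goes up iff the pattern is the product. -/
lemma arc_iff_eq {t k : ℕ} (g : Low t → ZMod 2) (x : Fin t → Fin k → ZMod 2) (a b : Fin t)
    (h : a < b) : Arc (TT g) x a b ↔ g ⟨(b, a), h⟩ = x a ⬝ᵥ x b := by
  have h' : ¬ b < a := fun h' => lt_irrefl _ (lt_trans h h')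
  unfold Arc TT
  constructor
  · rintro (⟨⟨_, h2⟩ | ⟨h1, _⟩, h3⟩ | ⟨⟨h1, _⟩ | ⟨_, h2⟩, h3⟩)
    · rw [h2, h3]
    · exact (h' h1).elim
    · exact (h' h1).elim
    · rw [h2, h3]
  · intro he
    rcases zc (x a ⬝ᵥ x b) with h0 | h0
    · exact Or.inl ⟨Or.inl ⟨h, by rw [he, h0]⟩, h0⟩
    · exact Or.inr ⟨Or.inr ⟨h, by rw [he, h0]⟩, h0⟩

lemma arc_iff_ne {t k : ℕ} (g : Low t → ZMod 2) (x : Fin t → Fin k → ZMod 2) (a b : Fin t)
    (h : a < b) : Arc (TT g) x b a ↔ g ⟨(b, a), h⟩ ≠ x a ⬝ᵥ x b := by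
  have h' : ¬ b < a := fun h' => lt_irrefl _ (lt_trans h h')
  unfold Arc TT
  rw [dotProduct_comm (x b)]
  constructor
  · rintro (⟨⟨h1, _⟩ | ⟨_, h2⟩, h3⟩ | ⟨⟨_, h2⟩ | ⟨h1, _⟩, h3⟩)
    · exact (h' h1).elim
    · rw [h2, h3]; decide
    · rw [h2, h3]; decide
    · exact (h' h1).elim
  · intro he
    rcases zc (x a ⬝ᵥ x b) with h0 | h0
    · rw [h0] at he
      exact Or.inl ⟨Or.inr ⟨h, (zc _).resolve_left he⟩, h0⟩
    · rw [h0] at he
      exact Or.inr ⟨Or.inl ⟨h, (zc _).resolve_right he⟩, h0⟩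

lemma arc_total {t k : ℕ} (g : Low t → ZMod 2) (x : Fin t → Fin k → ZMod 2) (a b : Fin t)
    (h : a ≠ b) : Arc (TT g) x a b ∨ Arc (TT g) x b a := by
  rcases lt_or_gt_of_ne h with h1 | h1
  · rw [arc_iff_eq g x a b h1, arc_iff_ne g x a b h1]
    exact em _
  · rw [arc_iff_eq g x b a h1, arc_iff_ne g x b a h1]
    exact (em _).symm

open Classical in
/-- The rank of a vertex in the acyclic tournament after the inversions. -/
noncomputable def rk {t k : ℕ} (g : Low t → ZMod 2) (x : Fin t → Fin k → ZMod 2) (a : Fin t) :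
    ℕ := (Finset.univ.filter fun b => Arc (TT g) x b a).card

open Classical in
lemma rk_lt {t k : ℕ} {g : Low t → ZMod 2} {x : Fin t → Fin k → ZMod 2}
    (hx : Acy (Arc (TT g) x)) (a : Fin t) : rk g x a < t := by
  have h : a ∉ Finset.univ.filter fun b => Arc (TT g) x b a := by
    intro h
    exact hx a (Relation.TransGen.single (Finset.mem_filter.1 h).2)
  have := Finset.card_lt_univ_of_notMem h
  rw [Fintype.card_fin] at this
  exact this

open Classical in
lemma rk_mono {t k : ℕ} {g : Low t → ZMod 2} {x : Fin t → Fin k → ZMod 2}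
    (hx : Acy (Arc (TT g) x)) {a b : Fin t} (h : Arc (TT g) x a b) : rk g x a < rk g x b := by
  unfold rk
  apply Finset.card_lt_card
  rw [Finset.ssubset_iff_of_subset]
  · exact ⟨a, Finset.mem_filter.2 ⟨Finset.mem_univ _, h⟩, fun h' =>
      hx a (Relation.TransGen.single (Finset.mem_filter.1 h').2)⟩
  · intro c hc
    have hc' := (Finset.mem_filter.1 hc).2
    refine Finset.mem_filter.2 ⟨Finset.mem_univ _, ?_⟩
    by_cases hcb : c = b
    · subst hcb
      exact (hx a ((Relation.TransGen.single h).tail hc')).elim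
    · rcases arc_total g x c b hcb with h1 | h1
      · exact h1
      · exact (no_tri hx hc' h h1).elim

lemma arc_iff_rk {t k : ℕ} {g : Low t → ZMod 2} {x : Fin t → Fin k → ZMod 2}
    (hx : Acy (Arc (TT g) x)) (a b : Fin t) : Arc (TT g) x a b ↔ rk g x a < rk g x b := by
  refine ⟨rk_mono hx, fun h => ?_⟩
  have hab : a ≠ b := by rintro rfl; exact lt_irrefl _ h
  rcases arc_total g x a b hab with h1 | h1
  · exact h1
  · exact absurd (rk_mono hx h1) (not_lt.2 h.le)

/-- The pattern is determined by the ranks and the products. -/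
lemma recover {t k : ℕ} {g g' : Low t → ZMod 2} {x x' : Fin t → Fin k → ZMod 2}
    (hx : Acy (Arc (TT g) x)) (hx' : Acy (Arc (TT g') x')) (hr : ∀ a, rk g x a = rk g' x' a)
    (hd : ∀ a b, x a ⬝ᵥ x b = x' a ⬝ᵥ x' b) : g = g' := by
  funext p
  obtain ⟨⟨b, a⟩, h⟩ := p
  have h1 : g ⟨(b, a), h⟩ = x a ⬝ᵥ x b ↔ g' ⟨(b, a), h⟩ = x a ⬝ᵥ x b := by
    rw [← arc_iff_eq g x a b h, arc_iff_rk hx, hr, hr, ← arc_iff_rk hx', hd,
      arc_iff_eq g' x' a b h]
  generalize x a ⬝ᵥ x b = t at h1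
  generalize g ⟨(b, a), h⟩ = u at *
  generalize g' ⟨(b, a), h⟩ = v at *
  revert h1
  clear hx hx' hr hd h
  revert t u v
  decide

/-- The number of pairs of the code. -/
def NP (t k : ℕ) : ℕ := (2 * (k * (t - k)) + k * k + k) / 2

lemma card_PS' {t k : ℕ} {S : Finset (Fin t)} (h : S.card = k) : (PS S).card = NP t k := by
  have := card_PS S
  rw [h] at this
  unfold NP
  omega

/-- Agreement of the codes. -/
lemma code_agree {t P : ℕ} (M M' : Fin t × Fin t → ZMod 2) (S S' : Finset (Fin t))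
    (h : (PS S).card = P) (h' : (PS S').card = P) (hS : S = S')
    (hc : ∀ i, M ((Finset.equivFinOfCardEq h).symm i).1 =
      M' ((Finset.equivFinOfCardEq h').symm i).1) : ∀ p ∈ PS S, M p = M' p := by
  subst hS
  intro p hp
  have := hc (Finset.equivFinOfCardEq h ⟨p, hp⟩)
  simpa using this

open Classical in
/-- **The count.** -/
lemma card_bad (t k : ℕ) (hkt : k ≤ t) :
    Fintype.card {g : Low t → ZMod 2 // VLe (TT g) k} ≤ t ^ t * 2 ^ t * 2 ^ NP t k := by
  have hx : ∀ g : {g : Low t → ZMod 2 // VLe (TT g) k}, ∃ x : Fin t → Fin k → ZMod 2,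
      Acy (Arc (TT g.1) x) := fun g => g.2
  choose x hx using hx
  have hS : ∀ g : {g : Low t → ZMod 2 // VLe (TT g) k}, ∃ S : Finset (Fin t), S.card = k ∧
      ∀ u, ∃ c : Fin t → ZMod 2, ∑ i ∈ S, c i • x g i = x g u := fun g => exists_span hkt (x g)
  choose S hS1 hS2 using hS
  let code : {g : Low t → ZMod 2 // VLe (TT g) k} →
      (Fin t → Fin t) × Finset (Fin t) × (Fin (NP t k) → ZMod 2) := fun g =>
    (fun a => ⟨rk g.1 (x g) a, rk_lt (hx g) a⟩, S g, fun i =>
      (fun p : Fin t × Fin t => x g p.1 ⬝ᵥ x g p.2)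
        ((Finset.equivFinOfCardEq (card_PS' (hS1 g))).symm i).1)
  have hinj : Function.Injective code := by
    intro g g' h
    simp only [code, Prod.mk.injEq] at h
    obtain ⟨h1, h2, h3⟩ := h
    have hr : ∀ a, rk g.1 (x g) a = rk g'.1 (x g') a := fun a =>
      congrArg Fin.val (congrFun h1 a)
    have hag := code_agree (fun p => x g p.1 ⬝ᵥ x g p.2) (fun p => x g' p.1 ⬝ᵥ x g' p.2)
      (S g) (S g') (card_PS' (hS1 g)) (card_PS' (hS1 g')) h2 (fun i => congrFun h3 i)
    have hrow : ∀ i ∈ S g, ∀ j, x g i ⬝ᵥ x g j = x g' i ⬝ᵥ x g' j := by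
      intro i hi j
      by_cases hj : j ∉ S g ∨ i ≤ j
      · exact hag (i, j) (by simp only [PS, Finset.mem_filter, Finset.mem_univ, true_and]
                             exact ⟨hi, hj⟩)
      · push Not at hj
        have := hag (j, i) (by
          simp only [PS, Finset.mem_filter, Finset.mem_univ, true_and]
          exact ⟨hj.1, Or.inr hj.2.le⟩)
        simp only at this
        rw [dotProduct_comm, this, dotProduct_comm]
    have hS2' : ∀ u, ∃ c : Fin t → ZMod 2, ∑ i ∈ S g, c i • x g' i = x g' u := by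
      rw [h2]; exact hS2 g'
    exact Subtype.ext (recover (hx g) (hx g') hr
      (gram_det (x g) (x g') (S g) (hS2 g) hS2' hrow))
  have := Fintype.card_le_of_injective code hinj
  simp only [Fintype.card_prod, Fintype.card_fun, Fintype.card_fin, Fintype.card_finset,
    ZMod.card] at this
  calc _ ≤ _ := this
    _ = _ := by ring

end Pool.Agent.H2.Dij2
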