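import Pool.Agent.H2.Dij.Uni

/-!
Counting the tournaments of small inversion number.
-/

set_option autoImplicit false

namespace Pool.Agent.H2.Dij2

open Finset Matrix

/-- The Gram matrix is determined by the rows of a spanning set. -/
lemma gram_det {t k : ℕ} (x x' : Fin t → Fin k → ZMod 2) (S : Finset (Fin t))
    (hx : ∀ u, ∃ c : Fin t → ZMod 2, ∑ i ∈ S, c i • x i = x u)
    (hx' : ∀ u, ∃ c : Fin t → ZMod 2, ∑ i ∈ S, c i • x' i = x' u)
    (h : ∀ i ∈ S, ∀ j, x i ⬝ᵥ x j = x' i ⬝ᵥ x' j) (u w : Fin t) :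
    x u ⬝ᵥ x w = x' u ⬝ᵥ x' w := by
  obtain ⟨c', hc'⟩ := hx' u
  obtain ⟨d, hd⟩ := hx w
  have hs : ∀ s ∈ S, x u ⬝ᵥ x s = ∑ i ∈ S, c' i * (x i ⬝ᵥ x s) := by
    intro s hs
    rw [dotProduct_comm, h s hs u, dotProduct_comm, ← hc', sum_dotProduct]
    refine Finset.sum_congr rfl fun i hi => ?_
    rw [smul_dotProduct, smul_eq_mul, h i hi s]
  have h1 : x u ⬝ᵥ x w = ∑ i ∈ S, c' i * (x i ⬝ᵥ x w) := by
    rw [← hd, dotProduct_sum]
    have e : ∀ i ∈ S, c' i * (x i ⬝ᵥ ∑ s ∈ S, d s • x s) =
        ∑ s ∈ S, d s * (c' i * (x i ⬝ᵥ x s)) := by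
      intro i _
      rw [dotProduct_sum, Finset.mul_sum]
      refine Finset.sum_congr rfl fun s _ => ?_
      rw [dotProduct_smul, smul_eq_mul]; ring
    rw [Finset.sum_congr rfl e, Finset.sum_comm]
    refine Finset.sum_congr rfl fun s hs' => ?_
    rw [dotProduct_smul, smul_eq_mul, hs s hs', Finset.mul_sum]
  rw [h1, ← hc', sum_dotProduct]
  refine Finset.sum_congr rfl fun i hi => ?_
  rw [smul_dotProduct, smul_eq_mul, h i hi w]

/-- A spanning set with exactly `k` elements. -/
lemma exists_span {t k : ℕ} (hkt : k ≤ t) (x : Fin t → Fin k → ZMod 2) :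
    ∃ S : Finset (Fin t), S.card = k ∧
      ∀ u, ∃ c : Fin t → ZMod 2, ∑ i ∈ S, c i • x i = x u := by
  classical
  obtain ⟨κ, a, ha, hspan, hli⟩ := exists_linearIndependent' (ZMod 2) x
  have : Finite κ := Finite.of_injective a ha
  have : Fintype κ := Fintype.ofFinite κ
  have hcard : Fintype.card κ ≤ k := by
    have := hli.fintype_card_le_finrank
    simpa using this
  let S₀ : Finset (Fin t) := Finset.univ.image a
  have hS₀ : S₀.card ≤ k := le_trans Finset.card_image_le hcard
  obtain ⟨S, hS, hSk⟩ := Finset.exists_superset_card_eq hS₀ (by simpa using hkt)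
  refine ⟨S, hSk, fun u => ?_⟩
  have hu : x u ∈ Submodule.span (ZMod 2) (x '' (S : Set (Fin t))) := by
    have h1 : x u ∈ Submodule.span (ZMod 2) (Set.range x) :=
      Submodule.subset_span ⟨u, rfl⟩
    rw [← hspan] at h1
    refine Submodule.span_mono ?_ h1
    rintro _ ⟨i, rfl⟩
    exact ⟨a i, hS (Finset.mem_image_of_mem _ (Finset.mem_univ i)), rfl⟩
  exact (Submodule.mem_span_image_finset_iff_exists_fun' (ZMod 2)).1 hu

/-- The pairs of the code. -/
def PS {t : ℕ} (S : Finset (Fin t)) : Finset (Fin t × Fin t) :=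
  Finset.univ.filter fun p => p.1 ∈ S ∧ (p.2 ∉ S ∨ p.1 ≤ p.2)

lemma card_PS {t : ℕ} (S : Finset (Fin t)) :
    2 * (PS S).card = 2 * (S.card * (t - S.card)) + S.card * S.card + S.card := by
  classical
  let A : Finset (Fin t × Fin t) := (S ×ˢ S).filter fun p => p.1 ≤ p.2
  let B : Finset (Fin t × Fin t) := (S ×ˢ S).filter fun p => p.2 ≤ p.1
  have hAB : A.card = B.card := by
    refine Finset.card_bij (fun p _ => (p.2, p.1)) ?_ ?_ ?_
    · intro p hp
      simp only [A, B, Finset.mem_filter, Finset.mem_product] at hp ⊢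
      exact ⟨⟨hp.1.2, hp.1.1⟩, hp.2⟩
    · rintro ⟨a, b⟩ _ ⟨c, d⟩ _ h
      simp only [Prod.mk.injEq] at h ⊢
      exact ⟨h.2, h.1⟩
    · rintro ⟨a, b⟩ hp
      simp only [A, B, Finset.mem_filter, Finset.mem_product] at hp ⊢
      exact ⟨(b, a), ⟨⟨hp.1.2, hp.1.1⟩, hp.2⟩, rfl⟩
  have hU : A ∪ B = S ×ˢ S := by
    ext ⟨a, b⟩
    simp only [A, B, Finset.mem_union, Finset.mem_filter, Finset.mem_product]
    constructor
    · rintro (h | h) <;> exact h.1
    · intro h
      rcases le_total a b with h1 | h1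
      · exact Or.inl ⟨h, h1⟩
      · exact Or.inr ⟨h, h1⟩
  have hI : (A ∩ B).card = S.card := by
    refine Finset.card_bij (fun p _ => p.1) ?_ ?_ ?_
    · intro p hp
      simp only [A, B, Finset.mem_inter, Finset.mem_filter, Finset.mem_product] at hp
      exact hp.1.1.1
    · rintro ⟨a, b⟩ hp ⟨c, d⟩ hq h
      simp only [A, B, Finset.mem_inter, Finset.mem_filter, Finset.mem_product] at hp hq
      have h1 : a = b := le_antisymm hp.1.2 hp.2.2
      have h2 : c = d := le_antisymm hq.1.2 hq.2.2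
      simp only at h
      rw [Prod.mk.injEq]
      exact ⟨h, by rw [← h1, ← h2]; exact h⟩
    · intro a ha
      refine ⟨(a, a), ?_, rfl⟩
      simp only [A, B, Finset.mem_inter, Finset.mem_filter, Finset.mem_product]
      exact ⟨⟨⟨ha, ha⟩, le_refl _⟩, ⟨⟨ha, ha⟩, le_refl _⟩⟩
  have hA : 2 * A.card = S.card * S.card + S.card := by
    have h1 := Finset.card_union_add_card_inter A B
    rw [hU, hI, Finset.card_product, ← hAB] at h1
    omega
  have hP : PS S = A ∪ (S ×ˢ Sᶜ) := by
    ext ⟨a, b⟩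
    simp only [PS, A, Finset.mem_union, Finset.mem_filter, Finset.mem_product,
      Finset.mem_compl, Finset.mem_univ, true_and]
    by_cases hb : b ∈ S
    · simp only [hb, not_true, false_or, and_true, and_false, or_false]
    · simp only [hb, not_false_iff, true_or, and_true, and_false, false_and, false_or]
  have hD : Disjoint A (S ×ˢ Sᶜ) := by
    rw [Finset.disjoint_left]
    rintro ⟨a, b⟩ hp hq
    simp only [A, Finset.mem_filter, Finset.mem_product, Finset.mem_compl] at hp hq
    exact hq.2 hp.1.2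
  rw [hP, Finset.card_union_of_disjoint hD, Finset.card_product, Finset.card_compl,
    Fintype.card_fin]
  omega

/-- `Low t` has `t (t - 1) / 2` elements. -/
lemma card_low (t : ℕ) : 2 * Fintype.card (Low t) + t = t * t := by
  classical
  have h1 := card_PS (Finset.univ : Finset (Fin t))
  have h2 : (PS (Finset.univ : Finset (Fin t))).card + Fintype.card (Low t) = t * t := by
    have e1 : Fintype.card (Low t) =
        ((Finset.univ : Finset (Fin t × Fin t)).filter fun p => p.2 < p.1).card := by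
      rw [Fintype.card_subtype]
    have e2 : PS (Finset.univ : Finset (Fin t)) =
        (Finset.univ : Finset (Fin t × Fin t)).filter fun p => ¬ p.2 < p.1 := by
      ext p
      simp [PS]
    rw [e1, e2, add_comm]
    have := Finset.card_filter_add_card_filter_not (s := (Finset.univ : Finset (Fin t × Fin t)))
      (fun p => p.2 < p.1)
    rw [this, Finset.card_univ, Fintype.card_prod, Fintype.card_fin]
  rw [Finset.card_univ, Fintype.card_fin] at h1
  simp only [Nat.sub_self, mul_zero, zero_add] at h1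
  omega

end Pool.Agent.H2.Dij2
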