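import Pool.Agent.H2.Dij.Vec

/-!
For every odd `l ≥ 3` there is an oriented graph with inversion number `l` and a decycling family
of `l` sets in which every vertex is in an even number of sets.
-/

set_option autoImplicit false

namespace Pool.Agent.H2.Dij2

open Finset Matrix

/-- The product of `e_i + e_last` and `e_j + e_last`. -/
def PP {s : ℕ} (i j : Fin (s + 1)) : ZMod 2 :=
  if i = j ∨ i = Fin.last s ∨ j = Fin.last s then 0 else 1

/-- The position of a vertex. -/
def pos {K s : ℕ} (a : Fin K × Fin (s + 1)) : ℕ := a.1.val * (s + 1) + a.2.val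

/-- The tournament with `K` windows. -/
def gen (K s : ℕ) (a b : Fin K × Fin (s + 1)) : Prop :=
  (pos a < pos b ∧ PP a.2 b.2 = 0) ∨ (pos b < pos a ∧ PP a.2 b.2 = 1)

lemma PP_comm {s : ℕ} (i j : Fin (s + 1)) : PP i j = PP j i := by
  unfold PP
  by_cases h1 : i = j
  · simp [h1]
  · have h2 : ¬ j = i := fun h => h1 h.symm
    simp [h1, h2, or_comm]

lemma gen_asymm (K s : ℕ) (a b : Fin K × Fin (s + 1)) (h : gen K s a b) : ¬ gen K s b a := by
  intro h'
  rcases h with ⟨h1, h2⟩ | ⟨h1, h2⟩ <;> rcases h' with ⟨g1, g2⟩ | ⟨g1, g2⟩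
  · omega
  · rw [PP_comm, h2] at g2; exact absurd g2 (by decide)
  · rw [PP_comm, h2] at g2; exact absurd g2 (by decide)
  · omega

/-- The even family. -/
lemma gen_even (K s : ℕ) : VEv (gen K s) (s + 1) := by
  classical
  let b : Fin (s + 1) → Fin (s + 1) → ZMod 2 := fun i =>
    Pi.single i 1 + Pi.single (Fin.last s) 1
  have hb : ∀ i j, b i ⬝ᵥ b j = PP i j := by
    intro i j
    simp only [b, add_dotProduct, single_one_dotProduct, Pi.add_apply, Pi.single_apply]
    unfold PP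
    by_cases h1 : i = j
    · subst h1
      by_cases h2 : i = Fin.last s
      · subst h2; simp; decide
      · have h3 : ¬ Fin.last s = i := fun h => h2 h.symm
        simp [h2, h3]; decide
    · by_cases h2 : i = Fin.last s
      · subst h2
        have h3 : ¬ j = Fin.last s := fun h => h1 h.symm
        simp [h1, h3]; decide
      · by_cases h3 : j = Fin.last s
        · subst h3; simp [h2]; decide
        · have h4 : ¬ Fin.last s = j := fun h => h3 h.symm
          simp [h1, h2, h3, h4]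
  refine ⟨fun a => b a.2, acy_of_lt pos ?_, ?_⟩
  · rintro x y (⟨h | h, h0⟩ | ⟨h | h, h0⟩)
    · exact h.1
    · rw [hb, h.2] at h0; exact absurd h0 (by decide)
    · rw [hb, PP_comm, h.2] at h0; exact absurd h0 (by decide)
    · exact h.1
  · intro a
    rw [hb]; unfold PP; simp

/-- The relations in two windows with the same vectors. -/
lemma gen_windows {K s k : ℕ} (x : Fin K × Fin (s + 1) → Fin k → ZMod 2)
    (hx : Acy (Arc (gen K s) x)) (κ μ : Fin K) (hκ : κ < μ) (hf : ∀ i, x (κ, i) = x (μ, i)) :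
    ∃ e : ZMod 2, ∀ i j, x (κ, i) ⬝ᵥ x (κ, j) = PP i j + e := by
  set R := Arc (gen K s) x with hR
  have hlt : ∀ i j : Fin (s + 1), pos (κ, i) < pos (μ, j) := by
    intro i j
    unfold pos
    have h1 : (κ.val + 1) * (s + 1) ≤ μ.val * (s + 1) := Nat.mul_le_mul_right _ hκ
    have h2 := i.isLt
    simp only
    nlinarith
  have hin : ∀ (ν : Fin K) (i j : Fin (s + 1)), i < j → pos (ν, i) < pos (ν, j) := by
    intro ν i j h
    exact Nat.add_lt_add_left h _
  -- arcs after the inversions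
  have fwd : ∀ a b : Fin K × Fin (s + 1), pos a < pos b → PP a.2 b.2 = x a ⬝ᵥ x b → R a b := by
    intro a b h h0
    rcases zc (x a ⬝ᵥ x b) with g | g
    · exact Or.inl ⟨Or.inl ⟨h, by rw [h0, g]⟩, g⟩
    · exact Or.inr ⟨Or.inr ⟨h, by rw [PP_comm, h0, g]⟩, g⟩
  have bwd : ∀ a b : Fin K × Fin (s + 1), pos a < pos b → PP a.2 b.2 ≠ x a ⬝ᵥ x b → R b a := by
    intro a b h h0
    rcases zc (x a ⬝ᵥ x b) with g | g
    · refine Or.inl ⟨Or.inr ⟨h, ?_⟩, by rw [dotProduct_comm]; exact g⟩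
      rw [g] at h0
      rw [PP_comm]
      exact (zc _).resolve_left h0
    · refine Or.inr ⟨Or.inl ⟨h, ?_⟩, by rw [dotProduct_comm]; exact g⟩
      rw [g] at h0
      exact (zc _).resolve_right h0
  have key : ∀ i j, i < j → ((PP i j = x (κ, i) ⬝ᵥ x (κ, j) ↔ PP i i = x (κ, i) ⬝ᵥ x (κ, i)) ∧
      (PP i j = x (κ, i) ⬝ᵥ x (κ, j) ↔ PP j j = x (κ, j) ⬝ᵥ x (κ, j))) := by
    intro i j hij
    by_cases h : PP i j = x (κ, i) ⬝ᵥ x (κ, j)
    · have r1 : R (κ, i) (κ, j) := fwd _ _ (hin κ i j hij) h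
      have r2 : R (κ, j) (μ, i) := fwd _ _ (hlt j i) (by
        show PP j i = _
        rw [PP_comm, dotProduct_comm, ← hf i]; exact h)
      have r3 : R (μ, i) (μ, j) := fwd _ _ (hin μ i j hij) (by
        rw [← hf i, ← hf j]; exact h)
      refine ⟨iff_of_true h ?_, iff_of_true h ?_⟩
      · by_contra hc
        exact no_tri hx r1 r2 (bwd _ _ (hlt i i) (by rw [← hf i]; exact hc))
      · by_contra hc
        exact no_tri hx r2 r3 (bwd _ _ (hlt j j) (by rw [← hf j]; exact hc))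
    · have r1 : R (κ, j) (κ, i) := bwd _ _ (hin κ i j hij) h
      have r2 : R (μ, i) (κ, j) := bwd _ _ (hlt j i) (by
        show PP j i ≠ _
        rw [PP_comm, dotProduct_comm, ← hf i]; exact h)
      have r3 : R (μ, j) (μ, i) := bwd _ _ (hin μ i j hij) (by
        rw [← hf i, ← hf j]; exact h)
      refine ⟨iff_of_false h ?_, iff_of_false h ?_⟩
      · intro hc
        exact no_tri hx r2 r1 (fwd _ _ (hlt i i) (by rw [← hf i]; exact hc))
      · intro hc
        exact no_tri hx r3 r2 (fwd _ _ (hlt j j) (by rw [← hf j]; exact hc))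
  have key2 : ∀ i j, (PP i j = x (κ, i) ⬝ᵥ x (κ, j) ↔ PP i i = x (κ, i) ⬝ᵥ x (κ, i)) := by
    intro i j
    rcases lt_trichotomy i j with h | h | h
    · exact (key i j h).1
    · subst h; exact Iff.rfl
    · have := (key j i h).2
      rw [PP_comm, dotProduct_comm] at this
      exact this
  have key3 : ∀ i j, (PP i i = x (κ, i) ⬝ᵥ x (κ, i) ↔ PP j j = x (κ, j) ⬝ᵥ x (κ, j)) := by
    intro i j
    rw [← key2 i j, ← key2 j i, PP_comm, dotProduct_comm]
  by_cases h0 : PP (0 : Fin (s + 1)) 0 = x (κ, (0 : Fin (s + 1))) ⬝ᵥ x (κ, 0)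
  · refine ⟨0, fun i j => ?_⟩
    rw [add_zero]
    exact ((key2 i j).2 ((key3 i 0).2 h0)).symm
  · refine ⟨1, fun i j => ?_⟩
    have h1 : ¬ PP i j = x (κ, i) ⬝ᵥ x (κ, j) := fun h =>
      h0 ((key3 i 0).1 ((key2 i j).1 h))
    generalize x (κ, i) ⬝ᵥ x (κ, j) = a at *
    generalize PP i j = b at *
    revert h1; revert a b; decide

/-- No `s` vectors in even dimension `s` have Gram matrix `J + I`. -/
lemma no_gram {s : ℕ} (hs : Even s) (h0 : 0 < s) (ψ : Fin s → Fin s → ZMod 2)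
    (h : ∀ i j, ψ i ⬝ᵥ ψ j = if i = j then 0 else 1) : False := by
  classical
  have hs0 : ((s : ℕ) : ZMod 2) = 0 := (ZMod.natCast_eq_zero_iff_even).2 hs
  let P : Matrix (Fin s) (Fin s) (ZMod 2) := Matrix.of ψ
  let G : Matrix (Fin s) (Fin s) (ZMod 2) := Matrix.of fun i j => if i = j then 0 else 1
  have hP : P * Pᵀ = G := by
    ext i j
    rw [Matrix.mul_apply]
    exact h i j
  have hG' : ∀ i j, G i j = 1 + (1 : Matrix (Fin s) (Fin s) (ZMod 2)) i j := by
    intro i j
    by_cases hij : i = j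
    · subst hij; simp [G]; decide
    · simp [G, hij]
  have hG : G * G = 1 := by
    ext i j
    rw [Matrix.mul_apply]
    have e : ∀ k, G i k * G k j = 1 + (1 : Matrix (Fin s) (Fin s) (ZMod 2)) i k +
        (1 : Matrix (Fin s) (Fin s) (ZMod 2)) k j +
        (1 : Matrix (Fin s) (Fin s) (ZMod 2)) i k * (1 : Matrix (Fin s) (Fin s) (ZMod 2)) k j := by
      intro k; rw [hG', hG']; ring
    simp only [e, Finset.sum_add_distrib, Finset.sum_const, Finset.card_univ, Fintype.card_fin,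
      nsmul_eq_mul, hs0, zero_mul]
    rw [← Matrix.mul_apply, Matrix.one_mul]
    have e1 : ∑ k, (1 : Matrix (Fin s) (Fin s) (ZMod 2)) i k = 1 := by
      simp [Matrix.one_apply]
    have e2 : ∑ k, (1 : Matrix (Fin s) (Fin s) (ZMod 2)) k j = 1 := by
      simp [Matrix.one_apply]
    rw [e1, e2]
    generalize (1 : Matrix (Fin s) (Fin s) (ZMod 2)) i j = a
    revert a; decide
  have h1 : P * (Pᵀ * G) = 1 := by rw [← Matrix.mul_assoc, hP, hG]
  have h2 : (Pᵀ * G) * P = 1 := by rw [mul_eq_one_comm]; exact h1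
  have h3 := congrFun (congrFun h2 ⟨0, h0⟩) ⟨0, h0⟩
  rw [Matrix.one_apply_eq, Matrix.mul_apply] at h3
  have e : ∀ j, (Pᵀ * G) ⟨0, h0⟩ j * P j ⟨0, h0⟩ =
      (∑ i, ψ i ⟨0, h0⟩) * ψ j ⟨0, h0⟩ + ψ j ⟨0, h0⟩ := by
    intro j
    have : (Pᵀ * G) ⟨0, h0⟩ j = (∑ i, ψ i ⟨0, h0⟩) + ψ j ⟨0, h0⟩ := by
      rw [Matrix.mul_apply]
      have e' : ∀ i, Pᵀ ⟨0, h0⟩ i * G i j =
          ψ i ⟨0, h0⟩ + ψ i ⟨0, h0⟩ * (1 : Matrix (Fin s) (Fin s) (ZMod 2)) i j := by
        intro i; rw [hG']; simp only [P, Matrix.transpose_apply, Matrix.of_apply]; ring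
      simp only [e', Finset.sum_add_distrib, Matrix.one_apply]
      simp
    rw [this]
    show _ * ψ j ⟨0, h0⟩ = _
    generalize (∑ i, ψ i ⟨0, h0⟩) = a
    generalize ψ j ⟨0, h0⟩ = b
    revert a b; decide
  simp only [e, Finset.sum_add_distrib, ← Finset.mul_sum] at h3
  generalize (∑ i, ψ i ⟨0, h0⟩) = a at h3
  revert h3; revert a; decide

/-- The number of windows. -/
def win2 (s : ℕ) : ℕ := (2 ^ s) ^ (s + 1) + 1

/-- The lower bound. -/
lemma gen_lower (s : ℕ) (hs : Even s) (h0 : 0 < s) : ¬ VLe (gen (win2 s) s) s := by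
  classical
  rintro ⟨x, hx⟩
  let f : Fin (win2 s) → Fin (s + 1) → Fin s → ZMod 2 := fun κ i => x (κ, i)
  have hcard : Fintype.card (Fin (s + 1) → Fin s → ZMod 2) < Fintype.card (Fin (win2 s)) := by
    rw [Fintype.card_fun, Fintype.card_fun, ZMod.card, Fintype.card_fin, Fintype.card_fin,
      Fintype.card_fin]
    unfold win2; omega
  obtain ⟨κ, μ, hne, hf⟩ : ∃ κ μ : Fin (win2 s), κ < μ ∧ f κ = f μ := by
    obtain ⟨a, b, hab, h⟩ := Fintype.exists_ne_map_eq_of_card_lt f hcard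
    rcases lt_or_gt_of_ne hab with h1 | h1
    · exact ⟨a, b, h1, h⟩
    · exact ⟨b, a, h1, h.symm⟩
  obtain ⟨e, he⟩ := gen_windows x hx κ μ hne (fun i => congrFun hf i)
  apply no_gram hs h0 (fun i => x (κ, i.castSucc) + x (κ, Fin.last s))
  intro i j
  rw [add_dotProduct, dotProduct_add, dotProduct_add, he, he, he, he]
  have h1 : ¬ i.castSucc = Fin.last s := (Fin.castSucc_lt_last i).ne
  have h2 : ¬ j.castSucc = Fin.last s := (Fin.castSucc_lt_last j).ne
  unfold PP
  by_cases hij : i = j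
  · subst hij
    simp only [true_or, or_true, if_true]
    clear he
    revert e; decide
  · have hij' : ¬ i.castSucc = j.castSucc := fun h => hij (Fin.castSucc_injective _ h)
    simp only [hij, hij', h1, h2, or_true, true_or, or_self, if_true, if_false]
    clear he
    revert e; decide

end Pool.Agent.H2.Dij2
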