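import Pool.Agent.H2.Dij.Gen
import Pool.Agent.H2.Dij.OddEx

/-!
Sets and parities instead of vectors; the classification of the universal partners.
-/

set_option autoImplicit false

namespace Pool.Agent.H2.Dij2

open Finset Matrix

/-- The vector of a vertex for a family of sets. -/
noncomputable def vec {V : Type} {k : ℕ} (X : Fin k → Set V) (a : V) (i : Fin k) : ZMod 2 :=
  open Classical in if a ∈ X i then 1 else 0

lemma card_eq {V : Type} {k : ℕ} (X : Fin k → Set V) (a b : V) :
    ((Nat.card {i : Fin k // a ∈ X i ∧ b ∈ X i} : ℕ) : ZMod 2) = vec X a ⬝ᵥ vec X b := by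
  classical
  rw [Nat.card_eq_fintype_card, Fintype.card_subtype, dotProduct]
  rw [Finset.card_filter, Nat.cast_sum]
  refine Finset.sum_congr rfl fun i _ => ?_
  unfold vec
  by_cases h1 : a ∈ X i <;> by_cases h2 : b ∈ X i <;> simp [h1, h2]

lemma even_iff {V : Type} {k : ℕ} (X : Fin k → Set V) (a b : V) :
    Even (Nat.card {i : Fin k // a ∈ X i ∧ b ∈ X i}) ↔ vec X a ⬝ᵥ vec X b = 0 := by
  rw [← card_eq, ZMod.natCast_eq_zero_iff_even]

lemma odd_iff {V : Type} {k : ℕ} (X : Fin k → Set V) (a b : V) :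
    Odd (Nat.card {i : Fin k // a ∈ X i ∧ b ∈ X i}) ↔ vec X a ⬝ᵥ vec X b = 1 := by
  rw [← card_eq, ZMod.natCast_eq_one_iff_odd]

lemma even_iff' {V : Type} {k : ℕ} (X : Fin k → Set V) (a : V) :
    Even (Nat.card {i : Fin k // a ∈ X i}) ↔ vec X a ⬝ᵥ vec X a = 0 := by
  rw [← even_iff]
  simp only [and_self_iff]

/-- The family of sets of a family of vectors. -/
def sets {V : Type} {k : ℕ} (x : V → Fin k → ZMod 2) (i : Fin k) : Set V := {a | x a i = 1}

lemma vec_sets {V : Type} {k : ℕ} (x : V → Fin k → ZMod 2) : vec (sets x) = x := by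
  classical
  funext a i
  unfold vec
  by_cases h : x a i = 1
  · have : a ∈ sets x i := h
    rw [if_pos this]; exact h.symm
  · have : a ∉ sets x i := h
    rw [if_neg this]
    exact ((zc _).resolve_right h).symm

/-- The arcs after the inversions. -/
def Inv {V : Type} (r : V → V → Prop) {k : ℕ} (X : Fin k → Set V) (a b : V) : Prop :=
  (r a b ∧ Even (Nat.card {i : Fin k // a ∈ X i ∧ b ∈ X i})) ∨
    (r b a ∧ Odd (Nat.card {i : Fin k // a ∈ X i ∧ b ∈ X i}))

lemma inv_eq {V : Type} (r : V → V → Prop) {k : ℕ} (X : Fin k → Set V) :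
    Inv r X = Arc r (vec X) := by
  funext a b
  unfold Inv Arc
  rw [even_iff, odd_iff]

/-- `inv r ≤ k`. -/
def ILe {V : Type} (r : V → V → Prop) (k : ℕ) : Prop := ∃ X : Fin k → Set V, Acy (Inv r X)

lemma ile_iff {V : Type} (r : V → V → Prop) (k : ℕ) : ILe r k ↔ VLe r k := by
  constructor
  · rintro ⟨X, hX⟩
    exact ⟨vec X, by rw [← inv_eq]; exact hX⟩
  · rintro ⟨x, hx⟩
    exact ⟨sets x, by rw [inv_eq, vec_sets]; exact hx⟩

/-- `k` sets, every vertex in an even number of them. -/
def IEv {V : Type} (r : V → V → Prop) (k : ℕ) : Prop :=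
  ∃ X : Fin k → Set V, Acy (Inv r X) ∧ ∀ v, Even (Nat.card {i : Fin k // v ∈ X i})

lemma iev_iff {V : Type} (r : V → V → Prop) (k : ℕ) : IEv r k ↔ VEv r k := by
  constructor
  · rintro ⟨X, hX, h⟩
    exact ⟨vec X, by rw [← inv_eq]; exact hX, fun a => (even_iff' X a).1 (h a)⟩
  · rintro ⟨x, hx, h⟩
    refine ⟨sets x, by rw [inv_eq, vec_sets]; exact hx, fun a => ?_⟩
    rw [even_iff', vec_sets]; exact h a

/-- If all sets are empty the graph is acyclic. -/
lemma vev_one {V : Type} {r : V → V → Prop} (h : VEv r 1) : VLe r 0 := by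
  obtain ⟨x, hx, h0⟩ := h
  refine ⟨fun _ i => i.elim0, ?_⟩
  have e : ∀ v, x v = 0 := by
    intro v
    funext i
    have := h0 v
    simp only [dotProduct, Finset.univ_unique, Fin.default_eq_zero, Fin.isValue,
      Finset.sum_singleton] at this
    rw [Subsingleton.elim i 0]
    rcases zc (x v 0) with h | h
    · exact h
    · rw [h] at this; exact absurd this (by decide)
  refine acy_arc id (fun _ _ h => h) (y := x) ?_ hx
  intro a b
  rw [show id a = a from rfl, e a]
  simp [dotProduct]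

/-- In even dimension one coordinate of an even family can be deleted. -/
lemma vev_even {V : Type} {r : V → V → Prop} {s : ℕ} (he : Even (s + 1)) (h : VEv r (s + 1)) :
    VLe r s := by
  obtain ⟨x, hx, h0⟩ := h
  exact ⟨fun a i => x a i.castSucc + x a (Fin.last s),
    acy_arc id (fun _ _ h => h) (fun a b => reduce_one he _ _ (h0 a) (h0 b)) hx⟩

/-- The inversion number and even families. -/
lemma even_dim {V : Type} {r : V → V → Prop} {s : ℕ} (h : VEv r (s + 1)) (hn : ¬ VLe r s) :
    Odd (s + 1) ∧ 3 ≤ s + 1 := by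
  have hodd : Odd (s + 1) := by
    by_contra hc
    exact hn (vev_even (Nat.not_odd_iff_even.1 hc) h)
  refine ⟨hodd, ?_⟩
  rcases s with _ | _ | s
  · exact (hn (vev_one h)).elim
  · exact absurd hodd (by decide)
  · omega

lemma rle_zero {V : Type} {r : V → V → Prop} (h : RLe r 0) : VLe r 0 := by
  rcases h with h | h
  · exact h
  · exact vev_one h

lemma rle_one {V : Type} {r : V → V → Prop} (h : RLe r 1) : VLe r 1 := by
  rcases h with h | h
  · exact h
  · exact vev_even (by decide) h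

/-- **The step** for graphs of inversion number at most two. -/
lemma stepE {V W : Type} (r : V → V → Prop) (s : W → W → Prop) (e k : ℕ) (he : e ≤ 2)
    (hs : ∀ j < e, ¬ VLe s j) (h : RLe (dj r s) k) : e ≤ k ∧ RLe r (k - e) := by
  have hW : RLe s k := RLe.hom (s := dj r s) Sum.inr (fun a b h => h) h
  rcases e with _ | _ | _ | e
  · exact ⟨Nat.zero_le _, RLe.hom (s := dj r s) Sum.inl (fun a b h => h) h⟩
  · rcases k with _ | k
    · exact (hs 0 (by omega) (rle_zero hW)).elim
    · exact ⟨by omega, step1 k r s (hs 0 (by omega)) h⟩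
  · rcases k with _ | _ | k
    · exact (hs 0 (by omega) (rle_zero hW)).elim
    · exact (hs 1 (by omega) (rle_one hW)).elim
    · exact ⟨by omega, step2 k r s (hs 1 (by omega)) h⟩
  · omega

/-- An even family and an acyclic graph. -/
lemma vev_dj {V W : Type} {r : V → V → Prop} {s : W → W → Prop} {k : ℕ} (h : VEv r k)
    (hs : VLe s 0) : VEv (dj r s) k := by
  obtain ⟨x, hx, h0⟩ := h
  obtain ⟨y, hy⟩ := hs
  refine ⟨Sum.elim x (fun _ => 0), acy_dj ?_ ?_ ?_, ?_⟩
  · exact acy_map id (fun a b h => h) hx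
  · refine acy_map id ?_ hy
    rintro a b (⟨g1, g2⟩ | ⟨g1, g2⟩)
    · exact Or.inl ⟨g1, by simp [dotProduct]⟩
    · exact absurd g2 (by simp [dotProduct])
  · rintro a b (⟨g1, g2⟩ | ⟨g1, g2⟩)
    · exact g1
    · exact absurd g2 (by simp [dotProduct])
  · rintro (a | a)
    · exact h0 a
    · simp [dotProduct]

/-- The directed triangle. -/
def c3 (a b : Fin 3) : Prop := b = a + 1

lemma c3_or : ∀ x y : Fin 3, c3 x y → ¬ c3 y x := by
  unfold c3; decide

lemma c3_one : VLe c3 1 := by
  refine ⟨fun a _ => if a = 1 then 0 else 1, acy_of_lt (A := Fin 3) id ?_⟩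
  have key : ∀ a b : Fin 3, (c3 a b ∧ ((if a = 1 then 0 else 1 : ZMod 2) *
      (if b = 1 then 0 else 1) = 0)) ∨ (c3 b a ∧ ((if a = 1 then 0 else 1 : ZMod 2) *
      (if b = 1 then 0 else 1) = 1)) → a < b := by
    unfold c3; decide
  intro a b h
  refine key a b ?_
  simpa [Arc, dotProduct] using h

lemma c3_zero : ¬ VLe c3 0 := by
  rintro ⟨x, hx⟩
  have h : ∀ a : Fin 3, Arc c3 x a (a + 1) := fun a => Or.inl ⟨rfl, by simp [dotProduct]⟩
  exact no_tri hx (h 0) (h 1) (h 2)

end Pool.Agent.H2.Dij2
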