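import Pool.Agent.H2.Dij.Mid

/-!
Symmetric forms over `ZMod 2` on spaces of bounded dimension.
-/

set_option autoImplicit false

namespace Pool.Agent.H2.Dij2

open Finset Matrix Module

lemma snoc2_dot {k : ℕ} (x y : Fin k → ZMod 2) (s t s' t' : ZMod 2) :
    (Fin.snoc (Fin.snoc x s : Fin (k + 1) → ZMod 2) s' : Fin (k + 1 + 1) → ZMod 2) ⬝ᵥ
      (Fin.snoc (Fin.snoc y t : Fin (k + 1) → ZMod 2) t' : Fin (k + 1 + 1) → ZMod 2) =
      x ⬝ᵥ y + s * t + s' * t' := by
  rw [snoc_dot, snoc_dot]

lemma one_dot {k : ℕ} (x : Fin k → ZMod 2) : x ⬝ᵥ (fun _ => 1) = x ⬝ᵥ x := by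
  unfold dotProduct
  refine Finset.sum_congr rfl fun i _ => ?_
  rcases zc (x i) with h | h <;> simp [h]

lemma one_one {k : ℕ} (hk : Odd k) : (fun _ : Fin k => (1 : ZMod 2)) ⬝ᵥ (fun _ => 1) = 1 := by
  simp only [dotProduct, mul_one, Finset.sum_const, Finset.card_univ, Fintype.card_fin,
    nsmul_eq_mul]
  exact (ZMod.natCast_eq_one_iff_odd).2 hk

/-- The kernel of a nonzero functional. -/
lemma finrank_ker {U : Type} [AddCommGroup U] [Module (ZMod 2) U] [FiniteDimensional (ZMod 2) U]
    (f : U →ₗ[ZMod 2] ZMod 2) (hf : ∃ u, f u = 1) :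
    finrank (ZMod 2) (LinearMap.ker f) + 1 = finrank (ZMod 2) U := by
  have h1 := LinearMap.finrank_range_add_finrank_ker f
  have h2 : LinearMap.range f = ⊤ := by
    rw [LinearMap.range_eq_top]
    intro c
    obtain ⟨u, hu⟩ := hf
    exact ⟨c • u, by rw [map_smul, hu, smul_eq_mul, mul_one]⟩
  rw [h2, finrank_top, finrank_self] at h1
  omega

/-- Even maps into a space of even dimension: one dimension less. -/
lemma reduce_map {U : Type} {s : ℕ} (he : Even (s + 1)) (f : U → Fin (s + 1) → ZMod 2)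
    (h0 : ∀ u, f u ⬝ᵥ f u = 0) : ∃ g : U → Fin s → ZMod 2, ∀ a b, g a ⬝ᵥ g b = f a ⬝ᵥ f b :=
  ⟨fun a i => f a i.castSucc + f a (Fin.last s), fun a b => reduce_one he _ _ (h0 a) (h0 b)⟩

/-- **Classification** of symmetric forms over `ZMod 2`. -/
lemma classify : ∀ (n : ℕ) (U : Type) [AddCommGroup U] [Module (ZMod 2) U]
    [FiniteDimensional (ZMod 2) U] (B : U →ₗ[ZMod 2] U →ₗ[ZMod 2] ZMod 2)
    (_ : ∀ a b, B a b = B b a) (_ : finrank (ZMod 2) U ≤ n),
    ((∃ u, B u u = 1) → ∃ f : U → Fin n → ZMod 2, ∀ a b, f a ⬝ᵥ f b = B a b) ∧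
    ((∀ u, B u u = 0) → ∃ f : U → Fin (n + 1) → ZMod 2, ∀ a b, f a ⬝ᵥ f b = B a b) := by
  intro n
  induction n using Nat.strong_induction_on with
  | _ n ih =>
  intro U _ _ _ B hB hn
  constructor
  · rintro ⟨u, hu⟩
    have hfr := finrank_ker (B u) ⟨u, hu⟩
    obtain ⟨n, rfl⟩ : ∃ m, n = m + 1 := ⟨n - 1, by omega⟩
    let U' := LinearMap.ker (B u)
    let B' : U' →ₗ[ZMod 2] U' →ₗ[ZMod 2] ZMod 2 := B.domRestrict₁₂ U' U'
    have hB' : ∀ a b : U', B' a b = B a b := fun _ _ => rfl
    have hmem : ∀ a : U, a + B u a • u ∈ U' := by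
      intro a
      rw [LinearMap.mem_ker, map_add, map_smul, hu, smul_eq_mul, mul_one]
      exact CharTwo.add_self_eq_zero _
    let pr : U → U' := fun a => ⟨a + B u a • u, hmem a⟩
    have hpr : ∀ a b, B' (pr a) (pr b) = B a b + B u a * B u b := by
      intro a b
      rw [hB']
      simp only [pr, map_add, map_smul, LinearMap.add_apply, LinearMap.smul_apply, smul_eq_mul, hu]
      rw [hB a u]
      generalize B u a = p
      generalize B u b = q
      generalize B a b = t
      revert p q t; decide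
    obtain ⟨i1, i2⟩ := ih n (by omega) U' B' (fun a b => by rw [hB', hB', hB])
      (by show finrank (ZMod 2) (LinearMap.ker (B u)) ≤ n; omega)
    have fin1 : (∃ f : U' → Fin n → ZMod 2, ∀ a b, f a ⬝ᵥ f b = B' a b) →
        ∃ f : U → Fin (n + 1) → ZMod 2, ∀ a b, f a ⬝ᵥ f b = B a b := by
      rintro ⟨f, hf⟩
      refine ⟨fun a => (Fin.snoc (f (pr a)) (B u a) : Fin (n + 1) → ZMod 2), fun a b => ?_⟩
      rw [snoc_dot, hf, hpr]
      generalize B u a * B u b = p
      generalize B a b = t
      revert p t; decide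
    by_cases hc : ∃ v, B' v v = 1
    · exact fin1 (i1 hc)
    · obtain ⟨f, hf⟩ := i2 fun v => (zc _).resolve_right fun h => hc ⟨v, h⟩
      have hf0 : ∀ v, f v ⬝ᵥ f v = 0 := fun v => by
        rw [hf]; exact (zc _).resolve_right fun h => hc ⟨v, h⟩
      rcases Nat.even_or_odd (n + 1) with he | ho
      · obtain ⟨g, hg⟩ := reduce_map he f hf0
        exact fin1 ⟨g, fun a b => by rw [hg, hf]⟩
      · refine ⟨fun a => f (pr a) + B u a • (fun _ => 1), fun a b => ?_⟩
        rw [add_dotProduct, dotProduct_add, dotProduct_add, smul_dotProduct, smul_dotProduct,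
          dotProduct_smul, dotProduct_smul, one_one ho, hf, hpr, one_dot, hf0,
          dotProduct_comm, one_dot, hf0]
        simp only [smul_eq_mul, mul_zero, mul_one]
        generalize B u a = p
        generalize B u b = q
        generalize B a b = t
        revert p q t; decide
  · intro hal
    by_cases hz : ∃ u v, B u v = 1
    · obtain ⟨u, v, huv⟩ := hz
      have hvu : B v u = 1 := by rw [hB]; exact huv
      have hfr := finrank_ker (B u) ⟨v, huv⟩
      have hfr2 := finrank_ker ((B v).domRestrict (LinearMap.ker (B u)))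
        ⟨⟨u, by rw [LinearMap.mem_ker]; exact hal u⟩, hvu⟩
      obtain ⟨n, rfl⟩ : ∃ m, n = m + 2 := ⟨n - 2, by omega⟩
      let U' := LinearMap.ker ((B v).domRestrict (LinearMap.ker (B u)))
      let B' : U' →ₗ[ZMod 2] U' →ₗ[ZMod 2] ZMod 2 :=
        (B.domRestrict₁₂ (LinearMap.ker (B u)) (LinearMap.ker (B u))).domRestrict₁₂ U' U'
      have hB' : ∀ a b : U', B' a b = B (a : LinearMap.ker (B u)) (b : LinearMap.ker (B u)) :=
        fun _ _ => rfl
      have hmem : ∀ a : U, a + B v a • u + B u a • v ∈ LinearMap.ker (B u) := by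
        intro a
        rw [LinearMap.mem_ker, map_add, map_add, map_smul, map_smul, huv, hal, smul_eq_mul,
          smul_eq_mul, mul_zero, mul_one, add_zero]
        exact CharTwo.add_self_eq_zero _
      have hmem2 : ∀ a : U, (⟨a + B v a • u + B u a • v, hmem a⟩ : LinearMap.ker (B u)) ∈ U' := by
        intro a
        show B v (a + B v a • u + B u a • v) = 0
        rw [map_add, map_add, map_smul, map_smul, hvu, hal, smul_eq_mul,
          smul_eq_mul, mul_zero, mul_one, add_zero]
        exact CharTwo.add_self_eq_zero _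
      let pr : U → U' := fun a => ⟨⟨a + B v a • u + B u a • v, hmem a⟩, hmem2 a⟩
      have hpr : ∀ a b, B' (pr a) (pr b) = B a b + (B v a * B u b + B u a * B v b) := by
        intro a b
        rw [hB']
        simp only [pr, map_add, map_smul, LinearMap.add_apply, LinearMap.smul_apply, smul_eq_mul,
          huv, hvu, hal]
        rw [hB a u, hB a v]
        generalize B u a = p
        generalize B u b = q
        generalize B v a = p'
        generalize B v b = q'
        generalize B a b = t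
        revert p q p' q' t; decide
      obtain ⟨-, i2⟩ := ih n (by omega) U' B' (fun a b => by rw [hB', hB', hB])
        (by show finrank (ZMod 2) (LinearMap.ker ((B v).domRestrict (LinearMap.ker (B u)))) ≤ n
            omega)
      obtain ⟨f, hf⟩ := i2 fun w => by rw [hB']; exact hal _
      have hf0 : ∀ w, f w ⬝ᵥ f w = 0 := fun w => by rw [hf, hB']; exact hal _
      have build : ∀ (m : ℕ), Odd m → (g : U' → Fin m → ZMod 2) →
          (∀ a b, g a ⬝ᵥ g b = B' a b) →
          ∃ f : U → Fin (m + 2) → ZMod 2, ∀ a b, f a ⬝ᵥ f b = B a b := by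
        intro m hm g hg
        have hg0 : ∀ w, g w ⬝ᵥ g w = 0 := fun w => by rw [hg, hB']; exact hal _
        refine ⟨fun a => (Fin.snoc (Fin.snoc (g (pr a) + B u a • (fun _ => 1)) (B v a + B u a) :
          Fin (m + 1) → ZMod 2) (B v a) : Fin (m + 1 + 1) → ZMod 2), fun a b => ?_⟩
        rw [snoc2_dot, add_dotProduct, dotProduct_add, dotProduct_add, smul_dotProduct,
          smul_dotProduct, dotProduct_smul, dotProduct_smul, one_one hm, hg, hpr, one_dot, hg0,
          dotProduct_comm, one_dot, hg0]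
        simp only [smul_eq_mul, mul_zero, mul_one]
        generalize B u a = p
        generalize B u b = q
        generalize B v a = p'
        generalize B v b = q'
        generalize B a b = t
        revert p q p' q' t; decide
      rcases Nat.even_or_odd (n + 1) with he | ho
      · obtain ⟨g, hg⟩ := reduce_map he f hf0
        have hn : Odd n := by
          rcases Nat.even_or_odd n with h | h
          · exact absurd he (by rw [Nat.even_add_one]; exact not_not.2 h)
          · exact h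
        obtain ⟨g', hg'⟩ := build n hn g (fun a b => by rw [hg, hf])
        refine ⟨fun a => (Fin.snoc (g' a) 0 : Fin (n + 2 + 1) → ZMod 2), fun a b => ?_⟩
        rw [snoc_dot, hg']; simp
      · exact build (n + 1) ho f hf
    · refine ⟨fun _ => 0, fun a b => ?_⟩
      rw [zero_dotProduct]
      exact ((zc _).resolve_right fun h => hz ⟨a, b, h⟩).symm

/-- The arcs after the change by a form. -/
def ArcB {V : Type} (r : V → V → Prop) (h : V → V → ZMod 2) (a b : V) : Prop :=
  (r a b ∧ h a b = 0) ∨ (r b a ∧ h a b = 1)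

/-- `r` is made acyclic by a symmetric form on a space of dimension at most `k`. -/
def FLe {V : Type} (r : V → V → Prop) (k : ℕ) : Prop :=
  ∃ (U : Type) (_ : AddCommGroup U) (_ : Module (ZMod 2) U) (_ : FiniteDimensional (ZMod 2) U)
    (B : U →ₗ[ZMod 2] U →ₗ[ZMod 2] ZMod 2) (x : V → U), (∀ a b, B a b = B b a) ∧
    finrank (ZMod 2) U ≤ k ∧ Acy (ArcB r fun a b => B (x a) (x b))

/-- The dot product as a bilinear map. -/
def dotB (k : ℕ) : (Fin k → ZMod 2) →ₗ[ZMod 2] (Fin k → ZMod 2) →ₗ[ZMod 2] ZMod 2 :=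
  LinearMap.mk₂ (ZMod 2) (fun a b => a ⬝ᵥ b) (fun a b c => add_dotProduct a b c)
    (fun c a b => smul_dotProduct c a b) (fun a b c => dotProduct_add a b c)
    (fun c a b => dotProduct_smul c a b)

lemma FLe.rle {V : Type} {r : V → V → Prop} {k : ℕ} (h : FLe r k) : RLe r k := by
  obtain ⟨U, _, _, _, B, x, hB, hk, hx⟩ := h
  obtain ⟨h1, h2⟩ := classify k U B hB hk
  by_cases hc : ∃ u, B u u = 1
  · obtain ⟨f, hf⟩ := h1 hc
    left
    refine ⟨fun a => f (x a), ?_⟩
    refine acy_map id (fun a b hab => ?_) hx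
    unfold Arc at hab
    rw [hf] at hab
    exact hab
  · have hal : ∀ u, B u u = 0 := fun u => (zc _).resolve_right fun h => hc ⟨u, h⟩
    obtain ⟨f, hf⟩ := h2 hal
    right
    refine ⟨fun a => f (x a), ?_, fun a => by rw [hf]; exact hal _⟩
    refine acy_map id (fun a b hab => ?_) hx
    unfold Arc at hab
    rw [hf] at hab
    exact hab

/-- A form which is not alternating. -/
lemma vle_of_form {V U : Type} [AddCommGroup U] [Module (ZMod 2) U]
    [FiniteDimensional (ZMod 2) U] {r : V → V → Prop} {k : ℕ}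
    (B : U →ₗ[ZMod 2] U →ₗ[ZMod 2] ZMod 2) (x : V → U) (hB : ∀ a b, B a b = B b a)
    (hk : finrank (ZMod 2) U ≤ k) (hx : Acy (ArcB r fun a b => B (x a) (x b)))
    (hu : ∃ u, B u u = 1) : VLe r k := by
  obtain ⟨f, hf⟩ := (classify k U B hB hk).1 hu
  refine ⟨fun a => f (x a), ?_⟩
  refine acy_map id (fun a b hab => ?_) hx
  unfold Arc at hab
  rw [hf] at hab
  exact hab

lemma VLe.fle {V : Type} {r : V → V → Prop} {k : ℕ} (h : VLe r k) : FLe r k := by
  obtain ⟨x, hx⟩ := h
  exact ⟨Fin k → ZMod 2, inferInstance, inferInstance, inferInstance, dotB k, x,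
    fun a b => dotProduct_comm a b, by simp, hx⟩

lemma RLe.fle {V : Type} {r : V → V → Prop} {k : ℕ} (h : RLe r k) : FLe r k := by
  rcases h with h | ⟨x, hx, h0⟩
  · exact h.fle
  · let φ : (Fin (k + 1) → ZMod 2) →ₗ[ZMod 2] ZMod 2 := dotB (k + 1) (fun _ => 1)
    have hφ : ∀ a, φ a = a ⬝ᵥ a := fun a => by
      show (fun _ => 1) ⬝ᵥ a = _
      rw [dotProduct_comm, one_dot]
    have hfr := finrank_ker φ ⟨Pi.single 0 1, by rw [hφ]; simp⟩
    refine ⟨LinearMap.ker φ, inferInstance, inferInstance, inferInstance,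
      (dotB (k + 1)).domRestrict₁₂ _ _, fun a => ⟨x a, ?_⟩,
      fun a b => dotProduct_comm (a : Fin (k + 1) → ZMod 2) b, ?_, hx⟩
    · rw [LinearMap.mem_ker, hφ]; exact h0 a
    · simp only [finrank_fintype_fun_eq_card, Fintype.card_fin] at hfr
      omega

end Pool.Agent.H2.Dij2
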