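import Pool.Agent.H2.Dij.Arr

/-!
Gaining dimensions from sorted nondegenerate sets of vertices of the second graph.
-/

set_option autoImplicit false

namespace Pool.Agent.H2.Dij2

open Finset Matrix Module

/-- A dijoin arranged by a form and a linear order. -/
structure Arr {V W U : Type} [AddCommGroup U] [Module (ZMod 2) U] (r : V → V → Prop)
    (s : W → W → Prop) (B : U →ₗ[ZMod 2] U →ₗ[ZMod 2] ZMod 2) (v : V → U) (w : W → U)
    (lt : V ⊕ W → V ⊕ W → Prop) : Prop where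
  symm : ∀ a b, B a b = B b a
  lin : Lin lt
  vv : ∀ a b, r a b → (B (v a) (v b) = 0 → lt (Sum.inl a) (Sum.inl b)) ∧
    (B (v a) (v b) = 1 → lt (Sum.inl b) (Sum.inl a))
  ww : ∀ a b, s a b → (B (w a) (w b) = 0 → lt (Sum.inr a) (Sum.inr b)) ∧
    (B (w a) (w b) = 1 → lt (Sum.inr b) (Sum.inr a))
  vw : ∀ a c, (B (v a) (w c) = 0 → lt (Sum.inl a) (Sum.inr c)) ∧
    (B (v a) (w c) = 1 → lt (Sum.inr c) (Sum.inl a))

lemma FLe.arr {V W : Type} {r : V → V → Prop} {s : W → W → Prop} {k : ℕ}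
    (h : FLe (dj r s) k) : ∃ (U : Type) (_ : AddCommGroup U) (_ : Module (ZMod 2) U)
      (_ : FiniteDimensional (ZMod 2) U) (B : U →ₗ[ZMod 2] U →ₗ[ZMod 2] ZMod 2) (v : V → U)
      (w : W → U) (lt : V ⊕ W → V ⊕ W → Prop), Arr r s B v w lt ∧ finrank (ZMod 2) U ≤ k := by
  obtain ⟨U, _, _, _, B, x, hB, hk, hx⟩ := h
  obtain ⟨lt, h1, h2, h3, h4⟩ := exists_lin hx
  refine ⟨U, inferInstance, inferInstance, inferInstance, B, fun a => x (Sum.inl a),
    fun a => x (Sum.inr a), lt, ⟨hB, ⟨h2, h3, h4⟩, ?_, ?_, ?_⟩, hk⟩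
  · intro a b hab
    exact ⟨fun h => h1 _ _ (Or.inl ⟨hab, h⟩), fun h => h1 _ _ (Or.inr ⟨hab, (hB _ _).trans h⟩)⟩
  · intro a b hab
    exact ⟨fun h => h1 _ _ (Or.inl ⟨hab, h⟩), fun h => h1 _ _ (Or.inr ⟨hab, (hB _ _).trans h⟩)⟩
  · intro a c
    exact ⟨fun h => h1 _ _ (Or.inl ⟨trivial, h⟩),
      fun h => h1 _ _ (Or.inr ⟨trivial, (hB _ _).trans h⟩)⟩

section

variable {V W U : Type} [AddCommGroup U] [Module (ZMod 2) U] {r : V → V → Prop}
  {s : W → W → Prop} {B : U →ₗ[ZMod 2] U →ₗ[ZMod 2] ZMod 2} {v : V → U} {w : W → U}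
  {lt : V ⊕ W → V ⊕ W → Prop}

lemma Arr.asym (A : Arr r s B v w lt) {a b : V ⊕ W} (h1 : lt a b) (h2 : lt b a) : False :=
  A.lin.irr _ (A.lin.tr _ _ _ h1 h2)

lemma Arr.vw1 (A : Arr r s B v w lt) (a : V) (c : W) :
    B (v a) (w c) = 1 ↔ lt (Sum.inr c) (Sum.inl a) := by
  refine ⟨(A.vw a c).2, fun h => (zc _).resolve_left fun h0 => A.asym h ((A.vw a c).1 h0)⟩

open Classical in
/-- The number of vertices of the sequence below a vertex of the first graph. -/
noncomputable def gap (lt : V ⊕ W → V ⊕ W → Prop) {m : ℕ} (T : Fin m → W) (a : V) :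
    Fin (m + 1) :=
  ⟨(univ.filter fun i => lt (Sum.inr (T i)) (Sum.inl a)).card, by
    have := Finset.card_filter_le (univ : Finset (Fin m))
      (fun i => lt (Sum.inr (T i)) (Sum.inl a))
    rw [Finset.card_univ, Fintype.card_fin] at this
    omega⟩

/-- An increasing sequence of vertices of the second graph. -/
def Srt (lt : V ⊕ W → V ⊕ W → Prop) {m : ℕ} (T : Fin m → W) : Prop :=
  ∀ i j, i < j → lt (Sum.inr (T i)) (Sum.inr (T j))

open Classical in
lemma gap_spec (A : Arr r s B v w lt) {m : ℕ} {T : Fin m → W} (hT : Srt lt T) (a : V)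
    (i : Fin m) : lt (Sum.inr (T i)) (Sum.inl a) ↔ i.val < (gap lt T a).val := by
  refine lower_card (fun i => lt (Sum.inr (T i)) (Sum.inl a)) ?_ i
  intro i j hij hj
  rcases hij.lt_or_eq with h | h
  · exact A.lin.tr _ _ _ (hT i j h) hj
  · rw [h]; exact hj

open Classical in
lemma gap_mono (A : Arr r s B v w lt) {m : ℕ} (T : Fin m → W) (a b : V)
    (h : lt (Sum.inl a) (Sum.inl b)) : gap lt T a ≤ gap lt T b := by
  show (univ.filter fun i => lt (Sum.inr (T i)) (Sum.inl a)).card ≤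
    (univ.filter fun i => lt (Sum.inr (T i)) (Sum.inl b)).card
  refine Finset.card_le_card fun i hi => ?_
  rw [Finset.mem_filter] at hi ⊢
  exact ⟨mem_univ _, A.lin.tr _ _ _ hi.2 h⟩

lemma gap_val (A : Arr r s B v w lt) {m : ℕ} {T : Fin m → W} (hT : Srt lt T) (a : V)
    (i : Fin m) : B (w (T i)) (v a) = if i.val < (gap lt T a).val then 1 else 0 := by
  rw [A.symm]
  split_ifs with h
  · exact (A.vw1 a _).2 ((gap_spec A hT a i).2 h)
  · exact (zc _).resolve_right fun h1 => h ((gap_spec A hT a i).1 ((A.vw1 a _).1 h1))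

/-- Two functionals which agree on generators. -/
lemma span_eq {T : Set U} {a b : U} (h : ∀ t ∈ T, B t a = B t b) :
    ∀ t ∈ Submodule.span (ZMod 2) T, B t a = B t b := by
  intro t ht
  induction ht using Submodule.span_induction with
  | mem x hx => exact h x hx
  | zero => simp
  | add x y _ _ hx hy => rw [map_add, LinearMap.add_apply, LinearMap.add_apply, hx, hy]
  | smul c x _ hx => rw [map_smul, LinearMap.smul_apply, LinearMap.smul_apply, hx]

/-- **The flips.** -/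
lemma exists_F [FiniteDimensional (ZMod 2) U] (A : Arr r s B v w lt) {m m' : ℕ} {T : Fin m → W}
    (hT : Srt lt T) (hS : ND B (Submodule.span (ZMod 2) (Set.range fun i => w (T i))) m') :
    ∃ (σ : Fin (m + 1) → U) (y : V → U), (∀ j, B (σ 0) (σ j) = 0) ∧
      (∀ a, y a ∈ orth B (Submodule.span (ZMod 2) (Set.range fun i => w (T i)))) ∧
      (∀ a b, B (y a) (y b) = B (v a) (v b) + B (σ (gap lt T a)) (σ (gap lt T b))) ∧
      (∀ i, (∃ a, gap lt T a = i) →
        σ i ∈ Submodule.span (ZMod 2) (Set.range fun i => w (T i)) ∧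
        ∀ j : Fin m, B (w (T j)) (σ i) = if j.val < i.val then 1 else 0) ∧
      (∀ a, ∀ z ∈ orth B (Submodule.span (ZMod 2) (Set.range fun i => w (T i))),
        B (y a) z = B (v a) z) := by
  classical
  obtain ⟨p, hp1, hp2, hp3, hp4⟩ := nd_proj A.symm hS
  have hgen : ∀ j : Fin m, w (T j) ∈
      Submodule.span (ZMod 2) (Set.range fun i => w (T i)) :=
    fun j => Submodule.subset_span ⟨j, rfl⟩
  have hpv : ∀ a (j : Fin m), B (w (T j)) (p (v a)) = if j.val < (gap lt T a).val then 1 else 0 :=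
    fun a j => by rw [← hp2 _ _ (hgen j), gap_val A hT]
  let σ : Fin (m + 1) → U := fun i => if h : ∃ a, gap lt T a = i then p (v h.choose) else 0
  have hσ : ∀ a, ∀ t ∈ Submodule.span (ZMod 2) (Set.range fun i => w (T i)),
      B t (p (v a)) = B t (σ (gap lt T a)) := by
    intro a
    refine span_eq ?_
    rintro _ ⟨j, rfl⟩
    have hex : ∃ b, gap lt T b = gap lt T a := ⟨a, rfl⟩
    simp only [σ, dif_pos hex]
    rw [hpv, hpv, hex.choose_spec]
  have hσm : ∀ i, σ i ∈ Submodule.span (ZMod 2) (Set.range fun i => w (T i)) := by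
    intro i
    by_cases h : ∃ a, gap lt T a = i
    · simp only [σ, dif_pos h]; exact hp1 _
    · simp only [σ, dif_neg h]; exact Submodule.zero_mem _
  refine ⟨σ, fun a => v a + p (v a), ?_, fun a => hp3 _, ?_, ?_, ?_⟩
  · intro j
    by_cases h : ∃ a, gap lt T a = 0
    · have h1 : ∀ t ∈ Submodule.span (ZMod 2) (Set.range fun i => w (T i)),
          B t (σ 0) = B t 0 := by
        refine span_eq ?_
        rintro _ ⟨i, rfl⟩
        simp only [σ, dif_pos h]
        rw [hpv, h.choose_spec]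
        simp
      rw [A.symm, h1 _ (hσm j), map_zero]
    · have h1 : σ 0 = 0 := by simp only [σ, dif_neg h]
      rw [h1]; simp
  · intro a b
    rw [hp4, hσ b _ (hp1 _), A.symm (p (v a)), hσ a _ (hσm _), A.symm (σ (gap lt T b))]
  · intro i hi
    refine ⟨hσm i, fun j => ?_⟩
    simp only [σ, dif_pos hi]
    rw [hpv, hi.choose_spec]
  · intro a z hz
    rw [map_add, LinearMap.add_apply, hz _ (hp1 _), add_zero]

/-- The new arrangement of the first graph. -/
lemma new_arr (A : Arr r s B v w lt) {n k : ℕ} (g : V → Fin n)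
    (hg : ∀ a b, lt (Sum.inl a) (Sum.inl b) → g a ≤ g b) (P : Fin n → Fin n → ZMod 2)
    (hP : ∀ i j, P i j = P j i)
    (hT : ∀ i j k, i < j → j < k → (∃ a, g a = i) → (∃ a, g a = j) → (∃ a, g a = k) →
      ¬ (P i j = P j k ∧ P i k = P i j + 1))
    {U' : Type} [AddCommGroup U'] [Module (ZMod 2) U'] [FiniteDimensional (ZMod 2) U']
    (B' : U' →ₗ[ZMod 2] U' →ₗ[ZMod 2] ZMod 2) (hB' : ∀ a b, B' a b = B' b a) (x : V → U')
    (hx : ∀ a b, B' (x a) (x b) = B (v a) (v b) + P (g a) (g b))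
    (hk : finrank (ZMod 2) U' ≤ k) : FLe r k := by
  refine ⟨U', inferInstance, inferInstance, inferInstance, B', x, hB', hk, ?_⟩
  have hl : Lin fun a b : V => lt (Sum.inl a) (Sum.inl b) :=
    ⟨fun a => A.lin.irr _, fun a b c => A.lin.tr _ _ _,
      fun a b h => A.lin.tot _ _ fun h' => h (Sum.inl_injective h')⟩
  refine acy_new hl (fun a b => P (g a) (g b)) (fun a b => hP _ _) (cls_cond g hg P hT) ?_
  have e : ∀ p q : ZMod 2, (p + q = 0 → q = 0 → p = 0) ∧ (p + q = 0 → q = 1 → p = 1) ∧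
      (p + q = 1 → q = 0 → p = 1) ∧ (p + q = 1 → q = 1 → p = 0) := by decide
  intro a b hab
  rcases hab with ⟨h1, h2⟩ | ⟨h1, h2⟩ <;> simp only [hx] at h2 <;>
    rcases zc (P (g a) (g b)) with h3 | h3
  · exact Or.inl ⟨(A.vv a b h1).1 ((e _ _).1 h2 h3), h3⟩
  · exact Or.inr ⟨(A.vv a b h1).2 ((e _ _).2.1 h2 h3), h3⟩
  · exact Or.inl ⟨(A.vv b a h1).2 (by rw [A.symm]; exact (e _ _).2.2.1 h2 h3), h3⟩
  · exact Or.inr ⟨(A.vv b a h1).1 (by rw [A.symm]; exact (e _ _).2.2.2 h2 h3), h3⟩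

end

lemma fix4 : ∀ a b c d e g : ZMod 2, ∃ p q r t : ZMod 2,
    ¬ (a + p * q = d + q * r ∧ b + p * r = a + p * q + 1) ∧
    ¬ (a + p * q = e + q * t ∧ c + p * t = a + p * q + 1) ∧
    ¬ (b + p * r = g + r * t ∧ c + p * t = b + p * r + 1) ∧
    ¬ (d + q * r = g + r * t ∧ e + q * t = d + q * r + 1) := by decide

lemma fixz1 : ∀ a b c d : ZMod 2, ∃ p q r t u : ZMod 2,
    ¬ (a + p = b + (q + r + u) ∧ b + p = a + p + 1) ∧
    ¬ (a + p = c + (q + t + u) ∧ c + p = a + p + 1) ∧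
    ¬ (b + p = d + (r + t + u) ∧ c + p = b + p + 1) ∧
    ¬ (b + (q + r + u) = d + (r + t + u) ∧ c + (q + t + u) = b + (q + r + u) + 1) := by decide

lemma fixz2 : ∀ a b c d : ZMod 2, ∃ p q r t u : ZMod 2,
    ¬ (a = c + q ∧ a + p = a + 1) ∧
    ¬ (a = d + q ∧ b + p = a + 1) ∧
    ¬ (a + p = d + (r + t + u) ∧ b + p = a + p + 1) ∧
    ¬ (c + q = d + (r + t + u) ∧ d + q = c + q + 1) := by decide

lemma tri5 : ∀ i j k : Fin 5, i < j → j < k → i = 0 ∨ (i = 1 ∧ j = 2 ∧ k = 3) ∨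
    (i = 1 ∧ j = 2 ∧ k = 4) ∨ (i = 1 ∧ j = 3 ∧ k = 4) ∨ (i = 2 ∧ j = 3 ∧ k = 4) := by decide

lemma tri4 : ∀ i j k : Fin 4, i < j → j < k → i = 0 ∨ (i = 1 ∧ j = 2 ∧ k = 3) := by decide

end Pool.Agent.H2.Dij2
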