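import Pool.Agent.H2.Dij.Gain

/-!
Three dimensions less: the three types of configurations in the second graph.
-/

set_option autoImplicit false

namespace Pool.Agent.H2.Dij2

open Finset Matrix Module

/-- One more dimension. -/
def addOne {U : Type} [AddCommGroup U] [Module (ZMod 2) U]
    (B : U →ₗ[ZMod 2] U →ₗ[ZMod 2] ZMod 2) (S : Submodule (ZMod 2) U) :
    (S × ZMod 2) →ₗ[ZMod 2] (S × ZMod 2) →ₗ[ZMod 2] ZMod 2 :=
  LinearMap.mk₂ (ZMod 2) (fun a b => B a.1 b.1 + a.2 * b.2)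
    (fun a b c => by
      simp only [Prod.fst_add, Prod.snd_add, Submodule.coe_add, map_add, LinearMap.add_apply]
      ring)
    (fun c a b => by
      simp only [Prod.smul_fst, Prod.smul_snd, Submodule.coe_smul, map_smul,
        LinearMap.smul_apply, smul_eq_mul]
      ring)
    (fun a b c => by
      simp only [Prod.fst_add, Prod.snd_add, Submodule.coe_add, map_add]
      ring)
    (fun c a b => by
      simp only [Prod.smul_fst, Prod.smul_snd, Submodule.coe_smul, map_smul, smul_eq_mul]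
      ring)

/-- The form plus a multiple of the square of a functional. -/
def addSq {U : Type} [AddCommGroup U] [Module (ZMod 2) U]
    (B : U →ₗ[ZMod 2] U →ₗ[ZMod 2] ZMod 2) (S : Submodule (ZMod 2) U) (ρ : U) (ζ : ZMod 2) :
    S →ₗ[ZMod 2] S →ₗ[ZMod 2] ZMod 2 :=
  LinearMap.mk₂ (ZMod 2) (fun a b => B a b + ζ * (B a ρ * B b ρ))
    (fun a b c => by
      simp only [Submodule.coe_add, map_add, LinearMap.add_apply]
      ring)
    (fun c a b => by
      simp only [Submodule.coe_smul, map_smul, LinearMap.smul_apply, smul_eq_mul]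
      ring)
    (fun a b c => by
      simp only [Submodule.coe_add, map_add, LinearMap.add_apply]
      ring)
    (fun c a b => by
      simp only [Submodule.coe_smul, map_smul, LinearMap.smul_apply, smul_eq_mul]
      ring)

section

variable {V W U : Type} [AddCommGroup U] [Module (ZMod 2) U] [FiniteDimensional (ZMod 2) U]
  {r : V → V → Prop}
  {s : W → W → Prop} {B : U →ₗ[ZMod 2] U →ₗ[ZMod 2] ZMod 2} {v : V → U} {w : W → U}
  {lt : V ⊕ W → V ⊕ W → Prop}

/-- Four vertices. -/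
lemma gain4 (A : Arr r s B v w lt) {k : ℕ} (hk : finrank (ZMod 2) U ≤ k + 3) {T : Fin 4 → W}
    (hT : Srt lt T) (hS : ND B (Submodule.span (ZMod 2) (Set.range fun i => w (T i))) 4) :
    FLe r k := by
  obtain ⟨σ, y, h0, hy, hyy, -, -⟩ := exists_F A hT hS
  obtain ⟨p, q, c, t, h1, h2, h3, h4⟩ := fix4 (B (σ 1) (σ 2)) (B (σ 1) (σ 3)) (B (σ 1) (σ 4))
    (B (σ 2) (σ 3)) (B (σ 2) (σ 4)) (B (σ 3) (σ 4))
  let f : Fin 5 → ZMod 2 := ![0, p, q, c, t]
  refine new_arr A (gap lt T) (gap_mono A T) (fun i j => B (σ i) (σ j) + f i * f j)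
    (fun i j => by simp only [A.symm (σ i)]; ring) ?_
    (addOne B (orth B (Submodule.span (ZMod 2) (Set.range fun i => w (T i)))))
    (fun a b => ?_) (fun a => (⟨y a, hy a⟩, f (gap lt T a))) (fun a b => ?_) ?_
  · rintro i j k hij hjk - - -
    rcases tri5 i j k hij hjk with rfl | ⟨rfl, rfl, rfl⟩ | ⟨rfl, rfl, rfl⟩ | ⟨rfl, rfl, rfl⟩ |
      ⟨rfl, rfl, rfl⟩
    · rintro ⟨-, g⟩
      simp only [h0, f, Matrix.cons_val_zero, zero_mul, add_zero, zero_add] at g
      exact absurd g (by decide)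
    · exact h1
    · exact h2
    · exact h3
    · exact h4
  · show B a.1 b.1 + a.2 * b.2 = B b.1 a.1 + b.2 * a.2
    rw [A.symm]; ring
  · show B (y a) (y b) + f (gap lt T a) * f (gap lt T b) = _
    rw [hyy]; ring
  · rw [finrank_prod, finrank_self]
    have := hS.2
    omega

set_option synthInstance.maxSize 100000 in
set_option maxRecDepth 100000 in
lemma cyc_dual' : ∀ g00 g01 g11 c0 c1 d0 d1 d2 : ZMod 2,
    d0 * g00 + d1 * g01 + d2 * (1 + c0 * g00 + c1 * g01) = 1 →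
    d0 * g01 + d1 * g11 + d2 * (c0 * g01 + c1 * g11) = 1 →
    d0 * (1 + c0 * g00 + c1 * g01) + d1 * (c0 * g01 + c1 * g11) +
      d2 * (c0 * (1 + c0 * g00 + c1 * g01) + c1 * (c0 * g01 + c1 * g11)) = 0 →
    c0 + c1 = d0 + d1 + d2 → ∀ e0 e1 e2 : ZMod 2,
    e0 * g00 + e1 * g01 + e2 * (1 + c0 * g00 + c1 * g01) = 1 →
    e0 * g01 + e1 * g11 + e2 * (c0 * g01 + c1 * g11) = 1 →
    e0 * (1 + c0 * g00 + c1 * g01) + e1 * (c0 * g01 + c1 * g11) +
      e2 * (c0 * (1 + c0 * g00 + c1 * g01) + c1 * (c0 * g01 + c1 * g11)) = 1 →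
    g01 = c0 * g01 + c1 * g11 ∧ 1 + c0 * g00 + c1 * g01 = g01 + 1 := by
  decide

lemma cyc_dual (g00 g01 g02 g11 g12 g22 c0 c1 d0 d1 d2 e0 e1 e2 : ZMod 2)
    (h1 : c0 * g00 + c1 * g01 + g02 = 1) (h2 : c0 * g01 + c1 * g11 + g12 = 0)
    (h3 : c0 * g02 + c1 * g12 + g22 = 0)
    (h4 : d0 * g00 + d1 * g01 + d2 * g02 = 1) (h5 : d0 * g01 + d1 * g11 + d2 * g12 = 1)
    (h6 : d0 * g02 + d1 * g12 + d2 * g22 = 0)
    (k4 : e0 * g00 + e1 * g01 + e2 * g02 = 1) (k5 : e0 * g01 + e1 * g11 + e2 * g12 = 1)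
    (k6 : e0 * g02 + e1 * g12 + e2 * g22 = 1) (h7 : c0 + c1 = d0 + d1 + d2) :
    g01 = g12 ∧ g02 = g01 + 1 := by
  have e1' : ∀ a b c : ZMod 2, a + b + c = 1 → c = 1 + a + b := by decide
  have e2' : ∀ a b c : ZMod 2, a + b + c = 0 → c = a + b := by decide
  have i1 := e1' _ _ _ h1
  have i2 := e2' _ _ _ h2
  have i3 := e2' _ _ _ h3
  subst i3
  subst i1
  subst i2
  exact cyc_dual' g00 g01 g11 c0 c1 d0 d1 d2 h4 h5 h6 h7 e0 e1 e2 k4 k5 k6

/-- Three vertices which form no cyclic triangle in the second graph. -/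
lemma gain3 (A : Arr r s B v w lt) {k : ℕ} (hk : finrank (ZMod 2) U ≤ k + 3) {T : Fin 3 → W}
    (hT : Srt lt T) (hS : ND B (Submodule.span (ZMod 2) (Set.range fun i => w (T i))) 3)
    (hgood : (∃ a, gap lt T a = 3) → ¬ (B (w (T 0)) (w (T 1)) = B (w (T 1)) (w (T 2)) ∧
      B (w (T 0)) (w (T 2)) = B (w (T 0)) (w (T 1)) + 1)) : FLe r k := by
  obtain ⟨σ, y, h0, hy, hyy, hσ, -⟩ := exists_F A hT hS
  refine new_arr A (gap lt T) (gap_mono A T) (fun i j => B (σ i) (σ j))
    (fun i j => A.symm _ _) ?_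
    (B.domRestrict₁₂ (orth B (Submodule.span (ZMod 2) (Set.range fun i => w (T i)))) _)
    (fun a b => A.symm _ _) (fun a => ⟨y a, hy a⟩) (fun a b => hyy a b) ?_
  · intro i j k hij hjk hi hj hk
    rcases tri4 i j k hij hjk with rfl | ⟨rfl, rfl, rfl⟩
    · rintro ⟨-, g⟩
      simp only [h0, zero_add] at g
      exact absurd g (by decide)
    · rintro ⟨g1, g2⟩
      refine hgood hk ?_
      obtain ⟨m1, i1⟩ := hσ 1 hi
      obtain ⟨m2, i2⟩ := hσ 2 hj
      obtain ⟨m3, i3⟩ := hσ 3 hk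
      obtain ⟨c, hc⟩ := (Submodule.mem_span_range_iff_exists_fun (ZMod 2)).1 m1
      obtain ⟨d, hd⟩ := (Submodule.mem_span_range_iff_exists_fun (ZMod 2)).1 m2
      rw [Fin.sum_univ_three] at hc hd
      have e1 : ∀ z, B (σ 1) z = c 0 * B (w (T 0)) z + c 1 * B (w (T 1)) z +
          c 2 * B (w (T 2)) z := fun z => by
        rw [← hc]
        simp only [map_add, LinearMap.add_apply, map_smul, LinearMap.smul_apply, smul_eq_mul]
      obtain ⟨l, hl⟩ := (Submodule.mem_span_range_iff_exists_fun (ZMod 2)).1 m3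
      rw [Fin.sum_univ_three] at hl
      have e3 : ∀ z, B (σ 3) z = l 0 * B (w (T 0)) z + l 1 * B (w (T 1)) z +
          l 2 * B (w (T 2)) z := fun z => by
        rw [← hl]
        simp only [map_add, LinearMap.add_apply, map_smul, LinearMap.smul_apply, smul_eq_mul]
      have e2 : ∀ z, B (σ 2) z = d 0 * B (w (T 0)) z + d 1 * B (w (T 1)) z +
          d 2 * B (w (T 2)) z := fun z => by
        rw [← hd]
        simp only [map_add, LinearMap.add_apply, map_smul, LinearMap.smul_apply, smul_eq_mul]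
      have f12 : B (σ 1) (σ 2) = c 0 + c 1 := by
        rw [e1, i2, i2, i2]; simp
      have f13 : B (σ 1) (σ 3) = c 0 + c 1 + c 2 := by
        rw [e1, i3, i3, i3]; simp
      have f23 : B (σ 2) (σ 3) = d 0 + d 1 + d 2 := by
        rw [e2, i3, i3, i3]; simp
      have hc2 : c 2 = 1 := by
        have : c 0 + c 1 + c 2 = c 0 + c 1 + 1 := by rw [← f13, ← f12]; exact g2
        exact add_left_cancel this
      have u0 := i1 0
      have u1 := i1 1
      have u2 := i1 2
      have v0 := i2 0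
      have v1 := i2 1
      have v2 := i2 2
      have w0 := i3 0
      have w1 := i3 1
      have w2 := i3 2
      rw [A.symm, e1] at u0 u1 u2
      rw [A.symm, e2] at v0 v1 v2
      rw [A.symm, e3] at w0 w1 w2
      rw [hc2, one_mul] at u0 u1 u2
      rw [A.symm (w (T 1)) (w (T 0)), A.symm (w (T 2)) (w (T 0))] at u0 v0 w0
      rw [A.symm (w (T 2)) (w (T 1))] at u1 v1 w1
      rw [f12, f23] at g1
      refine cyc_dual (B (w (T 0)) (w (T 0))) _ _ (B (w (T 1)) (w (T 1))) _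
        (B (w (T 2)) (w (T 2))) (c 0) (c 1) (d 0) (d 1) (d 2) (l 0) (l 1) (l 2)
        ?_ ?_ ?_ ?_ ?_ ?_ ?_ ?_ ?_ g1
      · simpa using u0
      · simpa using u1
      · simpa using u2
      · simpa using v0
      · simpa using v1
      · simpa using v2
      · simpa using w0
      · simpa using w1
      · simpa using w2
  · have := hS.2
    omega

/-- Three vertices and a vertex which is orthogonal to them. -/
lemma gainz (A : Arr r s B v w lt) {k : ℕ} (hk : finrank (ZMod 2) U ≤ k + 3) {T : Fin 3 → W}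
    (hT : Srt lt T) (hS : ND B (Submodule.span (ZMod 2) (Set.range fun i => w (T i))) 3)
    (z : W) (hz : w z ∈ orth B (Submodule.span (ZMod 2) (Set.range fun i => w (T i))))
    (hzz : B (w z) (w z) = 0) (g : V → Fin 5)
    (hg : ∀ a b, lt (Sum.inl a) (Sum.inl b) → g a ≤ g b) (τ : Fin 5 → Fin 4)
    (hτ : ∀ a, gap lt T a = τ (g a)) (q : Fin 5 → ZMod 2) (hq : ∀ a, B (v a) (w z) = q (g a))
    (hex : ∀ F : Fin 4 → Fin 4 → ZMod 2, (∀ i j, F i j = F j i) → (∀ j, F 0 j = 0) →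
      ∃ (m : Fin 5 → ZMod 2) (ζ : ZMod 2), ∀ i j k, i < j → j < k →
      ¬ (F (τ i) (τ j) + (m i * q j + q i * m j + ζ * (q i * q j)) =
        F (τ j) (τ k) + (m j * q k + q j * m k + ζ * (q j * q k)) ∧
        F (τ i) (τ k) + (m i * q k + q i * m k + ζ * (q i * q k)) =
        F (τ i) (τ j) + (m i * q j + q i * m j + ζ * (q i * q j)) + 1)) : FLe r k := by
  obtain ⟨σ, y, h0, hy, hyy, -, hyz⟩ := exists_F A hT hS
  obtain ⟨m, ζ, hm⟩ := hex (fun i j => B (σ i) (σ j)) (fun i j => A.symm _ _) h0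
  refine new_arr A g hg
    (fun i j => B (σ (τ i)) (σ (τ j)) + (m i * q j + q i * m j + ζ * (q i * q j)))
    (fun i j => by simp only [A.symm (σ (τ i))]; ring) (fun i j k hij hjk _ _ _ => hm i j k hij hjk)
    (addSq B (orth B (Submodule.span (ZMod 2) (Set.range fun i => w (T i)))) (w z) ζ)
    (fun a b => ?_) (fun a => ⟨y a, hy a⟩ + m (g a) • ⟨w z, hz⟩) (fun a b => ?_) ?_
  · show B a b + ζ * (B a (w z) * B b (w z)) = B b a + ζ * (B b (w z) * B a (w z))
    rw [A.symm]; ring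
  · show B (y a + m (g a) • w z) (y b + m (g b) • w z) +
      ζ * (B (y a + m (g a) • w z) (w z) * B (y b + m (g b) • w z) (w z)) = _
    simp only [map_add, LinearMap.add_apply, map_smul, LinearMap.smul_apply, smul_eq_mul]
    rw [A.symm (w z) (y b), hyz a _ hz, hyz b _ hz, hzz, hq, hq, hyy, hτ, hτ]
    ring
  · have := hS.2
    omega

end

end Pool.Agent.H2.Dij2
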