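import Pool.Agent.H2.Dij.Vec

/-!
Lower bounds for dijoins: a graph which is not acyclic costs one more dimension, a graph of
inversion number at least two costs two more dimensions.
-/

set_option autoImplicit false

namespace Pool.Agent.H2.Dij2

open Finset Matrix

/-- `r` can be made acyclic by a symmetric form of rank at most `k`. -/
def RLe {V : Type} (r : V → V → Prop) (k : ℕ) : Prop := VLe r k ∨ VEv r (k + 1)

lemma RLe.hom {V W : Type} {r : V → V → Prop} {s : W → W → Prop} (g : V → W)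
    (hg : ∀ a b, r a b → s (g a) (g b)) {k : ℕ} (h : RLe s k) : RLe r k :=
  h.imp (VLe.hom g hg) (VEv.hom g hg)

lemma RLe.mono {V : Type} {r : V → V → Prop} {k l : ℕ} (h : RLe r k) (hkl : k ≤ l) :
    RLe r l :=
  h.imp (fun h => h.mono hkl) (fun h => h.mono (Nat.succ_le_succ hkl))

/-- Acyclicity by classes: between classes the arcs go up, in a class they are arcs of `R`, or,
in some classes, of the opposite of `R`. -/
lemma acy_cls {V : Type} {R R' : V → V → Prop} (hR : Acy R) (h : V → ℕ) (rev : V → Prop)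
    (hrev : ∀ a b, h a = h b → (rev a ↔ rev b))
    (hh : ∀ a b, R' a b → h a < h b ∨ (h a = h b ∧ ((¬ rev a ∧ R a b) ∨ (rev a ∧ R b a)))) :
    Acy R' := by
  have key : ∀ a b, Relation.TransGen R' a b → h a < h b ∨ (h a = h b ∧
      ((¬ rev a ∧ Relation.TransGen R a b) ∨ (rev a ∧ Relation.TransGen R b a))) := by
    intro a b hab
    induction hab with
    | single h1 =>
      rcases hh _ _ h1 with g | ⟨g, ⟨g1, g2⟩ | ⟨g1, g2⟩⟩
      · exact Or.inl g
      · exact Or.inr ⟨g, Or.inl ⟨g1, Relation.TransGen.single g2⟩⟩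
      · exact Or.inr ⟨g, Or.inr ⟨g1, Relation.TransGen.single g2⟩⟩
    | @tail b c _ h1 ih =>
      rcases ih with i | ⟨i, i'⟩
      · rcases hh _ _ h1 with g | ⟨g, -⟩
        · exact Or.inl (lt_trans i g)
        · exact Or.inl (by omega)
      · rcases hh _ _ h1 with g | ⟨g, g'⟩
        · exact Or.inl (by omega)
        · refine Or.inr ⟨by omega, ?_⟩
          rcases i' with ⟨i1, i2⟩ | ⟨i1, i2⟩ <;> rcases g' with ⟨g1, g2⟩ | ⟨g1, g2⟩
          · exact Or.inl ⟨i1, i2.tail g2⟩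
          · exact absurd ((hrev _ _ i).2 g1) i1
          · exact absurd ((hrev _ _ i).1 i1) g1
          · exact Or.inr ⟨i1, (Relation.TransGen.single g2).trans i2⟩
  intro v hv
  rcases key v v hv with g | ⟨-, ⟨-, g⟩ | ⟨-, g⟩⟩
  · exact lt_irrefl _ g
  · exact hR v g
  · exact hR v g

section

variable {V W : Type} {r : V → V → Prop} {s : W → W → Prop} {k : ℕ}
  {x : V ⊕ W → Fin k → ZMod 2}

lemma to_w (u : V) (c : W) (h : x (Sum.inl u) ⬝ᵥ x (Sum.inr c) = 0) :
    Arc (dj r s) x (Sum.inl u) (Sum.inr c) :=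
  Or.inl ⟨trivial, h⟩

lemma of_w (u : V) (c : W) (h : x (Sum.inl u) ⬝ᵥ x (Sum.inr c) = 1) :
    Arc (dj r s) x (Sum.inr c) (Sum.inl u) :=
  Or.inr ⟨trivial, by rw [dotProduct_comm]; exact h⟩

/-- A vertex of the second graph of norm one: project to its complement. -/
lemma norm_one (hx : Acy (Arc (dj r s) x)) (c : W)
    (h1 : x (Sum.inr c) ⬝ᵥ x (Sum.inr c) = 1) :
    ∃ y : V → Fin k → ZMod 2, Acy (Arc r y) ∧ ∀ u, y u ⬝ᵥ x (Sum.inr c) = 0 := by
  set w := x (Sum.inr c) with hw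
  let g : V → ZMod 2 := fun u => x (Sum.inl u) ⬝ᵥ w
  let y : V → Fin k → ZMod 2 := fun u => x (Sum.inl u) + g u • w
  have hy : ∀ a b, y a ⬝ᵥ y b = x (Sum.inl a) ⬝ᵥ x (Sum.inl b) + g a * g b := by
    intro a b
    simp only [y, add_dotProduct, dotProduct_add, smul_dotProduct, dotProduct_smul, smul_eq_mul,
      h1]
    rw [dotProduct_comm w]
    show _ + g a * g b + g b * (g a + g a * 1) = _
    generalize g a = p
    generalize g b = q
    generalize x (Sum.inl a) ⬝ᵥ x (Sum.inl b) = t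
    revert p q t; decide
  refine ⟨y, ?_, ?_⟩
  · refine acy_cls (R := fun a b => Arc (dj r s) x (Sum.inl a) (Sum.inl b))
      (acy_map Sum.inl (fun _ _ h => h) hx) (fun u => (g u).val) (fun u => (g u).val = 1)
      (fun a b h => by simp only [h]) ?_
    intro a b hab
    have hab' : (r a b ∧ x (Sum.inl a) ⬝ᵥ x (Sum.inl b) + g a * g b = 0) ∨
        (r b a ∧ x (Sum.inl a) ⬝ᵥ x (Sum.inl b) + g a * g b = 1) := by
      rcases hab with ⟨h, h'⟩ | ⟨h, h'⟩
      · exact Or.inl ⟨h, by rw [← hy]; exact h'⟩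
      · exact Or.inr ⟨h, by rw [← hy]; exact h'⟩
    have same : g a * g b = 0 → Arc (dj r s) x (Sum.inl a) (Sum.inl b) := by
      intro h0
      rw [h0, add_zero] at hab'
      rcases hab' with ⟨h, h'⟩ | ⟨h, h'⟩
      · exact Or.inl ⟨h, h'⟩
      · exact Or.inr ⟨h, h'⟩
    rcases zc (g a) with ga | ga <;> rcases zc (g b) with gb | gb
    · right
      refine ⟨by show (g a).val = (g b).val; rw [ga, gb], Or.inl ⟨?_, same (by rw [ga]; simp)⟩⟩
      show ¬ (g a).val = 1
      rw [ga]; decide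
    · left
      show (g a).val < (g b).val
      rw [ga, gb]; decide
    · exfalso
      exact no_tri hx (of_w a c ga) (same (by rw [gb]; simp)) (to_w b c gb)
    · right
      refine ⟨by show (g a).val = (g b).val; rw [ga, gb], Or.inr ⟨by
        show (g a).val = 1
        rw [ga]; decide, ?_⟩⟩
      rw [ga, gb] at hab'
      have e : ∀ t : ZMod 2, (t + 1 * 1 = 0 → t = 1) ∧ (t + 1 * 1 = 1 → t = 0) := by decide
      rcases hab' with ⟨h, h'⟩ | ⟨h, h'⟩
      · exact Or.inr ⟨h, by rw [dotProduct_comm]; exact (e _).1 h'⟩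
      · exact Or.inl ⟨h, by rw [dotProduct_comm]; exact (e _).2 h'⟩
  · intro u
    simp only [y, add_dotProduct, smul_dotProduct, smul_eq_mul, h1]
    show g u + g u * 1 = 0
    generalize g u = p
    revert p; decide

/-- The sets of vertices of the first graph before two vertices of the second are nested. -/
lemma nested (hx : Acy (Arc (dj r s) x)) (a c : W) :
    (∀ u : V, x (Sum.inl u) ⬝ᵥ x (Sum.inr a) = 0 → x (Sum.inl u) ⬝ᵥ x (Sum.inr c) = 0) ∨
      (∀ u : V, x (Sum.inl u) ⬝ᵥ x (Sum.inr c) = 0 → x (Sum.inl u) ⬝ᵥ x (Sum.inr a) = 0) := by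
  by_contra hc
  push Not at hc
  obtain ⟨⟨u, h1, h2⟩, ⟨v, h3, h4⟩⟩ := hc
  have h2' := (zc _).resolve_left h2
  have h4' := (zc _).resolve_left h4
  have r1 : Arc (dj r s) x (Sum.inl u) (Sum.inr a) := to_w u a h1
  have r2 : Arc (dj r s) x (Sum.inr a) (Sum.inl v) := of_w v a h4'
  have r3 : Arc (dj r s) x (Sum.inl v) (Sum.inr c) := to_w v c h3
  have r4 : Arc (dj r s) x (Sum.inr c) (Sum.inl u) := of_w u c h2'
  exact hx _ ((((Relation.TransGen.single r1).tail r2).tail r3).tail r4)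

lemma ort1 : ∀ α β γ p q : ZMod 2, α * β + γ = 1 →
    p + ((β * p + γ * q) * α + (γ * p + α * q) * γ) = 0 := by decide

lemma ort2 : ∀ α β γ p q : ZMod 2, α * β + γ = 1 →
    q + ((β * p + γ * q) * γ + (γ * p + α * q) * β) = 0 := by decide

lemma ort3 : ∀ γ t p q : ZMod 2,
    t + (0 * (p * p) + γ * (p * q + q * p) + 0 * (q * q)) = t := by decide

lemma flip1 : ∀ α β γ : ZMod 2, β + γ = 1 →
    β * (1 * 1) + γ * (1 * 1 + 0 * 1) + α * (0 * 1) = 1 := by decide

lemma flip0 : ∀ α β γ : ZMod 2, β + γ = 0 →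
    β * (1 * 1) + γ * (1 * 0 + 1 * 1) + α * (1 * 0) = 0 := by decide

lemma flip2 : ∀ α β γ : ZMod 2,
    β * (1 * 1) + γ * (1 * 1 + 1 * 1) + α * (1 * 1) = α + β := by decide

/-- Two vertices of the second graph with nonsingular Gram matrix: project to the complement. -/
lemma two (hx : Acy (Arc (dj r s) x)) (a c : W)
    (hn : ∀ u : V, x (Sum.inl u) ⬝ᵥ x (Sum.inr a) = 0 → x (Sum.inl u) ⬝ᵥ x (Sum.inr c) = 0)
    (hdet : (x (Sum.inr a) ⬝ᵥ x (Sum.inr a)) * (x (Sum.inr c) ⬝ᵥ x (Sum.inr c)) +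
      x (Sum.inr a) ⬝ᵥ x (Sum.inr c) = 1) :
    ∃ y : V → Fin k → ZMod 2, Acy (Arc r y) ∧ (∀ u, y u ⬝ᵥ x (Sum.inr a) = 0) ∧
      (∀ u, y u ⬝ᵥ x (Sum.inr c) = 0) ∧
      ∀ u, x (Sum.inr a) ⬝ᵥ x (Sum.inr a) = 0 → x (Sum.inr c) ⬝ᵥ x (Sum.inr c) = 0 →
        y u ⬝ᵥ y u = x (Sum.inl u) ⬝ᵥ x (Sum.inl u) := by
  set v := x (Sum.inr a) with hv
  set w := x (Sum.inr c) with hw
  obtain ⟨α, hα⟩ : ∃ α, v ⬝ᵥ v = α := ⟨_, rfl⟩
  obtain ⟨β, hβ⟩ : ∃ β, w ⬝ᵥ w = β := ⟨_, rfl⟩
  obtain ⟨γ, hγ⟩ : ∃ γ, v ⬝ᵥ w = γ := ⟨_, rfl⟩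
  rw [hα, hβ, hγ] at hdet
  let f : V → ZMod 2 := fun u => x (Sum.inl u) ⬝ᵥ v
  let g : V → ZMod 2 := fun u => x (Sum.inl u) ⬝ᵥ w
  let y : V → Fin k → ZMod 2 := fun u =>
    x (Sum.inl u) + ((β * f u + γ * g u) • v + (γ * f u + α * g u) • w)
  let fl : V → V → ZMod 2 := fun p q =>
    β * (f p * f q) + γ * (f p * g q + g p * f q) + α * (g p * g q)
  have hy : ∀ p q, y p ⬝ᵥ y q = x (Sum.inl p) ⬝ᵥ x (Sum.inl q) + fl p q := by
    intro p q
    simp only [y, fl, add_dotProduct, dotProduct_add, smul_dotProduct, dotProduct_smul,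
      smul_eq_mul]
    rw [dotProduct_comm v (x (Sum.inl q)), dotProduct_comm w (x (Sum.inl q)),
      dotProduct_comm w v, hα, hβ, hγ]
    change x (Sum.inl p) ⬝ᵥ x (Sum.inl q) +
      ((β * f p + γ * g p) * f q + (γ * f p + α * g p) * g q) +
      ((β * f q + γ * g q) * (f p + ((β * f p + γ * g p) * α + (γ * f p + α * g p) * γ)) +
        (γ * f q + α * g q) * (g p + ((β * f p + γ * g p) * γ + (γ * f p + α * g p) * β))) = _
    generalize f p = a1
    generalize f q = a2
    generalize g p = b1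
    generalize g q = b2
    generalize x (Sum.inl p) ⬝ᵥ x (Sum.inl q) = t
    clear hα hβ hγ
    revert hdet
    revert α β γ a1 a2 b1 b2 t
    decide
  refine ⟨y, ?_, ?_, ?_, ?_⟩
  · -- the classes
    let m : ZMod 2 := β + γ
    let cl : V → ℕ := fun u => if f u = 0 then 0 else
      if g u = 0 then (if m = 0 then 1 else 2) else (if m = 0 then 2 else 1)
    let rv : V → Prop := fun u => f u = 1 ∧ ((g u = 0 ∧ β = 1) ∨ (g u = 1 ∧ α + β = 1))
    have clv : ∀ u, (f u = 0 ∧ g u = 0 ∧ cl u = 0) ∨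
        (f u = 1 ∧ g u = 0 ∧ cl u = if m = 0 then 1 else 2) ∨
        (f u = 1 ∧ g u = 1 ∧ cl u = if m = 0 then 2 else 1) := by
      intro u
      rcases zc (f u) with h | h
      · exact Or.inl ⟨h, hn u h, by simp [cl, h]⟩
      · rcases zc (g u) with h' | h'
        · exact Or.inr (Or.inl ⟨h, h', by simp [cl, h, h']⟩)
        · exact Or.inr (Or.inr ⟨h, h', by simp [cl, h, h']⟩)
    refine acy_cls (R := fun a b => Arc (dj r s) x (Sum.inl a) (Sum.inl b))
      (acy_map Sum.inl (fun _ _ h => h) hx) cl rv ?_ ?_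
    · intro p q hpq
      simp only [rv]
      rcases clv p with ⟨p1, p2, p3⟩ | ⟨p1, p2, p3⟩ | ⟨p1, p2, p3⟩ <;>
        rcases clv q with ⟨q1, q2, q3⟩ | ⟨q1, q2, q3⟩ | ⟨q1, q2, q3⟩ <;>
        rw [p3, q3] at hpq <;> rw [p1, p2, q1, q2] <;> split_ifs at hpq <;> omega
    · intro p q hpq
      have hpq' : (r p q ∧ x (Sum.inl p) ⬝ᵥ x (Sum.inl q) + fl p q = 0) ∨
          (r q p ∧ x (Sum.inl p) ⬝ᵥ x (Sum.inl q) + fl p q = 1) := by
        rcases hpq with ⟨h, h'⟩ | ⟨h, h'⟩
        · exact Or.inl ⟨h, by rw [← hy]; exact h'⟩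
        · exact Or.inr ⟨h, by rw [← hy]; exact h'⟩
      have same : fl p q = 0 → Arc (dj r s) x (Sum.inl p) (Sum.inl q) := by
        intro h0
        rw [h0, add_zero] at hpq'
        rcases hpq' with ⟨h, h'⟩ | ⟨h, h'⟩
        · exact Or.inl ⟨h, h'⟩
        · exact Or.inr ⟨h, h'⟩
      have flip : fl p q = 1 → Arc (dj r s) x (Sum.inl q) (Sum.inl p) := by
        intro h0
        rw [h0] at hpq'
        have e : ∀ t : ZMod 2, (t + 1 = 0 → t = 1) ∧ (t + 1 = 1 → t = 0) := by decide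
        rcases hpq' with ⟨h, h'⟩ | ⟨h, h'⟩
        · exact Or.inr ⟨h, by rw [dotProduct_comm]; exact (e _).1 h'⟩
        · exact Or.inl ⟨h, by rw [dotProduct_comm]; exact (e _).2 h'⟩
      have up1 : ∀ s' t, f s' = 1 → f t = 0 → ¬ Arc (dj r s) x (Sum.inl s') (Sum.inl t) :=
        fun s' t hs ht h => no_tri hx (of_w s' a hs) h (to_w t a ht)
      have up2 : ∀ s' t, g s' = 1 → g t = 0 → ¬ Arc (dj r s) x (Sum.inl s') (Sum.inl t) :=
        fun s' t hs ht h => no_tri hx (of_w s' c hs) h (to_w t c ht)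
      -- the flips
      have flv : fl p q = β * (f p * f q) + γ * (f p * g q + g p * f q) + α * (g p * g q) := rfl
      simp only [rv]
      rcases clv p with ⟨p1, p2, p3⟩ | ⟨p1, p2, p3⟩ | ⟨p1, p2, p3⟩ <;>
        rcases clv q with ⟨q1, q2, q3⟩ | ⟨q1, q2, q3⟩ | ⟨q1, q2, q3⟩ <;>
        rw [p3, q3] <;> rw [p1, p2, q1, q2] at flv
      · right
        exact ⟨rfl, Or.inl ⟨by rw [p1]; simp, same (by rw [flv]; simp)⟩⟩
      · left; split_ifs <;> norm_num
      · left; split_ifs <;> norm_num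
      · exact (up1 p q p1 q1 (same (by rw [flv]; simp))).elim
      · -- class 1, class 1
        right
        refine ⟨rfl, ?_⟩
        rcases zc β with hb | hb
        · exact Or.inl ⟨by rw [p2, hb]; simp, same (by rw [flv, hb]; simp)⟩
        · exact Or.inr ⟨⟨p1, Or.inl ⟨p2, hb⟩⟩, flip (by rw [flv, hb]; simp)⟩
      · -- class 1, class 2
        by_cases hm : m = 0
        · left; rw [if_pos hm, if_pos hm]; norm_num
        · exfalso
          have hm1 : m = 1 := (zc m).resolve_left hm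
          refine up2 q p q2 p2 (flip ?_)
          rw [flv]
          exact flip1 α β γ hm1
      · exact (up1 p q p1 q1 (same (by rw [flv]; simp))).elim
      · -- class 2, class 1
        by_cases hm : m = 0
        · exfalso
          refine up2 p q p2 q2 (same ?_)
          rw [flv]
          exact flip0 α β γ hm
        · left; rw [if_neg hm, if_neg hm]; norm_num
      · -- class 2, class 2
        right
        refine ⟨rfl, ?_⟩
        have e : fl p q = α + β := by
          rw [flv]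
          exact flip2 α β γ
        rcases zc (α + β) with hb | hb
        · exact Or.inl ⟨by rw [p2, hb]; simp, same (by rw [e, hb])⟩
        · exact Or.inr ⟨⟨p1, Or.inr ⟨p2, hb⟩⟩, flip (by rw [e, hb])⟩
  · intro u
    simp only [y, add_dotProduct, smul_dotProduct, smul_eq_mul]
    rw [dotProduct_comm w v, hα, hγ]
    exact ort1 α β γ (f u) (g u) hdet
  · intro u
    simp only [y, add_dotProduct, smul_dotProduct, smul_eq_mul]
    rw [hβ, hγ]
    exact ort2 α β γ (f u) (g u) hdet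
  · intro u ha hc
    rw [hy]
    simp only [fl]
    rw [← hα, ← hβ, ha, hc]
    exact ort3 γ _ (f u) (g u)

/-- If all principal minors of order two of the second graph vanish, one inversion is enough for
it. -/
lemma some_det (hx : Acy (Arc (dj r s) x)) (hs : ¬ VLe s 1) : ∃ a c : W,
    (x (Sum.inr a) ⬝ᵥ x (Sum.inr a)) * (x (Sum.inr c) ⬝ᵥ x (Sum.inr c)) +
      x (Sum.inr a) ⬝ᵥ x (Sum.inr c) = 1 := by
  by_contra hc
  push Not at hc
  apply hs
  refine ⟨fun a _ => x (Sum.inr a) ⬝ᵥ x (Sum.inr a), ?_⟩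
  refine acy_arc (s := dj r s) Sum.inr (fun a b h => h) ?_ hx
  intro a b
  have h := (zc _).resolve_right (hc a b)
  simp only [dotProduct, Finset.univ_unique, Finset.sum_singleton]
  change (x (Sum.inr a) ⬝ᵥ x (Sum.inr a)) * (x (Sum.inr b) ⬝ᵥ x (Sum.inr b)) =
    x (Sum.inr a) ⬝ᵥ x (Sum.inr b)
  generalize (x (Sum.inr a) ⬝ᵥ x (Sum.inr a)) * (x (Sum.inr b) ⬝ᵥ x (Sum.inr b)) = p at *
  generalize x (Sum.inr a) ⬝ᵥ x (Sum.inr b) = q at *
  revert h; revert p q; decide

/-- If all products in the second graph vanish, it is acyclic. -/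
lemma some_one (hx : Acy (Arc (dj r s) x)) (hs : ¬ VLe s 0) : ∃ a c : W,
    x (Sum.inr a) ⬝ᵥ x (Sum.inr c) = 1 := by
  by_contra hc
  push Not at hc
  apply hs
  refine ⟨fun _ i => i.elim0, ?_⟩
  refine acy_arc (s := dj r s) Sum.inr (fun a b h => h) ?_ hx
  intro a b
  rw [(zc _).resolve_right (hc a b)]
  simp [dotProduct]

end

/-- Deleting a coordinate: `w` isotropic with `w j = 1`. -/
lemma reduce_iso {s : ℕ} (w : Fin (s + 1) → ZMod 2) (hw : w ⬝ᵥ w = 0) (j : Fin (s + 1))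
    (hj : w j = 1) (x y : Fin (s + 1) → ZMod 2) (hx : x ⬝ᵥ w = 0) (hy : y ⬝ᵥ w = 0) :
    (fun i : Fin s => x (j.succAbove i) + x j * w (j.succAbove i)) ⬝ᵥ
      (fun i : Fin s => y (j.succAbove i) + y j * w (j.succAbove i)) = x ⬝ᵥ y := by
  unfold dotProduct at *
  rw [Fin.sum_univ_succAbove _ j, hj] at hw hx hy
  rw [Fin.sum_univ_succAbove (fun i => x i * y i) j]
  have e : ∀ i, (x (j.succAbove i) + x j * w (j.succAbove i)) *
      (y (j.succAbove i) + y j * w (j.succAbove i)) =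
      x (j.succAbove i) * y (j.succAbove i) + y j * (x (j.succAbove i) * w (j.succAbove i)) +
        x j * (y (j.succAbove i) * w (j.succAbove i)) +
          (x j * y j) * (w (j.succAbove i) * w (j.succAbove i)) := by
    intro i; ring
  simp only [e, Finset.sum_add_distrib, ← Finset.mul_sum]
  clear e
  generalize (∑ i, w (j.succAbove i) * w (j.succAbove i)) = A at *
  generalize (∑ i, x (j.succAbove i) * w (j.succAbove i)) = B at *
  generalize (∑ i, y (j.succAbove i) * w (j.succAbove i)) = C at *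
  generalize (∑ i, x (j.succAbove i) * y (j.succAbove i)) = D at *
  generalize x j = p at *
  generalize y j = q at *
  revert hw hx hy
  revert A B C D p q
  decide

/-- After deleting the coordinate there is a new orthogonal vector of norm one. -/
lemma reduce_iso' {s : ℕ} (w : Fin (s + 1) → ZMod 2) (hw : w ⬝ᵥ w = 0) (j : Fin (s + 1))
    (hj : w j = 1) :
    (fun i : Fin s => w (j.succAbove i)) ⬝ᵥ (fun i : Fin s => w (j.succAbove i)) = 1 ∧
    ∀ x : Fin (s + 1) → ZMod 2, x ⬝ᵥ w = 0 →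
      (fun i : Fin s => x (j.succAbove i) + x j * w (j.succAbove i)) ⬝ᵥ
        (fun i : Fin s => w (j.succAbove i)) = 0 := by
  unfold dotProduct at *
  rw [Fin.sum_univ_succAbove _ j, hj] at hw
  constructor
  · generalize (∑ i, w (j.succAbove i) * w (j.succAbove i)) = A at *
    revert hw; revert A; decide
  · intro x hx
    rw [Fin.sum_univ_succAbove _ j, hj] at hx
    have e : ∀ i, (x (j.succAbove i) + x j * w (j.succAbove i)) * w (j.succAbove i) =
        x (j.succAbove i) * w (j.succAbove i) + x j * (w (j.succAbove i) * w (j.succAbove i)) := by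
      intro i; ring
    simp only [e, Finset.sum_add_distrib, ← Finset.mul_sum]
    clear e
    generalize (∑ i, w (j.succAbove i) * w (j.succAbove i)) = A at *
    generalize (∑ i, x (j.succAbove i) * w (j.succAbove i)) = B at *
    generalize x j = p at *
    revert hw hx; revert A B p; decide

/-- All vectors orthogonal to a vector of norm one. -/
lemma drop_one {V : Type} {r : V → V → Prop} {k : ℕ} {y : V → Fin (k + 1) → ZMod 2}
    (hy : Acy (Arc r y)) (w : Fin (k + 1) → ZMod 2) (hw : w ⬝ᵥ w = 1)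
    (h0 : ∀ u, y u ⬝ᵥ w = 0) : RLe r k := by
  by_cases hj : ∃ j, w j = 0
  · obtain ⟨j, hj⟩ := hj
    left
    refine ⟨fun a i => y a (j.succAbove i) + y a j * w (j.succAbove i), ?_⟩
    exact acy_arc id (fun a b h => h) (fun a b => reduce w hw j hj _ _ (h0 a) (h0 b)) hy
  · right
    have h1 : ∀ i, w i = 1 := fun i => (zc _).resolve_left fun h => hj ⟨i, h⟩
    refine ⟨y, hy, ?_⟩
    intro a
    rw [← h0 a]
    unfold dotProduct
    refine Finset.sum_congr rfl fun i _ => ?_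
    rw [h1 i]
    rcases zc (y a i) with h | h <;> simp [h]

/-- A nonzero vector has a coordinate equal to one. -/
lemma exists_one {k : ℕ} {w v : Fin k → ZMod 2} (h : v ⬝ᵥ w = 1) : ∃ j, w j = 1 := by
  by_contra hj
  have h2 : w = 0 := funext fun i => (zc _).resolve_right fun h => hj ⟨i, h⟩
  rw [h2, dotProduct_zero] at h
  exact absurd h (by decide)

/-- All vectors orthogonal to an isotropic vector: two dimensions less. -/
lemma drop_iso {V : Type} {r : V → V → Prop} {k : ℕ} {y : V → Fin (k + 2) → ZMod 2}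
    (hy : Acy (Arc r y)) (w : Fin (k + 2) → ZMod 2) (hw : w ⬝ᵥ w = 0) (hw1 : ∃ j, w j = 1)
    (h0 : ∀ u, y u ⬝ᵥ w = 0) : RLe r k := by
  obtain ⟨j, hj⟩ := hw1
  obtain ⟨h1, h2⟩ := reduce_iso' w hw j hj
  exact drop_one (y := fun a i => y a (j.succAbove i) + y a j * w (j.succAbove i))
    (acy_arc id (fun a b h => h) (fun a b => reduce_iso w hw j hj _ _ (h0 a) (h0 b)) hy)
    (fun i => w (j.succAbove i)) h1 (fun u => h2 _ (h0 u))

/-- **The first step.** -/
lemma step1 {V W : Type} (k : ℕ) (r : V → V → Prop) (s : W → W → Prop) (hs : ¬ VLe s 0)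
    (h : RLe (dj r s) (k + 1)) : RLe r k := by
  rcases h with ⟨x, hx⟩ | ⟨x, hx, h0⟩
  · by_cases hn : ∃ c : W, x (Sum.inr c) ⬝ᵥ x (Sum.inr c) = 1
    · obtain ⟨c, hc⟩ := hn
      obtain ⟨y, hy, hy0⟩ := norm_one hx c hc
      exact drop_one hy _ hc hy0
    · have hiso : ∀ c : W, x (Sum.inr c) ⬝ᵥ x (Sum.inr c) = 0 := fun c =>
        (zc _).resolve_right fun h => hn ⟨c, h⟩
      obtain ⟨a, c, h1⟩ := some_one hx hs
      -- choose the order
      obtain ⟨a, c, h1, hn⟩ : ∃ a c : W, x (Sum.inr a) ⬝ᵥ x (Sum.inr c) = 1 ∧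
          ∀ u : V, x (Sum.inl u) ⬝ᵥ x (Sum.inr a) = 0 →
            x (Sum.inl u) ⬝ᵥ x (Sum.inr c) = 0 := by
        rcases nested hx a c with h | h
        · exact ⟨a, c, h1, h⟩
        · exact ⟨c, a, by rw [dotProduct_comm]; exact h1, h⟩
      obtain ⟨y, hy, -, hy0, -⟩ := two hx a c hn (by rw [hiso, hiso, h1]; decide)
      obtain ⟨j, hj⟩ := exists_one h1
      left
      refine ⟨fun a i => y a (j.succAbove i) + y a j * x (Sum.inr c) (j.succAbove i), ?_⟩
      exact acy_arc id (fun a b h => h)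
        (fun a b => reduce_iso (x (Sum.inr c)) (hiso c) j hj _ _ (hy0 a) (hy0 b)) hy
  · obtain ⟨a, c, h1⟩ := some_one hx hs
    obtain ⟨a, c, h1, hn⟩ : ∃ a c : W, x (Sum.inr a) ⬝ᵥ x (Sum.inr c) = 1 ∧
        ∀ u : V, x (Sum.inl u) ⬝ᵥ x (Sum.inr a) = 0 →
          x (Sum.inl u) ⬝ᵥ x (Sum.inr c) = 0 := by
      rcases nested hx a c with h | h
      · exact ⟨a, c, h1, h⟩
      · exact ⟨c, a, by rw [dotProduct_comm]; exact h1, h⟩
    obtain ⟨y, hy, -, hy0, hy1⟩ := two hx a c hn (by rw [h0, h0, h1]; decide)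
    obtain ⟨j, hj⟩ := exists_one h1
    right
    refine ⟨fun a i => y a (j.succAbove i) + y a j * x (Sum.inr c) (j.succAbove i), ?_, ?_⟩
    · exact acy_arc id (fun a b h => h)
        (fun a b => reduce_iso (x (Sum.inr c)) (h0 _) j hj _ _ (hy0 a) (hy0 b)) hy
    · intro u
      have := reduce_iso (x (Sum.inr c)) (h0 _) j hj _ _ (hy0 u) (hy0 u)
      rw [this, hy1 u (h0 _) (h0 _), h0]

/-- **The second step.** -/
lemma step2 {V W : Type} (k : ℕ) (r : V → V → Prop) (s : W → W → Prop) (hs : ¬ VLe s 1)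
    (h : RLe (dj r s) (k + 2)) : RLe r k := by
  rcases h with ⟨x, hx⟩ | ⟨x, hx, h0⟩
  · obtain ⟨a, c, h1⟩ := some_det hx hs
    obtain ⟨a, c, h1, hn⟩ : ∃ a c : W,
        (x (Sum.inr a) ⬝ᵥ x (Sum.inr a)) * (x (Sum.inr c) ⬝ᵥ x (Sum.inr c)) +
          x (Sum.inr a) ⬝ᵥ x (Sum.inr c) = 1 ∧
        ∀ u : V, x (Sum.inl u) ⬝ᵥ x (Sum.inr a) = 0 →
          x (Sum.inl u) ⬝ᵥ x (Sum.inr c) = 0 := by
      rcases nested hx a c with h | h
      · exact ⟨a, c, h1, h⟩
      · exact ⟨c, a, by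
          rw [dotProduct_comm (x (Sum.inr c)) (x (Sum.inr a)), mul_comm]; exact h1, h⟩
    obtain ⟨y, hy, hya, hyc, -⟩ := two hx a c hn h1
    rcases zc (x (Sum.inr a) ⬝ᵥ x (Sum.inr a)) with ha | ha
    · rw [ha, zero_mul, zero_add, dotProduct_comm] at h1
      exact drop_iso hy _ ha (exists_one h1) hya
    · rcases zc (x (Sum.inr c) ⬝ᵥ x (Sum.inr c)) with hc | hc
      · rw [hc, mul_zero, zero_add] at h1
        exact drop_iso hy _ hc (exists_one h1) hyc
      · rw [ha, hc] at h1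
        have hg : x (Sum.inr a) ⬝ᵥ x (Sum.inr c) = 0 := by
          generalize x (Sum.inr a) ⬝ᵥ x (Sum.inr c) = t at *
          revert h1; revert t; decide
        refine drop_iso hy (x (Sum.inr a) + x (Sum.inr c)) ?_ (exists_one
          (v := x (Sum.inr a)) ?_) ?_
        · rw [add_dotProduct, dotProduct_add, dotProduct_add, ha, hc,
            dotProduct_comm (x (Sum.inr c)), hg]
          decide
        · rw [dotProduct_add, ha, hg]; decide
        · intro u
          rw [dotProduct_add, hya, hyc]; decide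
  · obtain ⟨a, c, h1⟩ := some_det hx hs
    rw [h0, zero_mul, zero_add] at h1
    obtain ⟨a, c, h1, hn⟩ : ∃ a c : W, x (Sum.inr a) ⬝ᵥ x (Sum.inr c) = 1 ∧
        ∀ u : V, x (Sum.inl u) ⬝ᵥ x (Sum.inr a) = 0 →
          x (Sum.inl u) ⬝ᵥ x (Sum.inr c) = 0 := by
      rcases nested hx a c with h | h
      · exact ⟨a, c, h1, h⟩
      · exact ⟨c, a, by rw [dotProduct_comm]; exact h1, h⟩
    obtain ⟨y, hy, -, hyc, hy1⟩ := two hx a c hn (by rw [h0, h0, h1]; decide)
    obtain ⟨j, hj⟩ := exists_one h1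
    obtain ⟨g1, g2⟩ := reduce_iso' (x (Sum.inr c)) (h0 _) j hj
    -- the new vector of norm one has a zero coordinate
    have hz : ∃ i, x (Sum.inr c) (j.succAbove i) = 0 := by
      by_contra hz
      have e : ∀ i, x (Sum.inr c) i = 1 := by
        intro i
        rcases eq_or_ne i j with rfl | hij
        · exact hj
        · obtain ⟨i', rfl⟩ := Fin.exists_succAbove_eq hij
          exact (zc _).resolve_left fun h => hz ⟨i', h⟩
      have : x (Sum.inr a) ⬝ᵥ x (Sum.inr c) = x (Sum.inr a) ⬝ᵥ x (Sum.inr a) := by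
        unfold dotProduct
        refine Finset.sum_congr rfl fun i _ => ?_
        rw [e i]
        rcases zc (x (Sum.inr a) i) with h | h <;> simp [h]
      rw [this, h0] at h1
      exact absurd h1 (by decide)
    obtain ⟨i, hi⟩ := hz
    have hdot : ∀ p q, (fun i' => y p (j.succAbove i') + y p j * x (Sum.inr c) (j.succAbove i'))
        ⬝ᵥ (fun i' => y q (j.succAbove i') + y q j * x (Sum.inr c) (j.succAbove i')) =
        y p ⬝ᵥ y q := fun p q => reduce_iso (x (Sum.inr c)) (h0 _) j hj _ _ (hyc p) (hyc q)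
    have hw0 : ∀ p, (fun i' => y p (j.succAbove i') + y p j * x (Sum.inr c) (j.succAbove i'))
        ⬝ᵥ (fun i' => x (Sum.inr c) (j.succAbove i')) = 0 := fun p => g2 _ (hyc p)
    right
    refine ⟨fun p i'' => (fun i' => y p (j.succAbove i') +
        y p j * x (Sum.inr c) (j.succAbove i')) (i.succAbove i'') +
      (fun i' => y p (j.succAbove i') + y p j * x (Sum.inr c) (j.succAbove i')) i *
        (fun i' => x (Sum.inr c) (j.succAbove i')) (i.succAbove i''), ?_, ?_⟩
    · refine acy_arc id (fun a b h => h) ?_ hy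
      intro p q
      rw [reduce (fun i' => x (Sum.inr c) (j.succAbove i')) g1 i hi _ _ (hw0 p) (hw0 q)]
      exact hdot p q
    · intro p
      rw [reduce (fun i' => x (Sum.inr c) (j.succAbove i')) g1 i hi _ _ (hw0 p) (hw0 p), hdot,
        hy1 p (h0 _) (h0 _), h0]

end Pool.Agent.H2.Dij2
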