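import Pool.Agent.H2.Dij.Bad

/-!
Two tournaments on `t` vertices of inversion number `t - o(t)` whose dijoin has inversion number
at most `t`.
-/

set_option autoImplicit false

namespace Pool.Agent.H2.Dij2

open Finset Matrix

/-- The unipotent matrix of a pattern of entries. -/
def YY {t : ℕ} (a : Low t → ZMod 2) : Matrix (Fin t) (Fin t) (ZMod 2) :=
  Matrix.of fun i j => if h : j < i then a ⟨(i, j), h⟩ else if i = j then 1 else 0

lemma YY_uni {t : ℕ} (a : Low t → ZMod 2) : IsUni (YY a) := by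
  refine ⟨fun i => by simp [YY], fun i j hij => ?_⟩
  have h1 : ¬ j < i := not_lt.2 hij.le
  have h2 : ¬ i = j := hij.ne
  simp [YY, h1, h2]

lemma YY_inj {t : ℕ} {a b : Low t → ZMod 2} (h : YY a = YY b) : a = b := by
  funext p
  obtain ⟨⟨i, j⟩, hp⟩ := p
  have := congrFun (congrFun h i) j
  have hp' : j < i := hp
  simpa [YY, hp'] using this

/-- **Existence** of two tournaments of large inversion number with a small dijoin. -/
lemma exists_good (t k : ℕ) (hkt : k ≤ t)
    (hn : 2 * (t ^ t * 2 ^ t * 2 ^ NP t k) < 2 ^ Fintype.card (Low t)) :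
    ∃ g g' : Low t → ZMod 2, ¬ VLe (TT g) k ∧ ¬ VLe (TT g') k ∧ VLe (dj (TT g) (TT g')) t ∧
      VLe (TT g) t ∧ VLe (TT g') t := by
  classical
  let p1 : (Low t → ZMod 2) → (Low t → ZMod 2) := fun a => pat (fun i => YY a i)
  let p2 : (Low t → ZMod 2) → (Low t → ZMod 2) := fun a => pat (fun j l => par (YY a) l j)
  have i1 : Function.Injective p1 := by
    intro a b h
    refine YY_inj (uni_inj (YY_uni a) (YY_uni b) ?_)
    intro i j hij
    exact congrFun h ⟨(i, j), hij⟩
  have i2 : Function.Injective p2 := by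
    intro a b h
    refine YY_inj (par_inj (YY_uni a) (YY_uni b) ?_)
    refine uni_inj' (par_uni (YY_uni a)) (par_uni (YY_uni b)) ?_
    intro i j hij
    exact congrFun h ⟨(i, j), hij⟩
  have hex : ∃ a, ¬ VLe (TT (p1 a)) k ∧ ¬ VLe (TT (p2 a)) k := by
    by_contra hc
    push Not at hc
    let A1 : Finset (Low t → ZMod 2) := Finset.univ.filter fun a => VLe (TT (p1 a)) k
    let A2 : Finset (Low t → ZMod 2) := Finset.univ.filter fun a => VLe (TT (p2 a)) k
    have hU : (Finset.univ : Finset (Low t → ZMod 2)) ⊆ A1 ∪ A2 := by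
      intro a _
      by_cases h : VLe (TT (p1 a)) k
      · exact Finset.mem_union_left _ (Finset.mem_filter.2 ⟨Finset.mem_univ _, h⟩)
      · exact Finset.mem_union_right _ (Finset.mem_filter.2 ⟨Finset.mem_univ _, hc a h⟩)
    have hb := card_bad t k hkt
    have c1 : A1.card ≤ Fintype.card {g : Low t → ZMod 2 // VLe (TT g) k} := by
      rw [← Fintype.card_coe]
      refine Fintype.card_le_of_injective
        (fun a : A1 => (⟨p1 a.1, (Finset.mem_filter.1 a.2).2⟩ :
          {g : Low t → ZMod 2 // VLe (TT g) k})) ?_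
      intro a b h
      exact Subtype.ext (i1 (congrArg Subtype.val h))
    have c2 : A2.card ≤ Fintype.card {g : Low t → ZMod 2 // VLe (TT g) k} := by
      rw [← Fintype.card_coe]
      refine Fintype.card_le_of_injective
        (fun a : A2 => (⟨p2 a.1, (Finset.mem_filter.1 a.2).2⟩ :
          {g : Low t → ZMod 2 // VLe (TT g) k})) ?_
      intro a b h
      exact Subtype.ext (i2 (congrArg Subtype.val h))
    have h3 := (Finset.card_le_card hU).trans (Finset.card_union_le A1 A2)
    rw [Finset.card_univ, Fintype.card_fun, ZMod.card] at h3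
    omega
  obtain ⟨a, h1, h2⟩ := hex
  exact ⟨p1 a, p2 a, h1, h2, upper_dj (YY_uni a), vle_pat _, vle_pat _⟩

/-- The numbers: `t = 4 ^ m`, `k = t - 2 ^ m (2 m + 3)`. -/
lemma numbers (m : ℕ) (hm : 4 ≤ m) : 2 ^ m * (2 * m + 3) ≤ 4 ^ m ∧
    2 * ((4 ^ m) ^ (4 ^ m) * 2 ^ (4 ^ m) * 2 ^ NP (4 ^ m) (4 ^ m - 2 ^ m * (2 * m + 3))) <
      2 ^ Fintype.card (Low (4 ^ m)) := by
  have hle : 2 * m + 3 ≤ 2 ^ m := by
    induction m, hm using Nat.le_induction with
    | base => norm_num
    | succ n hn ih => rw [pow_succ]; omega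
  have h4 : (4 : ℕ) ^ m = 2 ^ m * 2 ^ m := by
    rw [← mul_pow]; norm_num
  have hd : 2 ^ m * (2 * m + 3) ≤ 4 ^ m := by
    rw [h4]; exact Nat.mul_le_mul_left _ hle
  refine ⟨hd, ?_⟩
  set t := 4 ^ m with ht
  set d := 2 ^ m * (2 * m + 3) with hdd
  have hk : ∃ k, t = k + d := ⟨t - d, by omega⟩
  obtain ⟨k, hk⟩ := hk
  have hk' : t - d = k := by omega
  rw [hk']
  have hNP : 2 * NP t k ≤ 2 * (k * (t - k)) + k * k + k := by
    unfold NP; omega
  have htk : t - k = d := by omega
  rw [htk] at hNP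
  have hlow := card_low t
  have hpow : t ^ t = 2 ^ (2 * m * t) := by
    have : t = 2 ^ (2 * m) := by rw [ht, pow_mul]; norm_num
    calc t ^ t = (2 ^ (2 * m)) ^ t := by rw [← this]
      _ = 2 ^ (2 * m * t) := by rw [← pow_mul]
  rw [hpow, ← pow_add, ← pow_add, ← pow_succ']
  apply Nat.pow_lt_pow_right (by norm_num)
  -- the inequality of the exponents
  have hd2 : d * d = t * ((2 * m + 3) * (2 * m + 3)) := by
    rw [hdd, h4]; ring
  have htpos : 1 ≤ t := by rw [ht]; exact Nat.one_le_pow _ _ (by norm_num)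
  have e1 : t * t = k * k + 2 * (k * d) + d * d := by
    rw [hk]; ring
  have e2 : d * d = 4 * (m * m * t) + 12 * (m * t) + 9 * t := by
    rw [hd2]; ring
  have e3 : 2 * m * t = 2 * (m * t) := by ring
  rw [e3]
  omega

end Pool.Agent.H2.Dij2
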