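import Pool.Agent.H2.Dij.Tour

/-!
Lower bounds for the dijoin from nonsingular principal minors.
-/

set_option autoImplicit false

namespace Pool.Agent.H2.Dij2

open Finset Matrix Module

/-- The form plus the dot product in `d` more dimensions. -/
def addDot {U : Type} [AddCommGroup U] [Module (ZMod 2) U]
    (B : U →ₗ[ZMod 2] U →ₗ[ZMod 2] ZMod 2) (S : Submodule (ZMod 2) U) (d : ℕ) :
    (S × (Fin d → ZMod 2)) →ₗ[ZMod 2] (S × (Fin d → ZMod 2)) →ₗ[ZMod 2] ZMod 2 :=
  LinearMap.mk₂ (ZMod 2) (fun a b => B a.1 b.1 + a.2 ⬝ᵥ b.2)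
    (fun a b c => by
      simp only [Prod.fst_add, Prod.snd_add, Submodule.coe_add, map_add, LinearMap.add_apply,
        add_dotProduct]
      ring)
    (fun c a b => by
      simp only [Prod.smul_fst, Prod.smul_snd, Submodule.coe_smul, map_smul,
        LinearMap.smul_apply, smul_eq_mul, smul_dotProduct]
      ring)
    (fun a b c => by
      simp only [Prod.fst_add, Prod.snd_add, Submodule.coe_add, map_add, dotProduct_add]
      ring)
    (fun c a b => by
      simp only [Prod.smul_fst, Prod.smul_snd, Submodule.coe_smul, map_smul, smul_eq_mul,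
        dotProduct_smul]
      ring)

section

variable {V W U : Type} [AddCommGroup U] [Module (ZMod 2) U] [FiniteDimensional (ZMod 2) U]
  {r : V → V → Prop}
  {s : W → W → Prop} {B : U →ₗ[ZMod 2] U →ₗ[ZMod 2] ZMod 2} {v : V → U} {w : W → U}
  {lt : V ⊕ W → V ⊕ W → Prop}

/-- **The gain** from a nonsingular principal minor of order `m`. -/
lemma gainT (A : Arr r s B v w lt) {m d k : ℕ} {T : Fin m → W} (hT : Srt lt T)
    (hS : ND B (Submodule.span (ZMod 2) (Set.range fun i => w (T i))) m) (hd : Bd m d)
    (hk : finrank (ZMod 2) U + d ≤ k + m) : FLe r k ∧ (1 ≤ d → VLe r k) := by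
  have S := A.symm
  obtain ⟨σ, y, h0, hy, hyy, -, -⟩ := exists_F A hT hS
  let TP : Fin m → Fin m → Prop := fun i j =>
    (i < j ∧ B (σ i.succ) (σ j.succ) = 0) ∨ (j < i ∧ B (σ i.succ) (σ j.succ) = 1)
  have hTP : IsT TP := by
    refine ⟨?_, ?_⟩
    · rintro a (⟨h, -⟩ | ⟨h, -⟩) <;> exact lt_irrefl _ h
    · intro a b hab
      show ((a < b ∧ _) ∨ (b < a ∧ _)) ↔ ¬ ((b < a ∧ _) ∨ (a < b ∧ _))
      rw [S (σ b.succ)]
      have e10 : ∀ p : ZMod 2, (p = 0 ↔ ¬ p = 1) := by decide
      rcases lt_or_gt_of_ne hab with h | h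
      · simp only [h, true_and, h.not_gt, false_and, or_false, false_or]
        exact e10 _
      · simp only [h, true_and, h.not_gt, false_and, or_false, false_or]
        rw [e10, not_not]
  obtain ⟨x, hx⟩ := hd (Fin m) TP inferInstance hTP (by simp)
  let X : Fin (m + 1) → Fin d → ZMod 2 := Fin.cons 0 x
  have hX0 : X 0 = 0 := rfl
  have hXs : ∀ i : Fin m, X i.succ = x i := fun i => rfl
  have hP : ∀ i j : Fin m, i < j →
      (B (σ i.succ) (σ j.succ) + x i ⬝ᵥ x j = 0 → Arc TP x i j) ∧
      (B (σ i.succ) (σ j.succ) + x i ⬝ᵥ x j = 1 → Arc TP x j i) := by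
    intro i j hij
    have e : ∀ p q : ZMod 2, (p + q = 0 → q = 0 → p = 0) ∧ (p + q = 0 → q = 1 → p = 1) ∧
      (p + q = 1 → q = 0 → p = 1) ∧ (p + q = 1 → q = 1 → p = 0) := by decide
    refine ⟨fun h => ?_, fun h => ?_⟩
    · rcases zc (x i ⬝ᵥ x j) with h1 | h1
      · exact Or.inl ⟨Or.inl ⟨hij, (e _ _).1 h h1⟩, h1⟩
      · refine Or.inr ⟨Or.inr ⟨hij, ?_⟩, h1⟩
        rw [S]; exact (e _ _).2.1 h h1
    · rcases zc (x i ⬝ᵥ x j) with h1 | h1
      · refine Or.inl ⟨Or.inr ⟨hij, ?_⟩, by rw [dotProduct_comm]; exact h1⟩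
        rw [S]; exact (e _ _).2.2.1 h h1
      · exact Or.inr ⟨Or.inl ⟨hij, (e _ _).2.2.2 h h1⟩, by rw [dotProduct_comm]; exact h1⟩
  have hacc : Acy (ArcB r fun a b => addDot B
      (orth B (Submodule.span (ZMod 2) (Set.range fun i => w (T i)))) d
      (⟨y a, hy a⟩, X (gap lt T a)) (⟨y b, hy b⟩, X (gap lt T b))) := by
    refine new_acy A (gap lt T) (gap_mono A T) (fun i j => B (σ i) (σ j) + X i ⬝ᵥ X j)
      (fun i j => by simp only [S (σ i)]; rw [dotProduct_comm]) ?_ _ (fun a b => ?_)
    · intro i j l hij hjl _ _ _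
      induction i using Fin.cases with
      | zero =>
        rintro ⟨-, g⟩
        simp only [h0, hX0, zero_dotProduct, add_zero, zero_add] at g
        exact absurd g (by decide)
      | succ i =>
        induction j using Fin.cases with
        | zero => exact absurd hij (Fin.succ_pos i).not_gt
        | succ j =>
          induction l using Fin.cases with
          | zero => exact absurd hjl (Fin.succ_pos j).not_gt
          | succ l =>
            have hij' : i < j := Fin.succ_lt_succ_iff.1 hij
            have hjl' : j < l := Fin.succ_lt_succ_iff.1 hjl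
            simp only [hXs]
            rintro ⟨g1, g2⟩
            rcases zc (B (σ i.succ) (σ j.succ) + x i ⬝ᵥ x j) with h1 | h1
            · have h2 : B (σ j.succ) (σ l.succ) + x j ⬝ᵥ x l = 0 := g1.symm.trans h1
              have h3 : B (σ i.succ) (σ l.succ) + x i ⬝ᵥ x l = 1 := by rw [g2, h1, zero_add]
              exact no_tri hx ((hP i j hij').1 h1) ((hP j l hjl').1 h2)
                ((hP i l (hij'.trans hjl')).2 h3)
            · have h2 : B (σ j.succ) (σ l.succ) + x j ⬝ᵥ x l = 1 := g1.symm.trans h1
              have h3 : B (σ i.succ) (σ l.succ) + x i ⬝ᵥ x l = 0 := by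
                rw [g2, h1]; decide
              exact no_tri hx ((hP i l (hij'.trans hjl')).1 h3) ((hP j l hjl').2 h2)
                ((hP i j hij').2 h1)
    · show B (y a) (y b) + X (gap lt T a) ⬝ᵥ X (gap lt T b) = _
      rw [hyy]; ring
  have hsym : ∀ a b : (orth B (Submodule.span (ZMod 2) (Set.range fun i => w (T i)))) ×
      (Fin d → ZMod 2), addDot B _ d a b = addDot B _ d b a := by
    intro a b
    show B a.1 b.1 + a.2 ⬝ᵥ b.2 = B b.1 a.1 + b.2 ⬝ᵥ a.2
    rw [S, dotProduct_comm]
  have hfr : finrank (ZMod 2) ((orth B (Submodule.span (ZMod 2)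
      (Set.range fun i => w (T i)))) × (Fin d → ZMod 2)) ≤ k := by
    rw [finrank_prod, finrank_fintype_fun_eq_card, Fintype.card_fin]
    have := hS.2
    omega
  refine ⟨⟨_, inferInstance, inferInstance, inferInstance, addDot B _ d, _, hsym, hfr, hacc⟩,
    fun h1 => ?_⟩
  refine vle_of_form (addDot B _ d) _ hsym hfr hacc ⟨(0, fun i => if i.val = 0 then 1 else 0), ?_⟩
  show B ((0 : orth B _) : U) ((0 : orth B _) : U) + (fun i : Fin d => if i.val = 0 then (1 : ZMod 2) else 0) ⬝ᵥ
    (fun i : Fin d => if i.val = 0 then (1 : ZMod 2) else 0) = 1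
  obtain ⟨d, rfl⟩ : ∃ t, d = t + 1 := ⟨d - 1, by omega⟩
  rw [Submodule.coe_zero, map_zero, zero_add, dotProduct, Fin.sum_univ_succ]
  simp

/-- **A nonsingular principal minor** of order at least `e`. -/
lemma exists_minor (A : Arr r s B v w lt) (e : ℕ) (hs : ∀ j < e, ¬ FLe s j) :
    ∃ F : Finset W, e ≤ F.card ∧ ND B (Submodule.span (ZMod 2) (w '' F)) F.card := by
  classical
  have S := A.symm
  have key : ∀ n ≤ e, ∃ F : Finset W, n ≤ F.card ∧
      ND B (Submodule.span (ZMod 2) (w '' F)) F.card := by
    intro n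
    induction n with
    | zero =>
      intro _
      refine ⟨∅, le_rfl, ?_⟩
      simpa using nd_bot (B := B)
    | succ n ih =>
      intro hn
      obtain ⟨F, h1, h2⟩ := ih (by omega)
      rcases Nat.lt_or_ge n F.card with h3 | h3
      · exact ⟨F, h3, h2⟩
      · have hc : F.card = n := by omega
        obtain ⟨p, hp1, hp2, hp3, hp4⟩ := nd_proj S h2
        have hF : ∀ c ∈ F, ∀ z, B (w c + p (w c)) (z + p z) = 0 := by
          intro c hc z
          have hm : w c ∈ Submodule.span (ZMod 2) (w '' F) := Submodule.subset_span ⟨c, hc, rfl⟩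
          exact hp3 z _ (add_mem hm (hp1 _))
        have hins : ∀ (G : Finset W) (c : W), Submodule.span (ZMod 2) (w '' (insert c G : Finset W))
            = Submodule.span (ZMod 2) (w '' G) ⊔ Submodule.span (ZMod 2) {w c} := by
          intro G c
          rw [Finset.coe_insert, Set.image_insert_eq, Submodule.span_insert, sup_comm]
        by_cases h4 : ∃ c, B (w c + p (w c)) (w c + p (w c)) = 1
        · obtain ⟨c, hcc⟩ := h4
          have hcF : c ∉ F := by
            intro hm
            rw [hF c hm] at hcc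
            exact absurd hcc (by decide)
          refine ⟨insert c F, by rw [Finset.card_insert_of_notMem hcF]; omega, ?_⟩
          rw [Finset.card_insert_of_notMem hcF, hins]
          exact nd_ext1 S h2 (hp1 _) (hp3 _) hcc
        · have h4' : ∀ c, B (w c + p (w c)) (w c + p (w c)) = 0 := fun c =>
            (zc _).resolve_right fun h => h4 ⟨c, h⟩
          by_cases h5 : ∃ c d, B (w c + p (w c)) (w d + p (w d)) = 1
          · obtain ⟨c, d, hcd⟩ := h5
            have hcF : c ∉ F := by
              intro hm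
              rw [hF c hm] at hcd
              exact absurd hcd (by decide)
            have hdF : d ∉ F := by
              intro hm
              rw [S, hF d hm] at hcd
              exact absurd hcd (by decide)
            have hne : d ≠ c := by
              rintro rfl
              rw [h4'] at hcd
              exact absurd hcd (by decide)
            have hdF' : d ∉ insert c F := by
              rw [Finset.mem_insert]
              rintro (h | h)
              · exact hne h
              · exact hdF h
            refine ⟨insert d (insert c F), ?_, ?_⟩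
            · rw [Finset.card_insert_of_notMem hdF', Finset.card_insert_of_notMem hcF]; omega
            · rw [Finset.card_insert_of_notMem hdF', Finset.card_insert_of_notMem hcF, hins, hins]
              exact nd_ext2 S h2 (hp1 _) (hp3 _) (hp1 _) (hp3 _) (by rw [h4', zero_mul, zero_add]; exact hcd)
          · exfalso
            refine hs n (by omega) ?_
            have hz : ∀ c d, B (p (w c)) (p (w d)) = B (w c) (w d) := by
              intro c d
              have h6 := hp4 (w c) (w d)
              rw [(zc _).resolve_right fun h => h5 ⟨c, d, h⟩] at h6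
              have e' : ∀ p q : ZMod 2, 0 = p + q → q = p := by decide
              exact e' _ _ h6
            refine ⟨Submodule.span (ZMod 2) (w '' F), inferInstance, inferInstance, inferInstance,
              B.domRestrict₁₂ _ _, fun d => ⟨p (w d), hp1 _⟩, fun a b => S _ _, ?_, ?_⟩
            · have h7 : (w '' (F : Set W)) = ((F.image w : Finset U) : Set U) := by simp
              rw [h7]
              refine (finrank_span_finset_le_card _).trans ?_
              exact Finset.card_image_le.trans hc.le
            · exact A.accW fun d e => hz d e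
  exact key e le_rfl

/-- A sorted nonsingular sequence of length at least `e`. -/
lemma exists_seq (A : Arr r s B v w lt) (e : ℕ) (hs : ∀ j < e, ¬ FLe s j) :
    ∃ (m : ℕ) (T : Fin m → W), e ≤ m ∧ Srt lt T ∧
      ND B (Submodule.span (ZMod 2) (Set.range fun i => w (T i))) m := by
  classical
  obtain ⟨F, h1, h2⟩ := exists_minor A e hs
  let t : Fin F.card → W := fun i => (F.equivFin.symm i : W)
  have ht : Function.Injective t := fun i j h =>
    F.equivFin.symm.injective (Subtype.ext h)
  obtain ⟨π, hπ⟩ := exists_sort A t ht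
  refine ⟨F.card, t ∘ π, h1, hπ, ?_⟩
  rw [range_perm (w := w) t π]
  have : (Set.range fun i => w (t i)) = w '' F := by
    ext x
    constructor
    · rintro ⟨i, rfl⟩
      exact ⟨t i, (F.equivFin.symm i).2, rfl⟩
    · rintro ⟨c, hc, rfl⟩
      exact ⟨F.equivFin ⟨c, hc⟩, by simp [t]⟩
  rw [this]
  exact h2

end

/-- **The lower bound.** -/
lemma low {V W : Type} {r : V → V → Prop} {s : W → W → Prop} {e c k : ℕ} (hc : Bd e c)
    (hs : ∀ j < e, ¬ FLe s j) (h : FLe (dj r s) k) :
    e ≤ k ∧ FLe r (k + c - e) ∧ (1 ≤ c → VLe r (k + c - e)) := by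
  have hek : e ≤ k := by
    by_contra hlt
    obtain ⟨U, i1, i2, i3, B, x, hB, hk, hx⟩ := h
    refine hs k (by omega) ⟨U, i1, i2, i3, B, fun a => x (Sum.inr a), hB, hk, ?_⟩
    exact acy_map Sum.inr (fun a b hab => hab) hx
  obtain ⟨U, _, _, _, B, v, w, lt, A, hk⟩ := h.arr
  obtain ⟨m, T, hm, hT, hS⟩ := exists_seq A e hs
  obtain ⟨d, rfl⟩ := Nat.exists_eq_add_of_le hm
  have h1 := gainT (k := k + c - e) A hT hS (hc.add d) (by omega)
  exact ⟨hek, h1.1, fun h2 => h1.2 (by omega)⟩

end Pool.Agent.H2.Dij2
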