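import Pool.Agent.H2.Dij.LowB

/-!
Lower bounds for the dijoin: the inversion numbers.
-/

set_option autoImplicit false

namespace Pool.Agent.H2.Dij2

open Finset Matrix

/-- The inversion number is `a`. -/
def Inv0 {V : Type} (r : V → V → Prop) (a : ℕ) : Prop := VLe r a ∧ ∀ j < a, ¬ VLe r j

lemma Inv0.rev {V : Type} {r : V → V → Prop} {a : ℕ} (h : Inv0 r a) : Inv0 (rv r) a :=
  ⟨h.1.rev, fun j hj g => h.2 j hj g.rev⟩

lemma Inv0.le {V : Type} {r : V → V → Prop} {a j : ℕ} (h : Inv0 r a) (hj : VLe r j) : a ≤ j := by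
  by_contra hc
  exact h.2 j (by omega) hj

lemma val_of_vle {V : Type} {r : V → V → Prop} {k : ℕ} (h : VLe r k) : ∃ σ, Val r σ := by
  classical
  have h : ∃ k, RLe r k := ⟨k, Or.inl h⟩
  exact ⟨Nat.find h, fun j hj => Nat.find_min h hj, Nat.find_spec h⟩

lemma not_bd {n : ℕ} (hn : 3 ≤ n) : ¬ Bd n 0 := by
  intro h
  let T : Fin n → Fin n → Prop := fun i j =>
    (i.val < j.val ∧ ¬ (i.val = 0 ∧ j.val = 2)) ∨ (i.val = 2 ∧ j.val = 0)
  have hT : IsT T := by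
    refine ⟨fun a => ?_, fun a b hab => ?_⟩
    · show ¬ ((a.val < a.val ∧ ¬ (a.val = 0 ∧ a.val = 2)) ∨ (a.val = 2 ∧ a.val = 0))
      omega
    · have : a.val ≠ b.val := fun e => hab (Fin.ext e)
      show ((a.val < b.val ∧ ¬ (a.val = 0 ∧ b.val = 2)) ∨ (a.val = 2 ∧ b.val = 0)) ↔
        ¬ ((b.val < a.val ∧ ¬ (b.val = 0 ∧ a.val = 2)) ∨ (b.val = 2 ∧ a.val = 0))
      omega
  obtain ⟨x, hx⟩ := h (Fin n) T inferInstance hT (by simp)
  have e : ∀ a b, T a b → Arc T x a b := fun a b h => Or.inl ⟨h, by simp [dotProduct]⟩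
  refine no_tri hx (a := ⟨0, by omega⟩) (b := ⟨1, by omega⟩) (c := ⟨2, by omega⟩) (e _ _ ?_)
    (e _ _ ?_) (e _ _ ?_)
  · exact Or.inl ⟨by simp, by simp⟩
  · exact Or.inl ⟨by simp, by simp⟩
  · exact Or.inr ⟨rfl, rfl⟩

/-- The lower bound in terms of the value of `RLe` for the second graph. -/
lemma core1 {V W : Type} {r : V → V → Prop} {s : W → W → Prop} {a n c k : ℕ} (hr : Inv0 r a)
    (hs : Val s n) (hn : 3 ≤ n) (hc : Bd n c) (h : VLe (dj r s) k) : a + n ≤ k + c := by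
  have hc1 : 1 ≤ c := by
    by_contra h0
    obtain rfl : c = 0 := by omega
    exact not_bd hn hc
  obtain ⟨h1, -, h3⟩ := low hc (fun j hj g => hs.1 j hj g.rle) h.fle
  have := hr.le (h3 hc1)
  omega

lemma log_odd {n : ℕ} (ho : Odd (n + 1)) (hn : 2 ≤ n) : Nat.log 2 (n + 1) ≤ Nat.log 2 n := by
  have h1 : 2 ^ Nat.log 2 (n + 1) ≤ n + 1 := Nat.pow_log_le_self 2 (by omega)
  have h2 : 1 ≤ Nat.log 2 (n + 1) := Nat.log_pos (by norm_num) (by omega)
  have h3 : 2 ^ Nat.log 2 (n + 1) ≠ n + 1 := by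
    intro e
    rw [← e] at ho
    exact (Nat.not_odd_iff_even.2 (Even.pow_of_ne_zero (by decide) (by omega))) ho
  exact Nat.le_log_of_pow_le (by norm_num) (by omega)

/-- The lower bound in terms of the inversion numbers. -/
lemma core2 {V W : Type} {r : V → V → Prop} {s : W → W → Prop} {a b k : ℕ} (hr : Inv0 r a)
    (hs : Inv0 s b) (hb : 3 ≤ b) (h : VLe (dj r s) k) : a + Nat.log 2 b + 1 ≤ k := by
  obtain ⟨n, hn⟩ := val_of_vle hs.1
  have hnb : n ≤ b := hn.lt (Or.inl hs.1)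
  have hb' : (VLe s n → b = n) ∧ (¬ VLe s n → b = n + 1 ∧ Odd (n + 1) ∧ 2 ≤ n) := by
    refine ⟨fun g => le_antisymm (hs.le g) hnb, fun g => ?_⟩
    obtain ⟨p1, p2, p3⟩ := hn.pos g
    have i1 := hs.le p3.vle
    have i2 : b ≠ n := fun e => g (e ▸ hs.1)
    exact ⟨by omega, p1, p2⟩
  rcases Nat.lt_or_ge n 3 with h3 | h3
  · have hv : ¬ VLe s n := fun g => by have := hb'.1 g; omega
    obtain ⟨e1, e2, e3⟩ := hb'.2 hv
    obtain rfl : n = 2 := by omega
    obtain rfl : b = 3 := e1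
    obtain ⟨σ, hσ⟩ := val_of_vle hr.1
    obtain ⟨g1, g2⟩ := val_dj hσ hn (by norm_num)
    have i1 := g1.lt (Or.inl h)
    have hlog : Nat.log 2 3 = 1 := by decide
    rw [hlog]
    by_cases ha : VLe r σ
    · have := hr.le ha
      omega
    · have i2 := hr.le (hσ.pos ha).2.2.vle
      have i3 : k ≠ σ + 2 := by
        rintro rfl
        exact g2.2 (Or.inl ⟨ha, hv⟩) h
      omega
  · obtain ⟨c, hc1, hc2⟩ := bd_log (n := n) (by omega)
    have := core1 hr hn h3 hc2 h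
    have hlog : Nat.log 2 b ≤ Nat.log 2 n := by
      by_cases hv : VLe s n
      · rw [hb'.1 hv]
      · obtain ⟨e1, e2, e3⟩ := hb'.2 hv
        rw [e1]
        exact log_odd e2 e3
    omega

lemma core1' {V W : Type} {r : V → V → Prop} {s : W → W → Prop} {a n c k : ℕ} (hr : Inv0 r a)
    (hs : Val s n) (hn : 3 ≤ n) (hc : Bd n c) (h : VLe (dj s r) k) : a + n ≤ k + c :=
  core1 hr.rev hs.rev hn hc (vle_swap.2 h)

lemma core2' {V W : Type} {r : V → V → Prop} {s : W → W → Prop} {a b k : ℕ} (hr : Inv0 r a)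
    (hs : Inv0 s b) (hb : 3 ≤ b) (h : VLe (dj s r) k) : a + Nat.log 2 b + 1 ≤ k :=
  core2 hr.rev hs.rev hb (vle_swap.2 h)

end Pool.Agent.H2.Dij2
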