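import Pool.Agent.H2.Dij.LowC

/-!
Lower bounds for joins.
-/

set_option autoImplicit false

namespace Pool.Agent.H2.Dij2

open Finset Matrix

lemma inv0_of_vle {V : Type} {r : V → V → Prop} {k : ℕ} (h : VLe r k) : ∃ a, Inv0 r a := by
  classical
  have h : ∃ k, VLe r k := ⟨k, h⟩
  exact ⟨Nat.find h, Nat.find_spec h, fun j hj => Nat.find_min h hj⟩

lemma low_kj : ∀ (k : ℕ) (V : Fin k → Type) (r : ∀ i, V i → V i → Prop) (e : Fin k → ℕ)
    (m : Fin k), (∀ i, i ≠ m → 3 ≤ e i) → (∀ i, Inv0 (r i) (e i)) → ∀ N, VLe (kj r) N →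
    e m + ∑ i, (Nat.log 2 (e i) + 1) ≤ N + (Nat.log 2 (e m) + 1) := by
  intro k
  induction k with
  | zero => intro V r e m; exact m.elim0
  | succ k ih =>
    intro V r e m he h1 N hN
    induction m using Fin.cases with
    | zero =>
      rcases k with _ | k
      · have h2 : VLe (r 0) N :=
          VLe.hom (s := kj r) (fun a => ⟨0, a⟩) (fun x y => (kj_inner r 0 x y).2) hN
        have := (h1 0).le h2
        have h3 : ∑ i, (Nat.log 2 (e i) + 1) = Nat.log 2 (e 0) + 1 := by simp
        omega
      · have h2 : VLe (dj (kj fun i : Fin (k + 1) => r i.castSucc) (r (Fin.last _))) N :=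
          VLe.hom (s := kj r) _ (fun x y => (kj_snoc r x y).1) hN
        obtain ⟨a, ha⟩ := inv0_of_vle (VLe.hom (s := dj (kj fun i : Fin (k + 1) =>
          r i.castSucc) (r (Fin.last _))) Sum.inl (fun _ _ h => h) h2)
        have h3 := ih (fun i => V i.castSucc) (fun i => r i.castSucc) (fun i => e i.castSucc) 0
          (fun i hi => he _ fun hc => hi (Fin.castSucc_injective _ hc)) (fun i => h1 _) a ha.1
        have h4 := core2 ha (h1 (Fin.last _)) (he _ (Fin.last_pos).ne') h2
        rw [Fin.sum_univ_castSucc]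
        simp only [Fin.castSucc_zero] at h3
        omega
    | succ m =>
      have h2 : VLe (dj (r 0) (kj fun i : Fin k => r i.succ)) N :=
        VLe.hom (s := kj r) _ (fun x y => (kj_cons r x y).1) hN
      obtain ⟨a, ha⟩ := inv0_of_vle (VLe.hom (s := dj (r 0) (kj fun i : Fin k => r i.succ))
        Sum.inr (fun _ _ h => h) h2)
      have h3 := ih (fun i => V i.succ) (fun i => r i.succ) (fun i => e i.succ) m
        (fun i hi => he _ fun hc => hi (Fin.succ_injective _ hc)) (fun i => h1 _) a ha.1
      have h4 := core2' ha (h1 0) (he _ (Fin.succ_pos m).ne) h2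
      rw [Fin.sum_univ_succ]
      omega

end Pool.Agent.H2.Dij2
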