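import Pool.Agent.H2.Dij.Fin2

/-!
Joins with an arbitrary graph in any position, all the others of inversion number at most two.
-/

set_option autoImplicit false

namespace Pool.Agent.H2.Dij2

open Finset Matrix

/-- The opposite relation. -/
def rv {V : Type} (r : V → V → Prop) (a b : V) : Prop := r b a

lemma acy_swap {V : Type} {R S : V → V → Prop} (h : ∀ a b, S a b → R b a) (hR : Acy R) :
    Acy S := by
  intro v hv
  refine hR v ?_
  have key : ∀ a b, Relation.TransGen S a b → Relation.TransGen R b a := by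
    intro a b hab
    induction hab with
    | single h1 => exact Relation.TransGen.single (h _ _ h1)
    | tail _ h1 ih => exact Relation.TransGen.head (h _ _ h1) ih
  exact key v v hv

lemma acy_rv {V : Type} {r : V → V → Prop} {k : ℕ} {x : V → Fin k → ZMod 2}
    (h : Acy (Arc r x)) : Acy (Arc (rv r) x) := by
  refine acy_swap ?_ h
  rintro a b (⟨g1, g2⟩ | ⟨g1, g2⟩)
  · exact Or.inl ⟨g1, by rw [dotProduct_comm]; exact g2⟩
  · exact Or.inr ⟨g1, by rw [dotProduct_comm]; exact g2⟩

lemma VLe.rev {V : Type} {r : V → V → Prop} {k : ℕ} (h : VLe r k) : VLe (rv r) k :=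
  ⟨h.choose, acy_rv h.choose_spec⟩

lemma VEv.rev {V : Type} {r : V → V → Prop} {k : ℕ} (h : VEv r k) : VEv (rv r) k :=
  ⟨h.choose, acy_rv h.choose_spec.1, h.choose_spec.2⟩

lemma RLe.rev {V : Type} {r : V → V → Prop} {k : ℕ} (h : RLe r k) : RLe (rv r) k :=
  h.imp VLe.rev VEv.rev

lemma swap_hom {V W : Type} (s : W → W → Prop) (r : V → V → Prop) (x y : W ⊕ V)
    (h : dj s r x y) : rv (dj (rv r) (rv s)) (Sum.swap x) (Sum.swap y) := by
  rcases x with a | a <;> rcases y with b | b <;> exact h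

lemma VLe.dj_swap {V W : Type} {s : W → W → Prop} {r : V → V → Prop} {k : ℕ}
    (h : VLe (dj (rv r) (rv s)) k) : VLe (dj s r) k :=
  VLe.hom Sum.swap (swap_hom s r) h.rev

lemma VEv.dj_swap {V W : Type} {s : W → W → Prop} {r : V → V → Prop} {k : ℕ}
    (h : VEv (dj (rv r) (rv s)) k) : VEv (dj s r) k :=
  VEv.hom Sum.swap (swap_hom s r) h.rev

/-- The step on the left. -/
lemma stepL {V W : Type} (r : V → V → Prop) (s : W → W → Prop) (e k : ℕ) (he : e ≤ 2)
    (hs : ∀ j < e, ¬ VLe s j) (h : RLe (dj s r) k) : e ≤ k ∧ RLe r (k - e) := by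
  have h1 : RLe (dj (rv r) (rv s)) k :=
    h.imp (fun g => VLe.dj_swap (s := rv r) (r := rv s) g)
      (fun g => VEv.dj_swap (s := rv r) (r := rv s) g)
  obtain ⟨g1, g2⟩ := stepE (rv r) (rv s) e k he (fun j hj g => hs j hj g.rev) h1
  exact ⟨g1, g2.rev⟩

/-- `a` is the join of `r`, in some position, with graphs of inversion number at most two, the
inversion numbers of which add up to `S`. -/
inductive Around {V : Type} (r : V → V → Prop) : {K : Type} → (K → K → Prop) → ℕ → Prop
  | base : Around r r 0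
  | right {K W : Type} {a : K → K → Prop} {s : W → W → Prop} {S e : ℕ} (h : Around r a S)
      (he : e ≤ 2) (h1 : VLe s e) (h2 : ∀ j < e, ¬ VLe s j) : Around r (dj a s) (S + e)
  | left {K W : Type} {a : K → K → Prop} {s : W → W → Prop} {S e : ℕ} (h : Around r a S)
      (he : e ≤ 2) (h1 : VLe s e) (h2 : ∀ j < e, ¬ VLe s j) : Around r (dj s a) (S + e)
  | iso {K L : Type} {a : K → K → Prop} {b : L → L → Prop} {S : ℕ} (h : Around r a S)
      (g : L → K) (hg : ∀ x y, b x y → a (g x) (g y)) (f : K → L)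
      (hf : ∀ x y, a x y → b (f x) (f y)) : Around r b S

lemma Around.sub {V : Type} {r : V → V → Prop} {K : Type} {a : K → K → Prop} {S : ℕ}
    (h : Around r a S) : ∀ j, VLe a j → VLe r j := by
  induction h with
  | base => exact fun j h => h
  | @right K W a s S e _ _ _ _ ih =>
    exact fun j g => ih j (VLe.hom (s := dj a s) Sum.inl (fun _ _ h => h) g)
  | @left K W a s S e _ _ _ _ ih =>
    exact fun j g => ih j (VLe.hom (s := dj s a) Sum.inr (fun _ _ h => h) g)
  | iso _ g hg f hf ih => exact fun j k => ih j (VLe.hom f hf k)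

lemma Around.lower {V : Type} {r : V → V → Prop} {K : Type} {a : K → K → Prop} {S : ℕ}
    (h : Around r a S) : ∀ j, RLe a j → S ≤ j ∧ RLe r (j - S) := by
  induction h with
  | base => exact fun j h => ⟨Nat.zero_le _, h⟩
  | @right K W a s S e _ he _ h2 ih =>
    intro j g
    obtain ⟨g1, g2⟩ := stepE a s e j he h2 g
    obtain ⟨g3, g4⟩ := ih _ g2
    exact ⟨by omega, by rw [show j - (S + e) = j - e - S by omega]; exact g4⟩
  | @left K W a s S e _ he _ h2 ih =>
    intro j g
    obtain ⟨g1, g2⟩ := stepL a s e j he h2 g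
    obtain ⟨g3, g4⟩ := ih _ g2
    exact ⟨by omega, by rw [show j - (S + e) = j - e - S by omega]; exact g4⟩
  | iso _ g hg f hf ih => exact fun j k => ih j (RLe.hom f hf k)

lemma Around.upper {V : Type} {r : V → V → Prop} {K : Type} {a : K → K → Prop} {S : ℕ}
    (h : Around r a S) : ∀ l, VLe r l → VLe a (l + S) := by
  induction h with
  | base => exact fun j h => h
  | @right K W a s S e _ _ h1 _ ih =>
    intro l g
    rw [← add_assoc]
    exact vle_dj (ih l g) h1
  | @left K W a s S e _ _ h1 _ ih =>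
    intro l g
    rw [← add_assoc]
    exact VLe.dj_swap (vle_dj (ih l g).rev h1.rev)
  | iso _ g hg f hf ih => exact fun l k => VLe.hom g hg (ih l k)

lemma Around.even {V : Type} {r : V → V → Prop} {K : Type} {a : K → K → Prop} {S : ℕ}
    (h : Around r a S) : ∀ l, Odd l → VEv r l →
      (S = 0 → VEv a l) ∧ (1 ≤ S → VLe a (l + S - 1)) := by
  induction h with
  | base => exact fun l _ h => ⟨fun _ => h, fun h => absurd h (by omega)⟩
  | @right K W a s S e _ _ h1 _ ih =>
    intro l ho g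
    obtain ⟨g1, g2⟩ := ih l ho g
    refine ⟨fun h0 => ?_, fun h0 => ?_⟩
    · obtain ⟨rfl, rfl⟩ : S = 0 ∧ e = 0 := by omega
      exact vev_dj (g1 rfl) h1
    · rcases Nat.eq_zero_or_pos S with hS | hS
      · subst hS
        obtain ⟨e, rfl⟩ : ∃ t, e = t + 1 := ⟨e - 1, by omega⟩
        rw [show l + (0 + (e + 1)) - 1 = l + e by omega]
        exact vle_dj_even ho (g1 rfl) h1
      · rw [show l + (S + e) - 1 = l + S - 1 + e by omega]
        exact vle_dj (g2 hS) h1
  | @left K W a s S e _ _ h1 _ ih =>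
    intro l ho g
    obtain ⟨g1, g2⟩ := ih l ho g
    refine ⟨fun h0 => ?_, fun h0 => ?_⟩
    · obtain ⟨rfl, rfl⟩ : S = 0 ∧ e = 0 := by omega
      exact VEv.dj_swap (vev_dj (g1 rfl).rev h1.rev)
    · rcases Nat.eq_zero_or_pos S with hS | hS
      · subst hS
        obtain ⟨e, rfl⟩ : ∃ t, e = t + 1 := ⟨e - 1, by omega⟩
        rw [show l + (0 + (e + 1)) - 1 = l + e by omega]
        exact VLe.dj_swap (vle_dj_even ho (g1 rfl).rev h1.rev)
      · rw [show l + (S + e) - 1 = l + S - 1 + e by omega]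
        exact VLe.dj_swap (vle_dj (g2 hS).rev h1.rev)
  | iso _ g hg f hf ih =>
    intro l ho k
    obtain ⟨g1, g2⟩ := ih l ho k
    exact ⟨fun h0 => VEv.hom g hg (g1 h0), fun h0 => VLe.hom g hg (g2 h0)⟩

lemma Around.iso' {V : Type} {r : V → V → Prop} {K L : Type} {a : K → K → Prop}
    {b : L → L → Prop} {S : ℕ} (h : Around r a S) (f : K → L) (hf : Function.Surjective f)
    (hab : ∀ x y, a x y ↔ b (f x) (f y)) : Around r b S := by
  refine h.iso (Function.surjInv hf) ?_ f fun x y => (hab x y).1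
  intro x y hxy
  rw [hab, Function.surjInv_eq hf, Function.surjInv_eq hf]
  exact hxy

/-- The arcs of the join of a finite sequence of graphs. -/
def kj {k : ℕ} {V : Fin k → Type} (r : ∀ i, V i → V i → Prop) (p q : Σ i, V i) : Prop :=
  p.1 < q.1 ∨ ∃ (i : Fin k) (a b : V i), r i a b ∧ p = ⟨i, a⟩ ∧ q = ⟨i, b⟩

lemma kj_inner {k : ℕ} {V : Fin k → Type} (r : ∀ i, V i → V i → Prop) (i : Fin k)
    (a b : V i) : kj r ⟨i, a⟩ ⟨i, b⟩ ↔ r i a b := by
  constructor
  · rintro (h | ⟨j, c, d, h, h1, h2⟩)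
    · exact absurd h (lt_irrefl _)
    · obtain rfl : i = j := congrArg Sigma.fst h1
      obtain rfl : a = c := eq_of_heq (Sigma.mk.inj h1).2
      obtain rfl : b = d := eq_of_heq (Sigma.mk.inj h2).2
      exact h
  · intro h
    exact Or.inr ⟨i, a, b, h, rfl, rfl⟩

lemma kj_cross {k : ℕ} {V : Fin k → Type} (r : ∀ i, V i → V i → Prop) (i j : Fin k)
    (hij : i ≠ j) (a : V i) (b : V j) : kj r ⟨i, a⟩ ⟨j, b⟩ ↔ i < j := by
  constructor
  · rintro (h | ⟨l, c, d, h, h1, h2⟩)
    · exact h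
    · exact absurd ((congrArg Sigma.fst h1).trans (congrArg Sigma.fst h2).symm) hij
  · intro h
    exact Or.inl h

lemma kj_sub {k l : ℕ} {V : Fin k → Type} (r : ∀ i, V i → V i → Prop) (φ : Fin l → Fin k)
    (hφ : StrictMono φ) (p q : Σ i, V (φ i)) :
    kj (fun i => r (φ i)) p q ↔ kj r ⟨φ p.1, p.2⟩ ⟨φ q.1, q.2⟩ := by
  obtain ⟨i, a⟩ := p
  obtain ⟨j, b⟩ := q
  by_cases hij : i = j
  · subst hij
    rw [kj_inner, kj_inner]
  · rw [kj_cross _ _ _ hij, kj_cross _ _ _ (hφ.injective.ne hij)]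
    exact hφ.lt_iff_lt.symm

lemma kj_snoc {k : ℕ} {V : Fin (k + 1) → Type} (r : ∀ i, V i → V i → Prop)
    (x y : (Σ i : Fin k, V i.castSucc) ⊕ V (Fin.last k)) :
    dj (kj fun i : Fin k => r i.castSucc) (r (Fin.last k)) x y ↔
      kj r (Sum.elim (fun p => ⟨p.1.castSucc, p.2⟩) (fun a => ⟨Fin.last k, a⟩) x)
        (Sum.elim (fun p => ⟨p.1.castSucc, p.2⟩) (fun a => ⟨Fin.last k, a⟩) y) := by
  rcases x with p | a <;> rcases y with q | b
  · exact kj_sub r Fin.castSucc (Fin.strictMono_castSucc) p q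
  · simp only [Sum.elim_inl, Sum.elim_inr]
    rw [kj_cross _ _ _ (Fin.castSucc_lt_last _).ne]
    exact ⟨fun _ => Fin.castSucc_lt_last _, fun _ => trivial⟩
  · simp only [Sum.elim_inl, Sum.elim_inr]
    rw [kj_cross _ _ _ (Fin.castSucc_lt_last _).ne']
    exact ⟨fun h => h.elim, fun h => absurd h (Fin.castSucc_lt_last _).not_gt⟩
  · exact (kj_inner r _ a b).symm

lemma kj_cons {k : ℕ} {V : Fin (k + 1) → Type} (r : ∀ i, V i → V i → Prop)
    (x y : V 0 ⊕ (Σ i : Fin k, V i.succ)) :
    dj (r 0) (kj fun i : Fin k => r i.succ) x y ↔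
      kj r (Sum.elim (fun a => ⟨0, a⟩) (fun p => ⟨p.1.succ, p.2⟩) x)
        (Sum.elim (fun a => ⟨0, a⟩) (fun p => ⟨p.1.succ, p.2⟩) y) := by
  rcases x with a | p <;> rcases y with b | q
  · exact (kj_inner r _ a b).symm
  · simp only [Sum.elim_inl, Sum.elim_inr]
    rw [kj_cross _ _ _ (Fin.succ_pos _).ne]
    exact ⟨fun _ => Fin.succ_pos _, fun _ => trivial⟩
  · simp only [Sum.elim_inl, Sum.elim_inr]
    rw [kj_cross _ _ _ (Fin.succ_pos _).ne']
    exact ⟨fun h => h.elim, fun h => absurd h (Fin.succ_pos _).not_gt⟩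
  · exact kj_sub r Fin.succ (Fin.strictMono_succ) p q

lemma snoc_surj {k : ℕ} {V : Fin (k + 1) → Type} : Function.Surjective
    (Sum.elim (fun p => ⟨p.1.castSucc, p.2⟩) (fun a => ⟨Fin.last k, a⟩) :
      (Σ i : Fin k, V i.castSucc) ⊕ V (Fin.last k) → Σ i, V i) := by
  rintro ⟨i, a⟩
  induction i using Fin.lastCases with
  | last => exact ⟨Sum.inr a, rfl⟩
  | cast i => exact ⟨Sum.inl ⟨i, a⟩, rfl⟩

lemma cons_surj {k : ℕ} {V : Fin (k + 1) → Type} : Function.Surjective
    (Sum.elim (fun a => ⟨0, a⟩) (fun p => ⟨p.1.succ, p.2⟩) :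
      V 0 ⊕ (Σ i : Fin k, V i.succ) → Σ i, V i) := by
  rintro ⟨i, a⟩
  induction i using Fin.cases with
  | zero => exact ⟨Sum.inl a, rfl⟩
  | succ i => exact ⟨Sum.inr ⟨i, a⟩, rfl⟩

/-- The join of a sequence of graphs, seen from one of them. -/
lemma around_kj : ∀ (k : ℕ) (V : Fin k → Type) (r : ∀ i, V i → V i → Prop) (e : Fin k → ℕ)
    (m : Fin k), (∀ i, i ≠ m → e i ≤ 2) → (∀ i, VLe (r i) (e i)) →
    (∀ i, ∀ j < e i, ¬ VLe (r i) j) →
    ∃ S, S + e m = ∑ i, e i ∧ Around (r m) (kj r) S := by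
  intro k
  induction k with
  | zero => intro V r e m; exact m.elim0
  | succ k ih =>
    intro V r e m he h1 h2
    induction m using Fin.cases with
    | zero =>
      rcases k with _ | k
      · refine ⟨0, by simp, ?_⟩
        refine Around.iso' Around.base (fun a => ⟨0, a⟩) ?_ fun x y => (kj_inner r 0 x y).symm
        rintro ⟨i, a⟩
        obtain rfl : i = 0 := Fin.ext (by have := i.2; simp only [Fin.val_zero]; omega)
        exact ⟨a, rfl⟩
      · obtain ⟨S, hS, hA⟩ := ih (fun i => V i.castSucc) (fun i => r i.castSucc)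
          (fun i => e i.castSucc) 0 (fun i hi => he _ fun hc => hi (Fin.castSucc_injective _ hc))
          (fun i => h1 _) (fun i => h2 _)
        refine ⟨S + e (Fin.last _), ?_, ?_⟩
        · rw [Fin.sum_univ_castSucc, ← hS]
          simp only [Fin.castSucc_zero]
          ring
        · exact Around.iso' (hA.right (he _ (Fin.last_pos).ne') (h1 _) (h2 _)) _ snoc_surj
            (kj_snoc r)
    | succ m =>
      obtain ⟨S, hS, hA⟩ := ih (fun i => V i.succ) (fun i => r i.succ)
        (fun i => e i.succ) m (fun i hi => he _ fun hc => hi (Fin.succ_injective _ hc))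
        (fun i => h1 _) (fun i => h2 _)
      refine ⟨S + e 0, ?_, ?_⟩
      · rw [Fin.sum_univ_succ, ← hS]
        ring
      · exact Around.iso' (hA.left (he _ (Fin.succ_pos m).ne) (h1 _) (h2 _)) _ cons_surj
          (kj_cons r)

/-- Some number of inversions is enough. -/
lemma exists_vle {V : Type} [Finite V] (r : V → V → Prop) (hr : ∀ a b, r a b → ¬ r b a) :
    ∃ k, VLe r k := by
  classical
  obtain ⟨n, ⟨e⟩⟩ := Finite.exists_equiv_fin V
  let φ : Fin (n * n) ≃ Fin n × Fin n := finProdFinEquiv.symm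
  let P : Fin n × Fin n → V → Prop := fun p a =>
    p.1 < p.2 ∧ r (e.symm p.2) (e.symm p.1) ∧ (e a = p.1 ∨ e a = p.2)
  refine ⟨n * n, fun a i => if P (φ i) a then 1 else 0, acy_of_lt (A := Fin n) e ?_⟩
  have hdot : ∀ a b : V, e b < e a → ((fun i => if P (φ i) a then (1 : ZMod 2) else 0) ⬝ᵥ
      fun i => if P (φ i) b then (1 : ZMod 2) else 0) = if r a b then 1 else 0 := by
    intro a b hab
    rw [dotProduct, Equiv.sum_comp φ
      (fun p => (if P p a then (1 : ZMod 2) else 0) * (if P p b then (1 : ZMod 2) else 0))]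
    rw [Finset.sum_eq_single (e b, e a)]
    · by_cases hab' : r a b
      · simp [P, hab, hab']
      · simp [P, hab']
    · rintro ⟨u, v⟩ _ hne
      by_cases h1 : P (u, v) a
      · by_cases h2 : P (u, v) b
        · exfalso
          obtain ⟨h3, -, h4⟩ := h1
          obtain ⟨-, -, h5⟩ := h2
          simp only at h3 h4 h5
          apply hne
          rcases h4 with h4 | h4 <;> rcases h5 with h5 | h5
          · rw [h4, h5] at hab; exact absurd hab (lt_irrefl _)
          · rw [h4, h5] at hab; exact absurd hab h3.not_gt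
          · rw [h4, h5]
          · rw [h4, h5] at hab; exact absurd hab (lt_irrefl _)
        · simp [h2]
      · simp [h1]
    · intro h; exact absurd (Finset.mem_univ _) h
  intro a b hab
  by_contra hlt
  have hne : e a ≠ e b := by
    intro h
    have h' : a = b := e.injective h
    subst h'
    rcases hab with ⟨g, -⟩ | ⟨g, -⟩ <;> exact hr _ _ g g
  have hba : e b < e a := lt_of_le_of_ne (not_lt.1 hlt) hne.symm
  rcases hab with ⟨g1, g2⟩ | ⟨g1, g2⟩
  · rw [hdot a b hba, if_pos g1] at g2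
    exact absurd g2 (by decide)
  · rw [hdot a b hba, if_neg (hr _ _ g1)] at g2
    exact absurd g2 (by decide)

end Pool.Agent.H2.Dij2
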