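import Pool.Agent.H2.Dij.Sort

/-!
Arrangements of rank three in which all nonsingular triples are cyclic triangles.
-/

set_option autoImplicit false

namespace Pool.Agent.H2.Dij2

open Finset Matrix Module

/-- The determinant of order three. -/
def dn (a b c ab bc ac : ZMod 2) : ZMod 2 := a * b * c + a * bc + b * ac + c * ab

set_option synthInstance.maxSize 100000 in
set_option maxRecDepth 100000 in
lemma pos0 : ∀ g0 g1 g2 p α β γ : ZMod 2, dn g0 g1 g2 p p (p + 1) = 1 →
    (dn (α * g0 + β * g1 + γ * g2) g0 g1 (α * g0 + β * p + γ * (p + 1)) p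
        (α * p + β * g1 + γ * p) = 1 →
      α * g0 + β * p + γ * (p + 1) = p ∧
      α * p + β * g1 + γ * p = α * g0 + β * p + γ * (p + 1) + 1) →
    (dn (α * g0 + β * g1 + γ * g2) g0 g2 (α * g0 + β * p + γ * (p + 1)) (p + 1)
        (α * (p + 1) + β * p + γ * g2) = 1 →
      α * g0 + β * p + γ * (p + 1) = p + 1 ∧
      α * (p + 1) + β * p + γ * g2 = α * g0 + β * p + γ * (p + 1) + 1) →
    (dn (α * g0 + β * g1 + γ * g2) g1 g2 (α * p + β * g1 + γ * p) p
        (α * (p + 1) + β * p + γ * g2) = 1 →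
      α * p + β * g1 + γ * p = p ∧
      α * (p + 1) + β * p + γ * g2 = α * p + β * g1 + γ * p + 1) →
    β = 0 ∧ γ = 0 := by decide

set_option synthInstance.maxSize 100000 in
set_option maxRecDepth 100000 in
lemma pos1 : ∀ g0 g1 g2 p α β γ : ZMod 2, dn g0 g1 g2 p p (p + 1) = 1 →
    (dn g0 (α * g0 + β * g1 + γ * g2) g1 (α * g0 + β * p + γ * (p + 1))
        (α * p + β * g1 + γ * p) p = 1 →
      α * g0 + β * p + γ * (p + 1) = α * p + β * g1 + γ * p ∧
      p = α * g0 + β * p + γ * (p + 1) + 1) →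
    (dn g0 (α * g0 + β * g1 + γ * g2) g2 (α * g0 + β * p + γ * (p + 1))
        (α * (p + 1) + β * p + γ * g2) (p + 1) = 1 →
      α * g0 + β * p + γ * (p + 1) = α * (p + 1) + β * p + γ * g2 ∧
      p + 1 = α * g0 + β * p + γ * (p + 1) + 1) →
    (dn (α * g0 + β * g1 + γ * g2) g1 g2 (α * p + β * g1 + γ * p) p
        (α * (p + 1) + β * p + γ * g2) = 1 →
      α * p + β * g1 + γ * p = p ∧
      α * (p + 1) + β * p + γ * g2 = α * p + β * g1 + γ * p + 1) →
    γ = 0 ∧ α * β = 0 := by decide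

set_option synthInstance.maxSize 100000 in
set_option maxRecDepth 100000 in
lemma pos2 : ∀ g0 g1 g2 p α β γ : ZMod 2, dn g0 g1 g2 p p (p + 1) = 1 →
    (dn g0 g1 (α * g0 + β * g1 + γ * g2) p (α * p + β * g1 + γ * p)
        (α * g0 + β * p + γ * (p + 1)) = 1 →
      p = α * p + β * g1 + γ * p ∧
      α * g0 + β * p + γ * (p + 1) = p + 1) →
    (dn g0 (α * g0 + β * g1 + γ * g2) g2 (α * g0 + β * p + γ * (p + 1))
        (α * (p + 1) + β * p + γ * g2) (p + 1) = 1 →
      α * g0 + β * p + γ * (p + 1) = α * (p + 1) + β * p + γ * g2 ∧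
      p + 1 = α * g0 + β * p + γ * (p + 1) + 1) →
    (dn g1 (α * g0 + β * g1 + γ * g2) g2 (α * p + β * g1 + γ * p)
        (α * (p + 1) + β * p + γ * g2) p = 1 →
      α * p + β * g1 + γ * p = α * (p + 1) + β * p + γ * g2 ∧
      p = α * p + β * g1 + γ * p + 1) →
    α = 0 ∧ β * γ = 0 := by decide

set_option synthInstance.maxSize 100000 in
set_option maxRecDepth 100000 in
lemma pos3 : ∀ g0 g1 g2 p α β γ : ZMod 2, dn g0 g1 g2 p p (p + 1) = 1 →
    (dn g0 g1 (α * g0 + β * g1 + γ * g2) p (α * p + β * g1 + γ * p)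
        (α * g0 + β * p + γ * (p + 1)) = 1 →
      p = α * p + β * g1 + γ * p ∧
      α * g0 + β * p + γ * (p + 1) = p + 1) →
    (dn g0 g2 (α * g0 + β * g1 + γ * g2) (p + 1) (α * (p + 1) + β * p + γ * g2)
        (α * g0 + β * p + γ * (p + 1)) = 1 →
      p + 1 = α * (p + 1) + β * p + γ * g2 ∧
      α * g0 + β * p + γ * (p + 1) = p + 1 + 1) →
    (dn g1 g2 (α * g0 + β * g1 + γ * g2) p (α * (p + 1) + β * p + γ * g2)
        (α * p + β * g1 + γ * p) = 1 →
      p = α * (p + 1) + β * p + γ * g2 ∧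
      α * p + β * g1 + γ * p = p + 1) →
    α = 0 ∧ β = 0 := by decide

section

variable {V W U : Type} [AddCommGroup U] [Module (ZMod 2) U] [FiniteDimensional (ZMod 2) U]
  {r : V → V → Prop}
  {s : W → W → Prop} {B : U →ₗ[ZMod 2] U →ₗ[ZMod 2] ZMod 2} {v : V → U} {w : W → U}
  {lt : V ⊕ W → V ⊕ W → Prop}

/-- All nonsingular triples are cyclic triangles. -/
def Bad (B : U →ₗ[ZMod 2] U →ₗ[ZMod 2] ZMod 2) (w : W → U) (lt : V ⊕ W → V ⊕ W → Prop) : Prop :=
  ∀ c d e : W, lt (Sum.inr c) (Sum.inr d) → lt (Sum.inr d) (Sum.inr e) →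
    d3 B (w c) (w d) (w e) = 1 →
    B (w c) (w d) = B (w d) (w e) ∧ B (w c) (w e) = B (w c) (w d) + 1

/-- The four positions of a vertex with respect to a nonsingular triple. -/
lemma claim4 (A : Arr r s B v w lt) (hb : Bad B w lt) {a b c d : W}
    (hab : lt (Sum.inr a) (Sum.inr b)) (hbc : lt (Sum.inr b) (Sum.inr c))
    (h3 : d3 B (w a) (w b) (w c) = 1) {α β γ : ZMod 2}
    (hd : ∀ e, B (w d) (w e) = α * B (w a) (w e) + β * B (w b) (w e) + γ * B (w c) (w e)) :
    (lt (Sum.inr d) (Sum.inr a) → β = 0 ∧ γ = 0) ∧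
    (lt (Sum.inr a) (Sum.inr d) → lt (Sum.inr d) (Sum.inr b) → γ = 0 ∧ α * β = 0) ∧
    (lt (Sum.inr b) (Sum.inr d) → lt (Sum.inr d) (Sum.inr c) → α = 0 ∧ β * γ = 0) ∧
    (lt (Sum.inr c) (Sum.inr d) → α = 0 ∧ β = 0) := by
  have hac := A.lin.tr _ _ _ hab hbc
  obtain ⟨k1, k2⟩ := hb a b c hab hbc h3
  have S := A.symm
  obtain ⟨g0, e0⟩ : ∃ g, B (w a) (w a) = g := ⟨_, rfl⟩
  obtain ⟨g1, e1⟩ : ∃ g, B (w b) (w b) = g := ⟨_, rfl⟩
  obtain ⟨g2, e2⟩ : ∃ g, B (w c) (w c) = g := ⟨_, rfl⟩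
  obtain ⟨p, ep⟩ : ∃ g, B (w a) (w b) = g := ⟨_, rfl⟩
  have ebc : B (w b) (w c) = p := by rw [← k1, ep]
  have eac : B (w a) (w c) = p + 1 := by rw [k2, ep]
  have x1 : B (w d) (w a) = α * g0 + β * p + γ * (p + 1) := by
    rw [hd, e0, S (w b), ep, S (w c), eac]
  have x2 : B (w d) (w b) = α * p + β * g1 + γ * p := by
    rw [hd, e1, ep, S (w c), ebc]
  have x3 : B (w d) (w c) = α * (p + 1) + β * p + γ * g2 := by
    rw [hd, e2, eac, ebc]
  have x4 : B (w d) (w d) = α * g0 + β * g1 + γ * g2 := by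
    rw [hd, S (w a), S (w b), S (w c), x1, x2, x3]
    have id : ∀ g0 g1 g2 p α β γ : ZMod 2, α * (α * g0 + β * p + γ * (p + 1)) +
        β * (α * p + β * g1 + γ * p) + γ * (α * (p + 1) + β * p + γ * g2) =
        α * g0 + β * g1 + γ * g2 := by decide
    exact id _ _ _ _ _ _ _
  have y1 : B (w a) (w d) = α * g0 + β * p + γ * (p + 1) := by rw [S, x1]
  have y2 : B (w b) (w d) = α * p + β * g1 + γ * p := by rw [S, x2]
  have y3 : B (w c) (w d) = α * (p + 1) + β * p + γ * g2 := by rw [S, x3]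
  have h3' : dn g0 g1 g2 p p (p + 1) = 1 := by
    unfold d3 at h3
    rw [e0, e1, e2, ep, ebc, eac] at h3
    exact h3
  refine ⟨fun o => ?_, fun o o' => ?_, fun o o' => ?_, fun o => ?_⟩
  · refine pos0 g0 g1 g2 p α β γ h3' (fun h => ?_) (fun h => ?_) (fun h => ?_)
    · have := hb d a b o hab (by unfold d3; rw [x4, e0, e1, x1, ep, x2]; exact h)
      rw [x1, ep, x2] at this
      exact this
    · have := hb d a c o hac (by unfold d3; rw [x4, e0, e2, x1, eac, x3]; exact h)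
      rw [x1, eac, x3] at this
      exact this
    · have := hb d b c (A.lin.tr _ _ _ o hab) hbc
        (by unfold d3; rw [x4, e1, e2, x2, ebc, x3]; exact h)
      rw [x2, ebc, x3] at this
      exact this
  · refine pos1 g0 g1 g2 p α β γ h3' (fun h => ?_) (fun h => ?_) (fun h => ?_)
    · have := hb a d b o o' (by unfold d3; rw [x4, e0, e1, y1, x2, ep]; exact h)
      rw [y1, x2, ep] at this
      exact this
    · have := hb a d c o (A.lin.tr _ _ _ o' hbc)
        (by unfold d3; rw [x4, e0, e2, y1, x3, eac]; exact h)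
      rw [y1, x3, eac] at this
      exact this
    · have := hb d b c o' hbc (by unfold d3; rw [x4, e1, e2, x2, ebc, x3]; exact h)
      rw [x2, ebc, x3] at this
      exact this
  · refine pos2 g0 g1 g2 p α β γ h3' (fun h => ?_) (fun h => ?_) (fun h => ?_)
    · have := hb a b d hab o (by unfold d3; rw [x4, e0, e1, ep, y2, y1]; exact h)
      rw [ep, y2, y1] at this
      exact this
    · have := hb a d c (A.lin.tr _ _ _ hab o) o'
        (by unfold d3; rw [x4, e0, e2, y1, x3, eac]; exact h)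
      rw [y1, x3, eac] at this
      exact this
    · have := hb b d c o o' (by unfold d3; rw [x4, e1, e2, y2, x3, ebc]; exact h)
      rw [y2, x3, ebc] at this
      exact this
  · refine pos3 g0 g1 g2 p α β γ h3' (fun h => ?_) (fun h => ?_) (fun h => ?_)
    · have := hb a b d hab (A.lin.tr _ _ _ hbc o)
        (by unfold d3; rw [x4, e0, e1, ep, y2, y1]; exact h)
      rw [ep, y2, y1] at this
      exact this
    · have := hb a c d hac o (by unfold d3; rw [x4, e0, e2, eac, y3, y1]; exact h)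
      rw [eac, y3, y1] at this
      exact this
    · have := hb b c d hbc o (by unfold d3; rw [x4, e1, e2, ebc, y3, y2]; exact h)
      rw [ebc, y3, y2] at this
      exact this

end

end Pool.Agent.H2.Dij2
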