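import Pool.Agent.H2.Dij.Rank3

/-!
Arrangements of rank three, continued: three blocks and zero vertices.
-/

set_option autoImplicit false

namespace Pool.Agent.H2.Dij2

open Finset Matrix Module

section

variable {V W U : Type} [AddCommGroup U] [Module (ZMod 2) U] [FiniteDimensional (ZMod 2) U]
  {r : V → V → Prop}
  {s : W → W → Prop} {B : U →ₗ[ZMod 2] U →ₗ[ZMod 2] ZMod 2} {v : V → U} {w : W → U}
  {lt : V ⊕ W → V ⊕ W → Prop}

/-- The same products with all vertices of the second graph. -/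
def Same (B : U →ₗ[ZMod 2] U →ₗ[ZMod 2] ZMod 2) (w : W → U) (d a : W) : Prop :=
  ∀ e, B (w d) (w e) = B (w a) (w e)

/-- All products zero. -/
def Zer (B : U →ₗ[ZMod 2] U →ₗ[ZMod 2] ZMod 2) (w : W → U) (d : W) : Prop :=
  ∀ e, B (w d) (w e) = 0

/-- A nonsingular increasing triple which generates. -/
structure Tri (B : U →ₗ[ZMod 2] U →ₗ[ZMod 2] ZMod 2) (w : W → U) (lt : V ⊕ W → V ⊕ W → Prop)
    (a b c : W) : Prop where
  ab : lt (Sum.inr a) (Sum.inr b)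
  bc : lt (Sum.inr b) (Sum.inr c)
  det : d3 B (w a) (w b) (w c) = 1
  co : ∀ d, ∃ α β γ : ZMod 2, ∀ e,
    B (w d) (w e) = α * B (w a) (w e) + β * B (w b) (w e) + γ * B (w c) (w e)

lemma same_a (hB : ∀ a b, B a b = B b a) {a b c d : W} (h : Same B w d a) :
    d3 B (w d) (w b) (w c) = d3 B (w a) (w b) (w c) := by
  unfold d3
  rw [h d, h b, h c, hB (w a) (w d), h a]

lemma same_c (hB : ∀ a b, B a b = B b a) {a b c d : W} (h : Same B w d c) :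
    d3 B (w a) (w b) (w d) = d3 B (w a) (w b) (w c) := by
  unfold d3
  rw [hB (w b) (w d), hB (w a) (w d), h d, h b, h a, hB (w c) (w d), h c, hB (w c) (w b),
    hB (w c) (w a)]

lemma ne_ab (hB : ∀ a b, B a b = B b a) {a b c : W} (h3 : d3 B (w a) (w b) (w c) = 1) :
    ¬ Same B w b a := by
  intro h
  unfold d3 at h3
  rw [h c, h b, hB (w a) (w b), h a] at h3
  generalize B (w a) (w a) = x at h3
  generalize B (w a) (w c) = y at h3
  generalize B (w c) (w c) = z at h3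
  revert h3; revert x y z; decide

lemma ne_bc (hB : ∀ a b, B a b = B b a) {a b c : W} (h3 : d3 B (w a) (w b) (w c) = 1) :
    ¬ Same B w c b := by
  intro h
  refine ne_ab hB (a := b) (b := c) (c := a) ?_ h
  rw [← h3]
  unfold d3
  rw [hB (w c) (w a), hB (w b) (w a)]
  ring

lemma ne_ac (hB : ∀ a b, B a b = B b a) {a b c : W} (h3 : d3 B (w a) (w b) (w c) = 1) :
    ¬ Same B w c a := by
  intro h
  refine ne_ab hB (a := a) (b := c) (c := b) ?_ h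
  rw [← h3]
  unfold d3
  rw [hB (w c) (w b)]
  ring

lemma Same.symm' {a d : W} (h : Same B w d a) : Same B w a d := fun e => (h e).symm

/-- The four types of vertices. -/
lemma Tri.types (A : Arr r s B v w lt) (hb : Bad B w lt) {a b c : W} (T : Tri B w lt a b c)
    (d : W) : Zer B w d ∨ Same B w d a ∨ Same B w d b ∨ Same B w d c := by
  obtain ⟨α, β, γ, hd⟩ := T.co d
  obtain ⟨c1, c2, c3, c4⟩ := claim4 A hb T.ab T.bc T.det hd
  by_cases ha : d = a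
  · exact Or.inr (Or.inl fun e => by rw [ha])
  by_cases hb' : d = b
  · exact Or.inr (Or.inr (Or.inl fun e => by rw [hb']))
  by_cases hc : d = c
  · exact Or.inr (Or.inr (Or.inr fun e => by rw [hc]))
  have key : (α = 0 ∧ β = 0 ∧ γ = 0) ∨ (α = 1 ∧ β = 0 ∧ γ = 0) ∨ (α = 0 ∧ β = 1 ∧ γ = 0) ∨
      (α = 0 ∧ β = 0 ∧ γ = 1) := by
    have hn : ∀ {x y : W}, x ≠ y → lt (Sum.inr x) (Sum.inr y) ∨ lt (Sum.inr y) (Sum.inr x) :=
      fun h => A.lin.tot _ _ fun h' => h (Sum.inr_injective h')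
    have d1 : ∀ α β γ : ZMod 2, β = 0 → γ = 0 → (α = 0 ∧ β = 0 ∧ γ = 0) ∨
        (α = 1 ∧ β = 0 ∧ γ = 0) ∨ (α = 0 ∧ β = 1 ∧ γ = 0) ∨ (α = 0 ∧ β = 0 ∧ γ = 1) := by decide
    have d2 : ∀ α β γ : ZMod 2, γ = 0 → α * β = 0 → (α = 0 ∧ β = 0 ∧ γ = 0) ∨
        (α = 1 ∧ β = 0 ∧ γ = 0) ∨ (α = 0 ∧ β = 1 ∧ γ = 0) ∨ (α = 0 ∧ β = 0 ∧ γ = 1) := by decide
    have d3 : ∀ α β γ : ZMod 2, α = 0 → β * γ = 0 → (α = 0 ∧ β = 0 ∧ γ = 0) ∨
        (α = 1 ∧ β = 0 ∧ γ = 0) ∨ (α = 0 ∧ β = 1 ∧ γ = 0) ∨ (α = 0 ∧ β = 0 ∧ γ = 1) := by decide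
    have d4 : ∀ α β γ : ZMod 2, α = 0 → β = 0 → (α = 0 ∧ β = 0 ∧ γ = 0) ∨
        (α = 1 ∧ β = 0 ∧ γ = 0) ∨ (α = 0 ∧ β = 1 ∧ γ = 0) ∨ (α = 0 ∧ β = 0 ∧ γ = 1) := by decide
    rcases hn ha with o | o
    · exact d1 _ _ _ (c1 o).1 (c1 o).2
    rcases hn hb' with o' | o'
    · exact d2 _ _ _ (c2 o o').1 (c2 o o').2
    rcases hn hc with o'' | o''
    · exact d3 _ _ _ (c3 o' o'').1 (c3 o' o'').2
    · exact d4 _ _ _ (c4 o'').1 (c4 o'').2
  rcases key with ⟨rfl, rfl, rfl⟩ | ⟨rfl, rfl, rfl⟩ | ⟨rfl, rfl, rfl⟩ | ⟨rfl, rfl, rfl⟩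
  · exact Or.inl fun e => by rw [hd]; ring
  · exact Or.inr (Or.inl fun e => by rw [hd]; ring)
  · exact Or.inr (Or.inr (Or.inl fun e => by rw [hd]; ring))
  · exact Or.inr (Or.inr (Or.inr fun e => by rw [hd]; ring))

lemma Tri.P_lt (A : Arr r s B v w lt) (hb : Bad B w lt) {a b c : W} (T : Tri B w lt a b c)
    {d : W} (h : Same B w d a) : lt (Sum.inr d) (Sum.inr b) := by
  obtain ⟨-, -, c3, c4⟩ := claim4 A hb T.ab T.bc T.det (d := d) (α := 1) (β := 0) (γ := 0)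
    (fun e => by rw [h e]; ring)
  have hn : ∀ {x y : W}, x ≠ y → lt (Sum.inr x) (Sum.inr y) ∨ lt (Sum.inr y) (Sum.inr x) :=
    fun h => A.lin.tot _ _ fun h' => h (Sum.inr_injective h')
  have h1 : d ≠ b := by rintro rfl; exact ne_ab A.symm T.det h
  rcases hn h1 with o | o
  · exact o
  · have h2 : d ≠ c := by rintro rfl; exact ne_ac A.symm T.det h
    rcases hn h2 with o' | o'
    · exact absurd (c3 o o').1 (by decide)
    · exact absurd (c4 o').1 (by decide)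

lemma Tri.R_lt (A : Arr r s B v w lt) (hb : Bad B w lt) {a b c : W} (T : Tri B w lt a b c)
    {d : W} (h : Same B w d c) : lt (Sum.inr b) (Sum.inr d) := by
  obtain ⟨c1, c2, -, -⟩ := claim4 A hb T.ab T.bc T.det (d := d) (α := 0) (β := 0) (γ := 1)
    (fun e => by rw [h e]; ring)
  have hn : ∀ {x y : W}, x ≠ y → lt (Sum.inr x) (Sum.inr y) ∨ lt (Sum.inr y) (Sum.inr x) :=
    fun h => A.lin.tot _ _ fun h' => h (Sum.inr_injective h')
  have h1 : d ≠ b := by rintro rfl; exact ne_bc A.symm T.det h.symm'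
  rcases hn h1 with o | o
  · have h2 : d ≠ a := by rintro rfl; exact ne_ac A.symm T.det h.symm'
    rcases hn h2 with o' | o'
    · exact absurd (c1 o').2 (by decide)
    · exact absurd (c2 o' o).1 (by decide)
  · exact o

lemma Tri.Q_lt (A : Arr r s B v w lt) (hb : Bad B w lt) {a b c : W} (T : Tri B w lt a b c)
    {d : W} (h : Same B w d b) :
    lt (Sum.inr a) (Sum.inr d) ∧ lt (Sum.inr d) (Sum.inr c) := by
  obtain ⟨c1, -, -, c4⟩ := claim4 A hb T.ab T.bc T.det (d := d) (α := 0) (β := 1) (γ := 0)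
    (fun e => by rw [h e]; ring)
  have hn : ∀ {x y : W}, x ≠ y → lt (Sum.inr x) (Sum.inr y) ∨ lt (Sum.inr y) (Sum.inr x) :=
    fun h => A.lin.tot _ _ fun h' => h (Sum.inr_injective h')
  have h1 : a ≠ d := by rintro rfl; exact ne_ab A.symm T.det h.symm'
  have h2 : d ≠ c := by rintro rfl; exact ne_bc A.symm T.det h
  refine ⟨?_, ?_⟩
  · rcases hn h1 with o | o
    · exact o
    · exact absurd (c1 o).1 (by decide)
  · rcases hn h2 with o | o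
    · exact o
    · exact absurd (c4 o).2 (by decide)

lemma Tri.PQ (A : Arr r s B v w lt) (hb : Bad B w lt) {a b c : W} (T : Tri B w lt a b c)
    {d e : W} (h : Same B w d a) (h' : Same B w e b) : lt (Sum.inr d) (Sum.inr e) := by
  have hn : ∀ {x y : W}, x ≠ y → lt (Sum.inr x) (Sum.inr y) ∨ lt (Sum.inr y) (Sum.inr x) :=
    fun h => A.lin.tot _ _ fun h' => h (Sum.inr_injective h')
  have h1 : d ≠ e := by
    rintro rfl
    exact ne_ab A.symm T.det fun e => by rw [← h' e, h e]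
  rcases hn h1 with o | o
  · exact o
  · obtain ⟨c1, -, -, -⟩ := claim4 A hb (T.P_lt A hb h) T.bc (by rw [same_a A.symm h]; exact T.det)
      (d := e) (α := 0) (β := 1) (γ := 0) (fun x => by rw [h' x]; ring)
    exact absurd (c1 o).1 (by decide)

lemma Tri.QR (A : Arr r s B v w lt) (hb : Bad B w lt) {a b c : W} (T : Tri B w lt a b c)
    {d e : W} (h : Same B w d b) (h' : Same B w e c) : lt (Sum.inr d) (Sum.inr e) := by
  have hn : ∀ {x y : W}, x ≠ y → lt (Sum.inr x) (Sum.inr y) ∨ lt (Sum.inr y) (Sum.inr x) :=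
    fun h => A.lin.tot _ _ fun h' => h (Sum.inr_injective h')
  have h1 : d ≠ e := by
    rintro rfl
    exact ne_bc A.symm T.det fun e => by rw [← h' e, h e]
  rcases hn h1 with o | o
  · exact o
  · obtain ⟨-, -, -, c4⟩ := claim4 A hb T.ab (T.R_lt A hb h')
      (by rw [same_c A.symm h']; exact T.det)
      (d := d) (α := 0) (β := 1) (γ := 0) (fun x => by rw [h x]; ring)
    exact absurd (c4 o).2 (by decide)

lemma Tri.PR (A : Arr r s B v w lt) (hb : Bad B w lt) {a b c : W} (T : Tri B w lt a b c)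
    {d e : W} (h : Same B w d a) (h' : Same B w e c) : lt (Sum.inr d) (Sum.inr e) :=
  A.lin.tr _ _ _ (T.P_lt A hb h) (T.R_lt A hb h')

lemma srt3 (A : Arr r s B v w lt) {a b c : W} (h1 : lt (Sum.inr a) (Sum.inr b))
    (h2 : lt (Sum.inr b) (Sum.inr c)) : Srt lt ![a, b, c] := by
  have h12 := A.lin.tr _ _ _ h1 h2
  intro i j hij
  fin_cases i <;> fin_cases j <;>
    first
    | exact absurd hij (by decide)
    | exact h1
    | exact h2
    | exact h12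

lemma srt4 (A : Arr r s B v w lt) {a b c d : W} (h1 : lt (Sum.inr a) (Sum.inr b))
    (h2 : lt (Sum.inr b) (Sum.inr c)) (h3 : lt (Sum.inr c) (Sum.inr d)) :
    Srt lt ![a, b, c, d] := by
  have h12 := A.lin.tr _ _ _ h1 h2
  have h23 := A.lin.tr _ _ _ h2 h3
  have h123 := A.lin.tr _ _ _ h12 h3
  intro i j hij
  fin_cases i <;> fin_cases j <;>
    first
    | exact absurd hij (by decide)
    | exact h1
    | exact h2
    | exact h3
    | exact h12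
    | exact h23
    | exact h123

lemma nd_triple (hB : ∀ a b, B a b = B b a) {a b c : W} (h3 : d3 B (w a) (w b) (w c) = 1) :
    ND B (Submodule.span (ZMod 2) (Set.range fun i => w ((![a, b, c] : Fin 3 → W) i))) 3 := by
  have e : (fun i => w ((![a, b, c] : Fin 3 → W) i)) = ![w a, w b, w c] := by
    funext i
    fin_cases i <;> rfl
  rw [e]
  exact nd3 hB _ _ _ h3

end

lemma hex1 (F : Fin 4 → Fin 4 → ZMod 2) (_ : ∀ i j, F i j = F j i) (h0 : ∀ j, F 0 j = 0) :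
    ∃ (m : Fin 5 → ZMod 2) (ζ : ZMod 2), ∀ i j k, i < j → j < k →
      ¬ (F ((![0, 1, 1, 2, 3] : Fin 5 → Fin 4) i) ((![0, 1, 1, 2, 3] : Fin 5 → Fin 4) j) +
        (m i * (![0, 0, 1, 1, 1] : Fin 5 → ZMod 2) j + (![0, 0, 1, 1, 1] : Fin 5 → ZMod 2) i * m j +
          ζ * ((![0, 0, 1, 1, 1] : Fin 5 → ZMod 2) i * (![0, 0, 1, 1, 1] : Fin 5 → ZMod 2) j)) =
        F ((![0, 1, 1, 2, 3] : Fin 5 → Fin 4) j) ((![0, 1, 1, 2, 3] : Fin 5 → Fin 4) k) +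
        (m j * (![0, 0, 1, 1, 1] : Fin 5 → ZMod 2) k + (![0, 0, 1, 1, 1] : Fin 5 → ZMod 2) j * m k +
          ζ * ((![0, 0, 1, 1, 1] : Fin 5 → ZMod 2) j * (![0, 0, 1, 1, 1] : Fin 5 → ZMod 2) k)) ∧
        F ((![0, 1, 1, 2, 3] : Fin 5 → Fin 4) i) ((![0, 1, 1, 2, 3] : Fin 5 → Fin 4) k) +
        (m i * (![0, 0, 1, 1, 1] : Fin 5 → ZMod 2) k + (![0, 0, 1, 1, 1] : Fin 5 → ZMod 2) i * m k +
          ζ * ((![0, 0, 1, 1, 1] : Fin 5 → ZMod 2) i * (![0, 0, 1, 1, 1] : Fin 5 → ZMod 2) k)) =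
        F ((![0, 1, 1, 2, 3] : Fin 5 → Fin 4) i) ((![0, 1, 1, 2, 3] : Fin 5 → Fin 4) j) +
        (m i * (![0, 0, 1, 1, 1] : Fin 5 → ZMod 2) j + (![0, 0, 1, 1, 1] : Fin 5 → ZMod 2) i * m j +
          ζ * ((![0, 0, 1, 1, 1] : Fin 5 → ZMod 2) i * (![0, 0, 1, 1, 1] : Fin 5 → ZMod 2) j)) +
          1) := by
  obtain ⟨p, q, c, t, u, h1, h2, h3, h4⟩ := fixz1 (F 1 1) (F 1 2) (F 1 3) (F 2 3)
  refine ⟨![0, p, q, c, t], u, ?_⟩
  intro i j k hij hjk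
  rcases tri5 i j k hij hjk with rfl | ⟨rfl, rfl, rfl⟩ | ⟨rfl, rfl, rfl⟩ | ⟨rfl, rfl, rfl⟩ |
    ⟨rfl, rfl, rfl⟩
  · rintro ⟨-, g⟩
    simp [h0] at g
  · simpa using h1
  · simpa using h2
  · simpa using h3
  · simpa using h4

lemma hex2 (F : Fin 4 → Fin 4 → ZMod 2) (_ : ∀ i j, F i j = F j i) (h0 : ∀ j, F 0 j = 0) :
    ∃ (m : Fin 5 → ZMod 2) (ζ : ZMod 2), ∀ i j k, i < j → j < k →
      ¬ (F ((![0, 1, 2, 2, 3] : Fin 5 → Fin 4) i) ((![0, 1, 2, 2, 3] : Fin 5 → Fin 4) j) +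
        (m i * (![0, 0, 0, 1, 1] : Fin 5 → ZMod 2) j + (![0, 0, 0, 1, 1] : Fin 5 → ZMod 2) i * m j +
          ζ * ((![0, 0, 0, 1, 1] : Fin 5 → ZMod 2) i * (![0, 0, 0, 1, 1] : Fin 5 → ZMod 2) j)) =
        F ((![0, 1, 2, 2, 3] : Fin 5 → Fin 4) j) ((![0, 1, 2, 2, 3] : Fin 5 → Fin 4) k) +
        (m j * (![0, 0, 0, 1, 1] : Fin 5 → ZMod 2) k + (![0, 0, 0, 1, 1] : Fin 5 → ZMod 2) j * m k +
          ζ * ((![0, 0, 0, 1, 1] : Fin 5 → ZMod 2) j * (![0, 0, 0, 1, 1] : Fin 5 → ZMod 2) k)) ∧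
        F ((![0, 1, 2, 2, 3] : Fin 5 → Fin 4) i) ((![0, 1, 2, 2, 3] : Fin 5 → Fin 4) k) +
        (m i * (![0, 0, 0, 1, 1] : Fin 5 → ZMod 2) k + (![0, 0, 0, 1, 1] : Fin 5 → ZMod 2) i * m k +
          ζ * ((![0, 0, 0, 1, 1] : Fin 5 → ZMod 2) i * (![0, 0, 0, 1, 1] : Fin 5 → ZMod 2) k)) =
        F ((![0, 1, 2, 2, 3] : Fin 5 → Fin 4) i) ((![0, 1, 2, 2, 3] : Fin 5 → Fin 4) j) +
        (m i * (![0, 0, 0, 1, 1] : Fin 5 → ZMod 2) j + (![0, 0, 0, 1, 1] : Fin 5 → ZMod 2) i * m j +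
          ζ * ((![0, 0, 0, 1, 1] : Fin 5 → ZMod 2) i * (![0, 0, 0, 1, 1] : Fin 5 → ZMod 2) j)) +
          1) := by
  obtain ⟨p, q, c, t, u, h1, h2, h3, h4⟩ := fixz2 (F 1 2) (F 1 3) (F 2 2) (F 2 3)
  refine ⟨![0, p, q, c, t], u, ?_⟩
  intro i j k hij hjk
  rcases tri5 i j k hij hjk with rfl | ⟨rfl, rfl, rfl⟩ | ⟨rfl, rfl, rfl⟩ | ⟨rfl, rfl, rfl⟩ |
    ⟨rfl, rfl, rfl⟩
  · rintro ⟨-, g⟩
    simp [h0] at g
  · simpa using h1
  · simpa using h2
  · simpa using h3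
  · simpa using h4

end Pool.Agent.H2.Dij2
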