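import Pool.Agent.H2.Dij.Rank3b

/-!
Arrangements of rank three, end: a zero vertex inside, or one inversion is enough.
-/

set_option autoImplicit false

namespace Pool.Agent.H2.Dij2

open Finset Matrix Module

lemma key1 : ∀ (g : Fin 4) (g' : Fin 5), (0 < g.val ↔ 0 < g'.val) → (1 < g.val ↔ 2 < g'.val) →
    (2 < g.val ↔ 3 < g'.val) → g = (![0, 1, 1, 2, 3] : Fin 5 → Fin 4) g' := by decide

lemma key2 : ∀ (g : Fin 4) (g' : Fin 5), (0 < g.val ↔ 0 < g'.val) → (1 < g.val ↔ 1 < g'.val) →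
    (2 < g.val ↔ 3 < g'.val) → g = (![0, 1, 2, 2, 3] : Fin 5 → Fin 4) g' := by decide

lemma key3 : ∀ g' : Fin 5, (if 1 < g'.val then (1 : ZMod 2) else 0) =
    (![0, 0, 1, 1, 1] : Fin 5 → ZMod 2) g' := by decide

lemma key4 : ∀ g' : Fin 5, (if 2 < g'.val then (1 : ZMod 2) else 0) =
    (![0, 0, 0, 1, 1] : Fin 5 → ZMod 2) g' := by decide

/-- The products of the five classes. -/
def MM (g0 g1 g2 p : ZMod 2) : Fin 5 → Fin 5 → ZMod 2 :=
  ![![0, 0, 0, 0, 0], ![0, g0, p, p + 1, 0], ![0, p, g1, p, 0], ![0, p + 1, p, g2, 0],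
    ![0, 0, 0, 0, 0]]

/-- The inversion. -/
def ff : Fin 5 → ZMod 2 := ![0, 1, 0, 1, 0]

lemma MM_symm : ∀ g0 g1 g2 p : ZMod 2, ∀ i j, MM g0 g1 g2 p i j = MM g0 g1 g2 p j i := by
  unfold MM; decide

lemma MM_zero : ∀ g0 g1 g2 p : ZMod 2, ∀ j, MM g0 g1 g2 p 0 j = 0 := by unfold MM; decide

lemma MM_tri (g0 g1 g2 p : ZMod 2) : ∀ i j k, i < j → j < k →
    ¬ (MM g0 g1 g2 p i j + ff i * ff j = MM g0 g1 g2 p j k + ff j * ff k ∧
      MM g0 g1 g2 p i k + ff i * ff k = MM g0 g1 g2 p i j + ff i * ff j + 1) := by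
  intro i j k hij hjk
  rcases tri5 i j k hij hjk with rfl | ⟨rfl, rfl, rfl⟩ | ⟨rfl, rfl, rfl⟩ | ⟨rfl, rfl, rfl⟩ |
    ⟨rfl, rfl, rfl⟩
  · rintro ⟨-, g⟩
    rw [MM_zero, MM_zero, show ff 0 = 0 from rfl] at g
    simp at g
  · show ¬ (p + 1 * 0 = p + 0 * 1 ∧ p + 1 + 1 * 1 = p + 1 * 0 + 1)
    revert p; decide
  · show ¬ (p + 1 * 0 = 0 + 0 * 0 ∧ 0 + 1 * 0 = p + 1 * 0 + 1)
    revert p; decide
  · show ¬ (p + 1 + 1 * 1 = 0 + 1 * 0 ∧ 0 + 1 * 0 = p + 1 + 1 * 1 + 1)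
    revert p; decide
  · show ¬ (p + 0 * 1 = 0 + 1 * 0 ∧ 0 + 0 * 0 = p + 0 * 1 + 1)
    revert p; decide

section

variable {V W U : Type} [AddCommGroup U] [Module (ZMod 2) U] [FiniteDimensional (ZMod 2) U]
  {r : V → V → Prop}
  {s : W → W → Prop} {B : U →ₗ[ZMod 2] U →ₗ[ZMod 2] ZMod 2} {v : V → U} {w : W → U}
  {lt : V ⊕ W → V ⊕ W → Prop}

lemma zer_orth (hB : ∀ a b, B a b = B b a) {z : W} (hz : Zer B w z) {m : ℕ} (T : Fin m → W) :
    w z ∈ orth B (Submodule.span (ZMod 2) (Set.range fun i => w (T i))) := by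
  intro t ht
  have : B t (w z) = B t 0 := by
    refine span_eq ?_ t ht
    rintro _ ⟨i, rfl⟩
    rw [hB, hz, map_zero]
  rw [this, map_zero]

lemma inner1 (A : Arr r s B v w lt) {k : ℕ} (hk : finrank (ZMod 2) U ≤ k + 3) {a b c z : W}
    (h1 : lt (Sum.inr a) (Sum.inr z)) (h2 : lt (Sum.inr z) (Sum.inr b))
    (h3 : lt (Sum.inr b) (Sum.inr c)) (hd : d3 B (w a) (w b) (w c) = 1) (hz : Zer B w z) :
    FLe r k := by
  have hT := srt3 A (A.lin.tr _ _ _ h1 h2) h3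
  have hT' := srt4 A h1 h2 h3
  refine gainz A hk hT (nd_triple A.symm hd) z (zer_orth A.symm hz _) (hz z)
    (gap lt ![a, z, b, c]) (gap_mono A _) ![0, 1, 1, 2, 3] ?_ ![0, 0, 1, 1, 1] ?_ hex1
  · intro u
    exact key1 _ _ ((gap_spec A hT u 0).symm.trans (gap_spec A hT' u 0))
      ((gap_spec A hT u 1).symm.trans (gap_spec A hT' u 2))
      ((gap_spec A hT u 2).symm.trans (gap_spec A hT' u 3))
  · intro u
    rw [A.symm]
    exact (gap_val A hT' u 1).trans (key3 _)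

lemma inner2 (A : Arr r s B v w lt) {k : ℕ} (hk : finrank (ZMod 2) U ≤ k + 3) {a b c z : W}
    (h1 : lt (Sum.inr a) (Sum.inr b)) (h2 : lt (Sum.inr b) (Sum.inr z))
    (h3 : lt (Sum.inr z) (Sum.inr c)) (hd : d3 B (w a) (w b) (w c) = 1) (hz : Zer B w z) :
    FLe r k := by
  have hT := srt3 A h1 (A.lin.tr _ _ _ h2 h3)
  have hT' := srt4 A h1 h2 h3
  refine gainz A hk hT (nd_triple A.symm hd) z (zer_orth A.symm hz _) (hz z)
    (gap lt ![a, b, z, c]) (gap_mono A _) ![0, 1, 2, 2, 3] ?_ ![0, 0, 0, 1, 1] ?_ hex2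
  · intro u
    exact key2 _ _ ((gap_spec A hT u 0).symm.trans (gap_spec A hT' u 0))
      ((gap_spec A hT u 1).symm.trans (gap_spec A hT' u 1))
      ((gap_spec A hT u 2).symm.trans (gap_spec A hT' u 3))
  · intro u
    rw [A.symm]
    exact (gap_val A hT' u 2).trans (key4 _)

lemma same_val (hB : ∀ a b, B a b = B b a) {d e x y : W} (h : Same B w d x)
    (h' : Same B w e y) : B (w d) (w e) = B (w x) (w y) :=
  (h e).trans ((hB _ _).trans ((h' x).trans (hB _ _)))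

/-- Without a zero vertex inside, one inversion is enough. -/
lemma noinner (A : Arr r s B v w lt) (hb : Bad B w lt) {a b c : W} (T : Tri B w lt a b c)
    (hno : ∀ z, Zer B w z → (∃ x, ¬ Zer B w x ∧ lt (Sum.inr x) (Sum.inr z)) →
      ∀ y, ¬ Zer B w y → ¬ lt (Sum.inr z) (Sum.inr y)) : VLe s 1 := by
  classical
  have S := A.symm
  obtain ⟨k1, k2⟩ := hb a b c T.ab T.bc T.det
  obtain ⟨g0, e0⟩ : ∃ g, B (w a) (w a) = g := ⟨_, rfl⟩
  obtain ⟨g1, e1⟩ : ∃ g, B (w b) (w b) = g := ⟨_, rfl⟩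
  obtain ⟨g2, e2⟩ : ∃ g, B (w c) (w c) = g := ⟨_, rfl⟩
  obtain ⟨p, ep⟩ : ∃ g, B (w a) (w b) = g := ⟨_, rfl⟩
  have ebc : B (w b) (w c) = p := by rw [← k1, ep]
  have eac : B (w a) (w c) = p + 1 := by rw [k2, ep]
  have eba : B (w b) (w a) = p := by rw [S, ep]
  have ecb : B (w c) (w b) = p := by rw [S, ebc]
  have eca : B (w c) (w a) = p + 1 := by rw [S, eac]
  let g : W → Fin 5 := fun d =>
    if Zer B w d then (if ∃ x, ¬ Zer B w x ∧ lt (Sum.inr x) (Sum.inr d) then 4 else 0)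
    else if Same B w d a then 1 else if Same B w d b then 2 else 3
  have hc : ∀ d, (g d = 1 ∧ ¬ Zer B w d ∧ Same B w d a) ∨ (g d = 2 ∧ ¬ Zer B w d ∧ Same B w d b) ∨
      (g d = 3 ∧ ¬ Zer B w d ∧ Same B w d c) ∨
      (g d = 4 ∧ Zer B w d ∧ ∃ x, ¬ Zer B w x ∧ lt (Sum.inr x) (Sum.inr d)) ∨
      (g d = 0 ∧ Zer B w d ∧ ¬ ∃ x, ¬ Zer B w x ∧ lt (Sum.inr x) (Sum.inr d)) := by
    intro d
    by_cases h0 : Zer B w d
    · by_cases hx : ∃ x, ¬ Zer B w x ∧ lt (Sum.inr x) (Sum.inr d)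
      · exact Or.inr (Or.inr (Or.inr (Or.inl ⟨by simp only [g, if_pos h0, if_pos hx], h0, hx⟩)))
      · exact Or.inr (Or.inr (Or.inr (Or.inr ⟨by simp only [g, if_pos h0, if_neg hx], h0, hx⟩)))
    · by_cases h1 : Same B w d a
      · exact Or.inl ⟨by simp only [g, if_neg h0, if_pos h1], h0, h1⟩
      · by_cases h2 : Same B w d b
        · exact Or.inr (Or.inl ⟨by simp only [g, if_neg h0, if_neg h1, if_pos h2], h0, h2⟩)
        · have h3 : Same B w d c := by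
            rcases T.types A hb d with h | h | h | h
            · exact (h0 h).elim
            · exact (h1 h).elim
            · exact (h2 h).elim
            · exact h
          exact Or.inr (Or.inr (Or.inl
            ⟨by simp only [g, if_neg h0, if_neg h1, if_neg h2], h0, h3⟩))
  have hval : ∀ d e, B (w d) (w e) = MM g0 g1 g2 p (g d) (g e) := by
    intro d e
    rcases hc d with ⟨i1, -, i2⟩ | ⟨i1, -, i2⟩ | ⟨i1, -, i2⟩ | ⟨i1, i2, -⟩ | ⟨i1, i2, -⟩ <;>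
      rcases hc e with ⟨j1, -, j2⟩ | ⟨j1, -, j2⟩ | ⟨j1, -, j2⟩ | ⟨j1, j2, -⟩ | ⟨j1, j2, -⟩ <;>
      rw [i1, j1]
    · exact (same_val S i2 j2).trans e0
    · exact (same_val S i2 j2).trans ep
    · exact (same_val S i2 j2).trans eac
    · exact (S _ _).trans (j2 d)
    · exact (S _ _).trans (j2 d)
    · exact (same_val S i2 j2).trans eba
    · exact (same_val S i2 j2).trans e1
    · exact (same_val S i2 j2).trans ebc
    · exact (S _ _).trans (j2 d)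
    · exact (S _ _).trans (j2 d)
    · exact (same_val S i2 j2).trans eca
    · exact (same_val S i2 j2).trans ecb
    · exact (same_val S i2 j2).trans e2
    · exact (S _ _).trans (j2 d)
    · exact (S _ _).trans (j2 d)
    all_goals exact i2 e
  have hmono : ∀ d e, lt (Sum.inr d) (Sum.inr e) → g d ≤ g e := by
    intro d e hde
    rcases hc d with ⟨i1, i0, i2⟩ | ⟨i1, i0, i2⟩ | ⟨i1, i0, i2⟩ | ⟨i1, i2, i3⟩ | ⟨i1, i2, i3⟩ <;>
      rcases hc e with ⟨j1, j0, j2⟩ | ⟨j1, j0, j2⟩ | ⟨j1, j0, j2⟩ | ⟨j1, j2, j3⟩ | ⟨j1, j2, j3⟩ <;>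
      rw [i1, j1]
    · decide
    · decide
    · decide
    · exact (j3 ⟨d, i0, hde⟩).elim
    · exact (A.asym hde (T.PQ A hb j2 i2)).elim
    · decide
    · decide
    · exact (j3 ⟨d, i0, hde⟩).elim
    · exact (A.asym hde (T.PR A hb j2 i2)).elim
    · exact (A.asym hde (T.QR A hb j2 i2)).elim
    · decide
    · exact (j3 ⟨d, i0, hde⟩).elim
    · exact (hno d i2 i3 e j0 hde).elim
    · exact (hno d i2 i3 e j0 hde).elim
    · exact (hno d i2 i3 e j0 hde).elim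
    · obtain ⟨x, hx, hx'⟩ := i3
      exact (j3 ⟨x, hx, A.lin.tr _ _ _ hx' hde⟩).elim
    all_goals exact Fin.zero_le _
  have hl : Lin fun a b : W => lt (Sum.inr a) (Sum.inr b) :=
    ⟨fun a => A.lin.irr _, fun a b c => A.lin.tr _ _ _,
      fun a b h => A.lin.tot _ _ fun h' => h (Sum.inr_injective h')⟩
  refine ⟨fun d _ => ff (g d), ?_⟩
  refine acy_new hl (fun d e => MM g0 g1 g2 p (g d) (g e) + ff (g d) * ff (g e))
    (fun d e => by simp only [MM_symm g0 g1 g2 p (g d)]; ring)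
    (cls_cond g hmono (fun i j => MM g0 g1 g2 p i j + ff i * ff j)
      (fun i j k hij hjk _ _ _ => MM_tri g0 g1 g2 p i j k hij hjk)) ?_
  intro d e hde
  have hdot : (fun _ : Fin 1 => ff (g d)) ⬝ᵥ (fun _ => ff (g e)) = ff (g d) * ff (g e) := by
    simp [dotProduct]
  simp only [← hval]
  have e' : ∀ p q : ZMod 2, (q = 0 → p = 0 → p + q = 0) ∧ (q = 0 → p = 1 → p + q = 1) ∧
      (q = 1 → p = 0 → p + q = 1) ∧ (q = 1 → p = 1 → p + q = 0) := by decide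
  rcases hde with ⟨h1, h2⟩ | ⟨h1, h2⟩ <;> rw [hdot] at h2 <;>
    rcases zc (B (w d) (w e)) with h3 | h3
  · exact Or.inl ⟨(A.ww d e h1).1 h3, (e' _ _).1 h2 h3⟩
  · exact Or.inr ⟨(A.ww d e h1).2 h3, (e' _ _).2.1 h2 h3⟩
  · exact Or.inr ⟨(A.ww e d h1).1 (by rw [S]; exact h3), (e' _ _).2.2.1 h2 h3⟩
  · exact Or.inl ⟨(A.ww e d h1).2 (by rw [S]; exact h3), (e' _ _).2.2.2 h2 h3⟩

/-- **Rank three, all nonsingular triples cyclic.** -/
lemma rank3 (A : Arr r s B v w lt) {k : ℕ} (hk : finrank (ZMod 2) U ≤ k + 3)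
    (hb : Bad B w lt) {a b c : W} (T : Tri B w lt a b c) (hs : ¬ VLe s 1) : FLe r k := by
  by_contra hF
  refine hs (noinner A hb T ?_)
  rintro z hz ⟨x, hx, hxz⟩ y hy hzy
  apply hF
  have hn : ∀ {x y : W}, x ≠ y → lt (Sum.inr x) (Sum.inr y) ∨ lt (Sum.inr y) (Sum.inr x) :=
    fun h => A.lin.tot _ _ fun h' => h (Sum.inr_injective h')
  obtain ⟨a', ha, haz⟩ : ∃ a', Same B w a' a ∧ lt (Sum.inr a') (Sum.inr z) := by
    rcases T.types A hb x with h | h | h | h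
    · exact (hx h).elim
    · exact ⟨x, h, hxz⟩
    · exact ⟨a, fun e => rfl, A.lin.tr _ _ _ (T.Q_lt A hb h).1 hxz⟩
    · exact ⟨a, fun e => rfl, A.lin.tr _ _ _ (A.lin.tr _ _ _ T.ab (T.R_lt A hb h)) hxz⟩
  obtain ⟨c', hc, hcz⟩ : ∃ c', Same B w c' c ∧ lt (Sum.inr z) (Sum.inr c') := by
    rcases T.types A hb y with h | h | h | h
    · exact (hy h).elim
    · exact ⟨c, fun e => rfl, A.lin.tr _ _ _ hzy (A.lin.tr _ _ _ (T.P_lt A hb h) T.bc)⟩
    · exact ⟨c, fun e => rfl, A.lin.tr _ _ _ hzy (T.Q_lt A hb h).2⟩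
    · exact ⟨y, h, hzy⟩
  have hab := T.P_lt A hb ha
  have hbc := T.R_lt A hb hc
  have hd : d3 B (w a') (w b) (w c') = 1 := by
    rw [same_c A.symm hc, same_a A.symm ha, T.det]
  have hzb : z ≠ b := by
    rintro rfl
    have := T.det
    unfold d3 at this
    rw [hz z, hz c, A.symm (w a) (w z), hz a] at this
    simp at this
  rcases hn hzb with o | o
  · exact inner1 A hk haz o hbc hd hz
  · exact inner2 A hk hab o hcz hd hz

end

end Pool.Agent.H2.Dij2
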