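import Pool.Agent.H2.Dij.Gain3

/-!
Sorting, and nondegenerate spans of two, three and four vertices.
-/

set_option autoImplicit false

namespace Pool.Agent.H2.Dij2

open Finset Matrix Module

section

variable {V W U : Type} [AddCommGroup U] [Module (ZMod 2) U] [FiniteDimensional (ZMod 2) U]
  {r : V → V → Prop}
  {s : W → W → Prop} {B : U →ₗ[ZMod 2] U →ₗ[ZMod 2] ZMod 2} {v : V → U} {w : W → U}
  {lt : V ⊕ W → V ⊕ W → Prop}

/-- Every sequence of different vertices can be sorted. -/
lemma exists_sort (A : Arr r s B v w lt) {m : ℕ} (t : Fin m → W) (ht : Function.Injective t) :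
    ∃ π : Equiv.Perm (Fin m), Srt lt (t ∘ π) := by
  classical
  let R : Fin m → Fin m → Prop := fun i j => lt (Sum.inr (t i)) (Sum.inr (t j))
  have htot : ∀ i j, i ≠ j → R i j ∨ R j i := fun i j hij =>
    A.lin.tot _ _ fun h => hij (ht (Sum.inr_injective h))
  have hlt : ∀ i, (univ.filter fun j => R j i).card < m := by
    intro i
    have h1 : (univ.filter fun j => R j i) ⊆ univ.erase i := by
      intro j hj
      rw [Finset.mem_filter] at hj
      refine Finset.mem_erase.2 ⟨?_, mem_univ _⟩
      rintro rfl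
      exact A.lin.irr _ hj.2
    have h2 := Finset.card_le_card h1
    rw [Finset.card_erase_of_mem (mem_univ _), Finset.card_univ, Fintype.card_fin] at h2
    have := i.2
    omega
  let ρ : Fin m → Fin m := fun i => ⟨_, hlt i⟩
  have hρ : ∀ i j, R i j → ρ i < ρ j := by
    intro i j hij
    show (univ.filter fun k => R k i).card < (univ.filter fun k => R k j).card
    refine Finset.card_lt_card ⟨?_, ?_⟩
    · intro k hk
      rw [Finset.mem_filter] at hk ⊢
      exact ⟨mem_univ _, A.lin.tr _ _ _ hk.2 hij⟩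
    · intro h
      have := h (Finset.mem_filter.2 ⟨mem_univ i, hij⟩)
      rw [Finset.mem_filter] at this
      exact A.lin.irr _ this.2
  have hinj : Function.Injective ρ := by
    intro i j hij
    by_contra hne
    rcases htot i j hne with h | h
    · exact absurd (hρ i j h) (by rw [hij]; exact lt_irrefl _)
    · exact absurd (hρ j i h) (by rw [hij]; exact lt_irrefl _)
  let e : Equiv.Perm (Fin m) := Equiv.ofBijective ρ (Finite.injective_iff_bijective.1 hinj)
  refine ⟨e.symm, fun i j hij => ?_⟩
  rcases htot (e.symm i) (e.symm j) (fun h => hij.ne (e.symm.injective h)) with h | h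
  · exact h
  · have h1 : e (e.symm j) < e (e.symm i) := hρ _ _ h
    rw [Equiv.apply_symm_apply, Equiv.apply_symm_apply] at h1
    exact absurd h1 hij.not_gt

lemma range_perm {m : ℕ} (t : Fin m → W) (π : Equiv.Perm (Fin m)) :
    (Set.range fun i => w ((t ∘ π) i)) = Set.range fun i => w (t i) := by
  ext x
  constructor
  · rintro ⟨i, rfl⟩
    exact ⟨π i, rfl⟩
  · rintro ⟨i, rfl⟩
    exact ⟨π.symm i, by simp⟩

lemma span2 (a b : U) : Submodule.span (ZMod 2) (Set.range ![a, b]) =
    ⊥ ⊔ Submodule.span (ZMod 2) {a} ⊔ Submodule.span (ZMod 2) {b} := by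
  rw [bot_sup_eq, ← Submodule.span_union]
  congr 1
  ext x
  simp only [Matrix.range_cons, Matrix.range_empty, Set.union_empty]

lemma span3 (a b c : U) : Submodule.span (ZMod 2) (Set.range ![a, b, c]) =
    ⊥ ⊔ Submodule.span (ZMod 2) {a} ⊔ Submodule.span (ZMod 2) {b} ⊔
      Submodule.span (ZMod 2) {c} := by
  rw [bot_sup_eq, ← Submodule.span_union, ← Submodule.span_union]
  congr 1
  ext x
  simp only [Matrix.range_cons, Matrix.range_empty, Set.union_empty, Set.union_assoc]

lemma span4 (a b c d : U) : Submodule.span (ZMod 2) (Set.range ![a, b, c, d]) =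
    ⊥ ⊔ Submodule.span (ZMod 2) {a} ⊔ Submodule.span (ZMod 2) {b} ⊔
      Submodule.span (ZMod 2) {c} ⊔ Submodule.span (ZMod 2) {d} := by
  rw [bot_sup_eq, ← Submodule.span_union, ← Submodule.span_union, ← Submodule.span_union]
  congr 1
  ext x
  simp only [Matrix.range_cons, Matrix.range_empty, Set.union_empty, Set.union_assoc]

/-- The determinant of a Gram matrix of order three. -/
def d3 (B : U →ₗ[ZMod 2] U →ₗ[ZMod 2] ZMod 2) (a b c : U) : ZMod 2 :=
  B a a * B b b * B c c + B a a * B b c + B b b * B a c + B c c * B a b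

lemma nd2 (hB : ∀ a b, B a b = B b a) (a b : U) (h : B a a * B b b + B a b = 1) :
    ND B (⊥ ⊔ Submodule.span (ZMod 2) {a} ⊔ Submodule.span (ZMod 2) {b}) 2 := by
  have := nd_ext2 hB (nd_bot (B := B)) (c := a) (s := 0) (c' := b) (s' := 0)
    (Submodule.zero_mem _) (fun t ht => by rw [(Submodule.mem_bot _).1 ht]; simp)
    (Submodule.zero_mem _) (fun t ht => by rw [(Submodule.mem_bot _).1 ht]; simp)
    (by rw [add_zero, add_zero]; exact h)
  exact this

lemma nd3' (hB : ∀ a b, B a b = B b a) (a b c : U) (h : B a a * B b b + B a b = 1)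
    (h3 : d3 B a b c = 1) :
    ND B (⊥ ⊔ Submodule.span (ZMod 2) {a} ⊔ Submodule.span (ZMod 2) {b} ⊔
      Submodule.span (ZMod 2) {c}) 3 := by
  have ma : a ∈ ⊥ ⊔ Submodule.span (ZMod 2) {a} ⊔ Submodule.span (ZMod 2) {b} :=
    (le_sup_left : _ ≤ _ ⊔ Submodule.span (ZMod 2) {b}) ((le_sup_right :
      _ ≤ ⊥ ⊔ Submodule.span (ZMod 2) {a}) (Submodule.mem_span_singleton_self a))
  have mb : b ∈ ⊥ ⊔ Submodule.span (ZMod 2) {a} ⊔ Submodule.span (ZMod 2) {b} :=
    (le_sup_right : _ ≤ (⊥ ⊔ Submodule.span (ZMod 2) {a}) ⊔ _)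
      (Submodule.mem_span_singleton_self b)
  refine nd_ext1 hB (nd2 hB a b h) (c := c)
    (s := (B b b * B a c + B a b * B b c) • a + (B a b * B a c + B a a * B b c) • b)
    (add_mem (Submodule.smul_mem _ _ ma) (Submodule.smul_mem _ _ mb)) ?_ ?_
  · intro t ht
    obtain ⟨t0, ht0, t3, ht3, rfl⟩ := Submodule.mem_sup.1 ht
    obtain ⟨t1, ht1, t2, ht2, rfl⟩ := Submodule.mem_sup.1 ht0
    obtain ⟨q, rfl⟩ := Submodule.mem_span_singleton.1 ht2
    obtain ⟨q', rfl⟩ := Submodule.mem_span_singleton.1 ht3
    rw [(Submodule.mem_bot _).1 ht1]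
    simp only [map_add, LinearMap.add_apply, map_smul, LinearMap.smul_apply, smul_eq_mul,
      map_zero, LinearMap.zero_apply]
    rw [hB b a]
    clear ht ht0 ht1 ht2 ht3 ma mb h3
    generalize B a c = e1
    generalize B b c = e2
    generalize B a b = e3 at *
    generalize B a a = e4 at *
    generalize B b b = e5 at *
    revert h
    revert e1 e2 e3 e4 e5 q q'
    decide
  · unfold d3 at h3
    simp only [map_add, LinearMap.add_apply, map_smul, LinearMap.smul_apply, smul_eq_mul]
    rw [hB b a, hB c a, hB c b]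
    clear ma mb
    generalize B a c = e1 at *
    generalize B b c = e2 at *
    generalize B a b = e3 at *
    generalize B a a = e4 at *
    generalize B b b = e5 at *
    generalize B c c = e6 at *
    revert h h3
    revert e1 e2 e3 e4 e5 e6
    decide

/-- A nonsingular triple spans a nondegenerate subspace. -/
lemma nd3 (hB : ∀ a b, B a b = B b a) (a b c : U) (h3 : d3 B a b c = 1) :
    ND B (Submodule.span (ZMod 2) (Set.range ![a, b, c])) 3 := by
  have key : B a a * B b b + B a b = 1 ∨ B a a * B c c + B a c = 1 ∨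
      B b b * B c c + B b c = 1 := by
    unfold d3 at h3
    generalize B a c = e1 at *
    generalize B b c = e2 at *
    generalize B a b = e3 at *
    generalize B a a = e4 at *
    generalize B b b = e5 at *
    generalize B c c = e6 at *
    revert h3
    revert e1 e2 e3 e4 e5 e6
    decide
  rw [span3]
  rcases key with h | h | h
  · exact nd3' hB a b c h h3
  · have h3' : d3 B a c b = 1 := by
      rw [← h3]; unfold d3; rw [hB c b]; ring
    have := nd3' hB a c b h h3'
    rwa [sup_right_comm] at this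
  · have h3' : d3 B b c a = 1 := by
      rw [← h3]; unfold d3; rw [hB c a, hB b a]; ring
    have := nd3' hB b c a h h3'
    rwa [bot_sup_eq, sup_comm, ← sup_assoc, ← bot_sup_eq (Submodule.span (ZMod 2) {a})] at this

end

end Pool.Agent.H2.Dij2
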