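import Pool.Agent.H2.Dij.Rank3c

/-!
The third step.
-/

set_option autoImplicit false

namespace Pool.Agent.H2.Dij2

open Finset Matrix Module

lemma mk_arr {V W U : Type} [AddCommGroup U] [Module (ZMod 2) U] {r : V → V → Prop}
    {s : W → W → Prop} {B : U →ₗ[ZMod 2] U →ₗ[ZMod 2] ZMod 2} (hB : ∀ a b, B a b = B b a)
    (x : V ⊕ W → U) (hx : Acy (ArcB (dj r s) fun a b => B (x a) (x b))) :
    ∃ lt, Arr r s B (fun a => x (Sum.inl a)) (fun a => x (Sum.inr a)) lt := by
  obtain ⟨lt, h1, h2, h3, h4⟩ := exists_lin hx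
  refine ⟨lt, hB, ⟨h2, h3, h4⟩, ?_, ?_, ?_⟩
  · intro a b hab
    exact ⟨fun h => h1 _ _ (Or.inl ⟨hab, h⟩), fun h => h1 _ _ (Or.inr ⟨hab, (hB _ _).trans h⟩)⟩
  · intro a b hab
    exact ⟨fun h => h1 _ _ (Or.inl ⟨hab, h⟩), fun h => h1 _ _ (Or.inr ⟨hab, (hB _ _).trans h⟩)⟩
  · intro a c
    exact ⟨fun h => h1 _ _ (Or.inl ⟨trivial, h⟩),
      fun h => h1 _ _ (Or.inr ⟨trivial, (hB _ _).trans h⟩)⟩

lemma num_p : ∀ g00 g01 g11 g22 u t x y : ZMod 2, g00 * g11 + g01 = 1 →
    x * g00 + y * g01 = u → x * g01 + y * g11 = t →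
    g00 * g11 * g22 + g00 * t + g11 * u + g22 * g01 = g22 + (x * u + y * t) := by decide

section

variable {V W U : Type} [AddCommGroup U] [Module (ZMod 2) U] [FiniteDimensional (ZMod 2) U]
  {r : V → V → Prop}
  {s : W → W → Prop} {B : U →ₗ[ZMod 2] U →ₗ[ZMod 2] ZMod 2} {v : V → U} {w : W → U}
  {lt : V ⊕ W → V ⊕ W → Prop}

lemma Arr.accW (A : Arr r s B v w lt) {h : W → W → ZMod 2}
    (hh : ∀ d e, h d e = B (w d) (w e)) : Acy (ArcB s h) := by
  have hl : Lin fun a b : W => lt (Sum.inr a) (Sum.inr b) :=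
    ⟨fun a => A.lin.irr _, fun a b c => A.lin.tr _ _ _,
      fun a b h => A.lin.tot _ _ fun h' => h (Sum.inr_injective h')⟩
  refine acy_new hl (fun _ _ => 0) (fun _ _ => rfl) (fun _ _ _ _ _ => by decide) ?_
  rintro a b (⟨h1, h2⟩ | ⟨h1, h2⟩)
  · exact Or.inl ⟨(A.ww a b h1).1 (by rw [← hh]; exact h2), rfl⟩
  · exact Or.inl ⟨(A.ww b a h1).2 (by rw [A.symm, ← hh]; exact h2), rfl⟩

lemma exists_pair (A : Arr r s B v w lt) (hs : ¬ VLe s 1) :
    ∃ a b : W, B (w a) (w a) * B (w b) (w b) + B (w a) (w b) = 1 := by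
  by_contra hc
  push Not at hc
  apply hs
  refine ⟨fun d _ => B (w d) (w d), ?_⟩
  have := A.accW (h := fun d e => B (w d) (w d) * B (w e) (w e)) fun d e => by
    have h := (zc _).resolve_right (hc d e)
    have e' : ∀ p q : ZMod 2, p + q = 0 → p = q := by decide
    exact e' _ _ h
  refine acy_map id (fun a b hab => ?_) this
  rcases hab with ⟨h1, h2⟩ | ⟨h1, h2⟩
  · exact Or.inl ⟨h1, by simpa [dotProduct] using h2⟩
  · exact Or.inr ⟨h1, by simpa [dotProduct] using h2⟩

/-- A nonsingular triple which generates, not sorted. -/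
def Pre (B : U →ₗ[ZMod 2] U →ₗ[ZMod 2] ZMod 2) (w : W → U) (a b c : W) : Prop :=
  d3 B (w a) (w b) (w c) = 1 ∧ ∀ d, ∃ α β γ : ZMod 2, ∀ e,
    B (w d) (w e) = α * B (w a) (w e) + β * B (w b) (w e) + γ * B (w c) (w e)

lemma Pre.swap1 (hB : ∀ a b, B a b = B b a) {a b c : W} (h : Pre B w a b c) :
    Pre B w b a c := by
  refine ⟨?_, fun d => ?_⟩
  · rw [← h.1]; unfold d3; rw [hB (w b) (w a)]; ring
  · obtain ⟨α, β, γ, hd⟩ := h.2 d
    exact ⟨β, α, γ, fun e => by rw [hd]; ring⟩

lemma Pre.swap2 (hB : ∀ a b, B a b = B b a) {a b c : W} (h : Pre B w a b c) :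
    Pre B w a c b := by
  refine ⟨?_, fun d => ?_⟩
  · rw [← h.1]; unfold d3; rw [hB (w c) (w b)]; ring
  · obtain ⟨α, β, γ, hd⟩ := h.2 d
    exact ⟨α, γ, β, fun e => by rw [hd]; ring⟩

lemma Pre.ne (hB : ∀ a b, B a b = B b a) {a b c : W} (h : Pre B w a b c) : a ≠ b := by
  rintro rfl
  exact ne_ab hB h.1 fun _ => rfl

lemma Pre.tri (A : Arr r s B v w lt) {a b c : W} (h : Pre B w a b c) :
    ∃ a b c, Tri B w lt a b c := by
  have S := A.symm
  have hn : ∀ {x y : W}, x ≠ y → lt (Sum.inr x) (Sum.inr y) ∨ lt (Sum.inr y) (Sum.inr x) :=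
    fun h => A.lin.tot _ _ fun h' => h (Sum.inr_injective h')
  have hab := h.ne S
  have hac := (h.swap2 S).ne S
  have hbc := ((h.swap1 S).swap2 S).ne S
  rcases hn hab with o1 | o1 <;> rcases hn hbc with o2 | o2
  · exact ⟨a, b, c, o1, o2, h.1, h.2⟩
  · rcases hn hac with o3 | o3
    · exact ⟨a, c, b, o3, o2, (h.swap2 S).1, (h.swap2 S).2⟩
    · exact ⟨c, a, b, o3, o1, ((h.swap2 S).swap1 S).1, ((h.swap2 S).swap1 S).2⟩
  · rcases hn hac with o3 | o3
    · exact ⟨b, a, c, o1, o3, (h.swap1 S).1, (h.swap1 S).2⟩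
    · exact ⟨b, c, a, o2, o3, ((h.swap1 S).swap2 S).1, ((h.swap1 S).swap2 S).2⟩
  · exact ⟨c, b, a, o2, o1, (((h.swap1 S).swap2 S).swap1 S).1, (((h.swap1 S).swap2 S).swap1 S).2⟩

/-- **The alternative**: three dimensions less, or rank two on the second graph. -/
lemma dich (A : Arr r s B v w lt) {k : ℕ} (hk : finrank (ZMod 2) U ≤ k + 3) (hs : ¬ VLe s 1) :
    FLe r k ∨ ∃ a b : W, B (w a) (w a) * B (w b) (w b) + B (w a) (w b) = 1 ∧
      ∀ d, ∃ x y : ZMod 2, ∀ e, B (w d) (w e) = x * B (w a) (w e) + y * B (w b) (w e) := by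
  have S := A.symm
  obtain ⟨a, b, hab⟩ := exists_pair A hs
  have hnd := nd2 S (w a) (w b) hab
  obtain ⟨p, hp1, hp2, hp3, hp4⟩ := nd_proj S hnd
  have ma : w a ∈ ⊥ ⊔ Submodule.span (ZMod 2) {w a} ⊔ Submodule.span (ZMod 2) {w b} :=
    (le_sup_left : _ ≤ _ ⊔ Submodule.span (ZMod 2) {w b}) ((le_sup_right :
      _ ≤ ⊥ ⊔ Submodule.span (ZMod 2) {w a}) (Submodule.mem_span_singleton_self _))
  have mb : w b ∈ ⊥ ⊔ Submodule.span (ZMod 2) {w a} ⊔ Submodule.span (ZMod 2) {w b} :=
    (le_sup_right : _ ≤ (⊥ ⊔ Submodule.span (ZMod 2) {w a}) ⊔ _)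
      (Submodule.mem_span_singleton_self _)
  have hcomb : ∀ z, ∃ x y : ZMod 2, p z = x • w a + y • w b := by
    intro z
    obtain ⟨t0, ht0, t3, ht3, h1⟩ := Submodule.mem_sup.1 (hp1 z)
    obtain ⟨t1, ht1, t2, ht2, rfl⟩ := Submodule.mem_sup.1 ht0
    obtain ⟨q, rfl⟩ := Submodule.mem_span_singleton.1 ht2
    obtain ⟨q', rfl⟩ := Submodule.mem_span_singleton.1 ht3
    rw [(Submodule.mem_bot _).1 ht1, zero_add] at h1
    exact ⟨q, q', h1.symm⟩
  let b' : W → W → ZMod 2 := fun d e => B (w d + p (w d)) (w e + p (w e))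
  have hb'w : ∀ d e, B (w d + p (w d)) (w e) = b' d e := by
    intro d e
    show _ = B (w d + p (w d)) (w e + p (w e))
    rw [map_add (B (w d + p (w d))), S (w d + p (w d)) (p (w e)), hp3 (w d) _ (hp1 _), add_zero]
  have hb's : ∀ d e, b' d e = b' e d := fun d e => S _ _
  have hb'0 : ∀ d, w d ∈ ⊥ ⊔ Submodule.span (ZMod 2) {w a} ⊔ Submodule.span (ZMod 2) {w b} →
      ∀ e, b' d e = 0 := fun d hd e => hp3 (w e) _ (add_mem hd (hp1 _))
  by_cases h4 : ∃ c d, b' c c * b' d d + b' c d = 1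
  · left
    obtain ⟨c, d, hcd⟩ := h4
    have hnd4 := nd_ext2 S hnd (c := w c) (s := p (w c)) (c' := w d) (s' := p (w d)) (hp1 _)
      (hp3 _) (hp1 _) (hp3 _) hcd
    have e0 : ∀ x : ZMod 2, x * x + x ≠ 1 := by decide
    have n1 : a ≠ b := by rintro rfl; exact e0 _ hab
    have nc : ∀ x, w x ∈ ⊥ ⊔ Submodule.span (ZMod 2) {w a} ⊔ Submodule.span (ZMod 2) {w b} →
        x ≠ c := by
      rintro x hx rfl
      rw [hb'0 x hx, hb'0 x hx] at hcd
      simp at hcd
    have nd' : ∀ x, w x ∈ ⊥ ⊔ Submodule.span (ZMod 2) {w a} ⊔ Submodule.span (ZMod 2) {w b} →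
        x ≠ d := by
      rintro x hx rfl
      rw [hb'0 x hx, hb's c x, hb'0 x hx] at hcd
      simp at hcd
    have n2 : c ≠ d := by rintro rfl; exact e0 _ hcd
    let t : Fin 4 → W := ![a, b, c, d]
    have ht : Function.Injective t := by
      intro i j hij
      have n3 := nc a ma
      have n4 := nc b mb
      have n5 := nd' a ma
      have n6 := nd' b mb
      fin_cases i <;> fin_cases j <;>
        first
        | rfl
        | exact absurd hij n1
        | exact absurd hij n1.symm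
        | exact absurd hij n2
        | exact absurd hij n2.symm
        | exact absurd hij n3
        | exact absurd hij n3.symm
        | exact absurd hij n4
        | exact absurd hij n4.symm
        | exact absurd hij n5
        | exact absurd hij n5.symm
        | exact absurd hij n6
        | exact absurd hij n6.symm
    obtain ⟨π, hπ⟩ := exists_sort A t ht
    refine gain4 A hk hπ ?_
    rw [range_perm (w := w) t π]
    have e : (fun i => w (t i)) = ![w a, w b, w c, w d] := by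
      funext i
      fin_cases i <;> rfl
    rw [e, span4]
    exact hnd4
  · have hmin : ∀ c d, b' c d = b' c c * b' d d := by
      intro c d
      have h := (zc _).resolve_right fun h => h4 ⟨c, d, h⟩
      have e' : ∀ p q : ZMod 2, p + q = 0 → q = p := by decide
      exact e' _ _ h
    by_cases h5 : ∃ c, b' c c = 1
    · left
      obtain ⟨c, hc⟩ := h5
      have hpre : Pre B w a b c := by
        refine ⟨?_, ?_⟩
        · obtain ⟨x, y, hxy⟩ := hcomb (w c)
          have h1 := hp2 (w c) _ ma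
          have h2 := hp2 (w c) _ mb
          have h3 : b' c c = B (w c) (w c) + B (p (w c)) (p (w c)) := hp4 _ _
          have h3' : B (p (w c)) (p (w c)) = x * B (w a) (w c) + y * B (w b) (w c) := by
            rw [← hp2 (w c) _ (hp1 _), hxy]
            simp only [map_add, LinearMap.add_apply, map_smul, LinearMap.smul_apply, smul_eq_mul]
          rw [hxy] at h1 h2
          simp only [map_add, map_smul, smul_eq_mul] at h1 h2
          rw [S (w b) (w a)] at h2
          rw [← hc, h3, h3']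
          exact num_p _ _ _ _ _ _ x y hab h1.symm h2.symm
        · intro d
          obtain ⟨x, y, hxy⟩ := hcomb (w c)
          obtain ⟨x', y', hxy'⟩ := hcomb (w d)
          refine ⟨x' + b' d d * x, y' + b' d d * y, b' d d, fun e => ?_⟩
          have h1 := hb'w d e
          have h2 := hb'w c e
          rw [hmin d e] at h1
          rw [hmin c e, hc, one_mul] at h2
          rw [map_add, LinearMap.add_apply, hxy'] at h1
          rw [map_add, LinearMap.add_apply, hxy] at h2
          simp only [map_add, LinearMap.add_apply, map_smul, LinearMap.smul_apply,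
            smul_eq_mul] at h1 h2
          rw [← h2] at h1
          generalize b' d d = δ at *
          generalize B (w d) (w e) = A1 at *
          generalize B (w a) (w e) = A2 at *
          generalize B (w b) (w e) = A3 at *
          generalize B (w c) (w e) = A4 at *
          have id : ∀ A1 A2 A3 A4 x y x' y' δ : ZMod 2,
              A1 + (x' * A2 + y' * A3) = δ * (A4 + (x * A2 + y * A3)) →
              A1 = (x' + δ * x) * A2 + (y' + δ * y) * A3 + δ * A4 := by decide
          exact id _ _ _ _ _ _ _ _ _ h1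
      by_cases hb : Bad B w lt
      · obtain ⟨a1, b1, c1, T⟩ := hpre.tri A
        exact rank3 A hk hb T hs
      · unfold Bad at hb
        push Not at hb
        obtain ⟨c1, d1, e1, h1, h2, h3, h6⟩ := hb
        refine gain3 A hk (srt3 A h1 h2) (nd_triple S h3) fun _ => ?_
        rintro ⟨h7, h8⟩
        exact h6 h7 h8
    · right
      refine ⟨a, b, hab, fun d => ?_⟩
      obtain ⟨x, y, hxy⟩ := hcomb (w d)
      refine ⟨x, y, fun e => ?_⟩
      have h1 := hb'w d e
      rw [hmin d e, (zc _).resolve_right fun h => h5 ⟨d, h⟩, zero_mul, map_add,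
        LinearMap.add_apply, hxy] at h1
      simp only [map_add, LinearMap.add_apply, map_smul, LinearMap.smul_apply,
        smul_eq_mul] at h1
      have e' : ∀ p q : ZMod 2, p + q = 0 → p = q := by decide
      exact e' _ _ h1

/-- Rank two on the second graph: a form on a plane. -/
lemma rank2 (A : Arr r s B v w lt) {a b : W}
    (h : ∀ d, ∃ x y : ZMod 2, ∀ e, B (w d) (w e) = x * B (w a) (w e) + y * B (w b) (w e)) :
    RLe s 2 ∧ ((∃ x y : ZMod 2, B (x • w a + y • w b) (x • w a + y • w b) = 1) → VLe s 2) := by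
  have S := A.symm
  choose x y hxy using h
  let P : Submodule (ZMod 2) U := Submodule.span (ZMod 2) (Set.range ![w a, w b])
  have ma : w a ∈ P := Submodule.subset_span ⟨0, rfl⟩
  have mb : w b ∈ P := Submodule.subset_span ⟨1, rfl⟩
  let z : W → P := fun d => x d • ⟨w a, ma⟩ + y d • ⟨w b, mb⟩
  have hz : ∀ d e, B (z d) (z e) = B (w d) (w e) := by
    intro d e
    show B (x d • w a + y d • w b) (x e • w a + y e • w b) = _
    simp only [map_add, LinearMap.add_apply, map_smul, LinearMap.smul_apply, smul_eq_mul]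
    have h1 := hxy d a
    have h2 := hxy d b
    have h3 := hxy e d
    rw [S (w e), S (w a) (w d), S (w b) (w d), h1, h2] at h3
    rw [h3]
  have hfr : finrank (ZMod 2) P ≤ 2 := by
    have := finrank_range_le_card (R := ZMod 2) ![w a, w b]
    rwa [Fintype.card_fin] at this
  have hacc : Acy (ArcB s fun d e => (B.domRestrict₁₂ P P) (z d) (z e)) := A.accW hz
  refine ⟨FLe.rle ⟨P, inferInstance, inferInstance, inferInstance, B.domRestrict₁₂ P P, z,
    fun a b => S _ _, hfr, hacc⟩, ?_⟩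
  rintro ⟨x', y', hu⟩
  exact vle_of_form (B.domRestrict₁₂ P P) z (fun a b => S _ _) hfr hacc
    ⟨x' • ⟨w a, ma⟩ + y' • ⟨w b, mb⟩, hu⟩

end

/-- **The third step.** -/
lemma step3 {V W : Type} (k : ℕ) (r : V → V → Prop) (s : W → W → Prop) (hs : ¬ RLe s 2)
    (h : RLe (dj r s) (k + 3)) : RLe r k := by
  obtain ⟨U, _, _, _, B, v, w, lt, A, hk⟩ := h.fle.arr
  have hs1 : ¬ VLe s 1 := fun g => hs (Or.inl (g.mono (by norm_num)))
  rcases dich A hk hs1 with g | ⟨a, b, -, g⟩
  · exact g.rle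
  · exact (hs (rank2 A g).1).elim

end Pool.Agent.H2.Dij2
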