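import Pool.Agent.H2.Dij.Step3

/-!
Joins in which all graphs but one have inversion number at most three.
-/

set_option autoImplicit false

namespace Pool.Agent.H2.Dij2

open Finset Matrix Module

lemma new_acy {V W U : Type} [AddCommGroup U] [Module (ZMod 2) U] {r : V → V → Prop}
    {s : W → W → Prop} {B : U →ₗ[ZMod 2] U →ₗ[ZMod 2] ZMod 2} {v : V → U} {w : W → U}
    {lt : V ⊕ W → V ⊕ W → Prop} (A : Arr r s B v w lt) {n : ℕ} (g : V → Fin n)
    (hg : ∀ a b, lt (Sum.inl a) (Sum.inl b) → g a ≤ g b) (P : Fin n → Fin n → ZMod 2)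
    (hP : ∀ i j, P i j = P j i)
    (hT : ∀ i j k, i < j → j < k → (∃ a, g a = i) → (∃ a, g a = j) → (∃ a, g a = k) →
      ¬ (P i j = P j k ∧ P i k = P i j + 1)) (h : V → V → ZMod 2)
    (hx : ∀ a b, h a b = B (v a) (v b) + P (g a) (g b)) : Acy (ArcB r h) := by
  have hl : Lin fun a b : V => lt (Sum.inl a) (Sum.inl b) :=
    ⟨fun a => A.lin.irr _, fun a b c => A.lin.tr _ _ _,
      fun a b h => A.lin.tot _ _ fun h' => h (Sum.inl_injective h')⟩
  refine acy_new hl (fun a b => P (g a) (g b)) (fun a b => hP _ _) (cls_cond g hg P hT) ?_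
  have e : ∀ p q : ZMod 2, (p + q = 0 → q = 0 → p = 0) ∧ (p + q = 0 → q = 1 → p = 1) ∧
      (p + q = 1 → q = 0 → p = 1) ∧ (p + q = 1 → q = 1 → p = 0) := by decide
  intro a b hab
  rcases hab with ⟨h1, h2⟩ | ⟨h1, h2⟩ <;> simp only [hx] at h2 <;>
    rcases zc (P (g a) (g b)) with h3 | h3
  · exact Or.inl ⟨(A.vv a b h1).1 ((e _ _).1 h2 h3), h3⟩
  · exact Or.inr ⟨(A.vv a b h1).2 ((e _ _).2.1 h2 h3), h3⟩
  · exact Or.inl ⟨(A.vv b a h1).2 (by rw [A.symm]; exact (e _ _).2.2.1 h2 h3), h3⟩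
  · exact Or.inr ⟨(A.vv b a h1).1 (by rw [A.symm]; exact (e _ _).2.2.2 h2 h3), h3⟩

lemma RLe.up {V : Type} {r : V → V → Prop} {k : ℕ} (h : RLe r (k - 1)) : VLe r k := by
  rcases k with _ | k
  · exact rle_zero h
  · rcases h with h | h
    · exact VLe.succ (by simpa using h)
    · exact VEv.vle (by simpa using h)

lemma tri3 : ∀ i j k : Fin 3, i < j → j < k → i = 0 := by decide

/-- **The step** for `VLe`. -/
lemma stepU {V W : Type} (k : ℕ) (r : V → V → Prop) (s : W → W → Prop) (hs : ¬ VLe s 2)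
    (h : VLe (dj r s) (k + 2)) : VLe r k := by
  obtain ⟨x, hx⟩ := h
  have hfr : finrank (ZMod 2) (Fin (k + 2) → ZMod 2) = k + 2 := by simp
  obtain ⟨lt, A⟩ := mk_arr (B := dotB (k + 2)) (fun a b => dotProduct_comm a b) x hx
  have hbase : dotB (k + 2) (Pi.single 0 1) (Pi.single 0 1) = 1 := by
    show (Pi.single 0 1 : Fin (k + 2) → ZMod 2) ⬝ᵥ Pi.single 0 1 = 1
    simp
  have hs1 : ¬ VLe s 1 := fun g => hs (g.mono (by norm_num))
  generalize dotB (k + 2) = B at *
  generalize hv : (fun a => x (Sum.inl a)) = v at *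
  generalize hw : (fun a => x (Sum.inr a)) = w at *
  rcases dich A (k := k - 1) (by omega) hs1 with g | ⟨a, b, hab, g⟩
  · exact RLe.up g.rle
  · have S := A.symm
    obtain ⟨-, h2⟩ := rank2 A g
    have haa : B (w a) (w a) = 0 := (zc _).resolve_right fun h => hs (h2 ⟨1, 0, by simpa using h⟩)
    have hbb : B (w b) (w b) = 0 := (zc _).resolve_right fun h => hs (h2 ⟨0, 1, by simpa using h⟩)
    have hnd := nd2 S (w a) (w b) hab
    rw [haa, zero_mul, zero_add] at hab
    have hne : a ≠ b := by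
      rintro rfl
      rw [haa] at hab
      exact absurd hab (by decide)
    let t : Fin 2 → W := ![a, b]
    have ht : Function.Injective t := by
      intro i j hij
      fin_cases i <;> fin_cases j <;>
        first
        | rfl
        | exact absurd hij hne
        | exact absurd hij hne.symm
    obtain ⟨π, hπ⟩ := exists_sort A t ht
    have hS : ND B (Submodule.span (ZMod 2) (Set.range fun i => w ((t ∘ π) i))) 2 := by
      rw [range_perm (w := w) t π]
      have e : (fun i => w (t i)) = ![w a, w b] := by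
        funext i
        fin_cases i <;> rfl
      rw [e, span2]
      exact hnd
    obtain ⟨σ, y, hσ0, hy, hyB, -, -⟩ := exists_F A hπ hS
    have hS2 := hS.2
    rw [hfr] at hS2
    refine vle_of_form (B.domRestrict₁₂ _ _) (fun a => (⟨y a, hy a⟩ :
      orth B (Submodule.span (ZMod 2) (Set.range fun i => w ((t ∘ π) i)))))
      (fun a b => S _ _) (by omega) ?_ ?_
    · refine new_acy A (gap lt (t ∘ π)) (gap_mono A (t ∘ π)) (fun i j => B (σ i) (σ j))
        (fun i j => S _ _) ?_ _ (fun a b => hyB a b)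
      rintro i j l hij hjl - - - ⟨-, h4⟩
      have hi := tri3 i j l hij hjl
      subst hi
      rw [hσ0, hσ0] at h4
      exact absurd h4 (by decide)
    · have hz : ∀ c, B (w c) (Pi.single 0 1 + B (Pi.single 0 1) (w b) • w a +
          B (Pi.single 0 1) (w a) • w b) = B (Pi.single 0 1) (w c) +
            B (Pi.single 0 1) (w b) * B (w c) (w a) + B (Pi.single 0 1) (w a) * B (w c) (w b) := by
        intro c
        rw [map_add, map_add, map_smul, map_smul, S (w c) (Pi.single 0 1)]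
        rfl
      refine ⟨⟨Pi.single 0 1 + B (Pi.single 0 1) (w b) • w a +
        B (Pi.single 0 1) (w a) • w b, ?_⟩, ?_⟩
      · rw [range_perm (w := w) t π]
        have h0 : ∀ q ∈ Submodule.span (ZMod 2) (Set.range fun i => w (t i)),
            B q (Pi.single 0 1 + B (Pi.single 0 1) (w b) • w a +
              B (Pi.single 0 1) (w a) • w b) = B q 0 := by
          refine span_eq ?_
          rintro _ ⟨i, rfl⟩
          rw [map_zero]
          fin_cases i
          · show B (w a) _ = 0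
            rw [hz, haa, hab, mul_zero, add_zero, mul_one]
            exact CharTwo.add_self_eq_zero _
          · show B (w b) _ = 0
            rw [hz, hbb, S (w b) (w a), hab, mul_zero, add_zero, mul_one]
            exact CharTwo.add_self_eq_zero _
        intro q hq
        rw [h0 q hq, map_zero]
      · show B (Pi.single 0 1 + B (Pi.single 0 1) (w b) • w a +
          B (Pi.single 0 1) (w a) • w b) (Pi.single 0 1 + B (Pi.single 0 1) (w b) • w a +
          B (Pi.single 0 1) (w a) • w b) = 1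
        simp only [map_add, LinearMap.add_apply, map_smul, LinearMap.smul_apply, smul_eq_mul]
        rw [S (w a) (Pi.single 0 1), S (w b) (Pi.single 0 1), S (w b) (w a), haa, hbb, hab, hbase]
        generalize B (Pi.single 0 1) (w a) = p
        generalize B (Pi.single 0 1) (w b) = q
        revert p q; decide

/-- Two even families, one in odd dimension. -/
lemma vev_dj_even {V W : Type} {r₁ : V → V → Prop} {r₂ : W → W → Prop} {k l : ℕ}
    (hk : Odd k) (h1 : VEv r₁ k) (h2 : VEv r₂ (l + 1)) : VEv (dj r₁ r₂) (k + l) := by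
  obtain ⟨x, hx, hx0⟩ := h1
  obtain ⟨y, hy, hy0⟩ := h2
  have hk1 : ((k : ℕ) : ZMod 2) = 1 := (ZMod.natCast_eq_one_iff_odd).2 hk
  have hsum : ∀ a, ∑ i, x a i = 0 := by
    intro a
    have := hx0 a
    rw [dotProduct] at this
    rw [← this]
    refine Finset.sum_congr rfl fun i _ => ?_
    rcases zc (x a i) with h | h <;> rw [h] <;> decide
  let p : V ⊕ W → Fin k → ZMod 2 := Sum.elim x (fun w _ => y w (Fin.last l))
  let q : V ⊕ W → Fin l → ZMod 2 := Sum.elim (fun _ _ => 0) (fun w i => y w i.castSucc)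
  let z : V ⊕ W → Fin (k + l) → ZMod 2 := fun v => Fin.append (p v) (q v)
  have hz : ∀ a b, z a ⬝ᵥ z b = p a ⬝ᵥ p b + q a ⬝ᵥ q b := by
    intro a b
    simp only [z, dotProduct, Fin.sum_univ_add, Fin.append_left, Fin.append_right]
  have e1 : ∀ a b : V, z (Sum.inl a) ⬝ᵥ z (Sum.inl b) = x a ⬝ᵥ x b := by
    intro a b
    rw [hz]; simp [dotProduct, p, q]
  have e2 : ∀ a b : W, z (Sum.inr a) ⬝ᵥ z (Sum.inr b) = y a ⬝ᵥ y b := by
    intro a b
    rw [hz]
    simp only [p, q, Sum.elim_inr, dotProduct, Finset.sum_const, Finset.card_univ,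
      Fintype.card_fin, nsmul_eq_mul, hk1, one_mul]
    rw [Fin.sum_univ_castSucc (fun i => y a i * y b i), add_comm]
  refine ⟨z, acy_dj ?_ ?_ ?_, ?_⟩
  · refine acy_map id ?_ hx
    rintro a b (⟨g1, g2⟩ | ⟨g1, g2⟩)
    · exact Or.inl ⟨g1, by rw [e1] at g2; exact g2⟩
    · exact Or.inr ⟨g1, by rw [e1] at g2; exact g2⟩
  · refine acy_map id ?_ hy
    rintro a b (⟨g1, g2⟩ | ⟨g1, g2⟩)
    · exact Or.inl ⟨g1, by rw [e2] at g2; exact g2⟩
    · exact Or.inr ⟨g1, by rw [e2] at g2; exact g2⟩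
  · rintro a b (⟨g1, g2⟩ | ⟨g1, g2⟩)
    · exact g1
    · rw [hz] at g2
      simp only [p, q, Sum.elim_inr, Sum.elim_inl, dotProduct, ← Finset.mul_sum, hsum, mul_zero,
        Finset.sum_const_zero, add_zero] at g2
      exact absurd g2 (by decide)
  · rintro (a | a)
    · rw [e1]; exact hx0 a
    · rw [e2]; exact hy0 a

lemma odd_of_not_even {n : ℕ} (h : ¬ Even n) : Odd n := Nat.not_even_iff_odd.1 h

/-- The second graph has an even family in odd dimension. -/
lemma rle_dj_right {V W : Type} {a : V → V → Prop} {s : W → W → Prop} {σ e : ℕ}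
    (h1 : VLe a σ) (h2 : VEv s (e + 1)) (ho : Odd (e + 1)) :
    (σ = 0 → VEv (dj a s) (e + 1)) ∧ (1 ≤ σ → VLe (dj a s) (σ + e)) := by
  refine ⟨?_, fun hσ => ?_⟩
  · rintro rfl
    exact VEv.dj_swap (vev_dj h2.rev h1.rev)
  · obtain ⟨σ, rfl⟩ : ∃ t, σ = t + 1 := ⟨σ - 1, by omega⟩
    rw [show σ + 1 + e = e + 1 + σ by omega]
    exact VLe.dj_swap (vle_dj_even ho h2.rev h1.rev)

/-- **The upper bound.** -/
lemma rle_dj {V W : Type} {a : V → V → Prop} {s : W → W → Prop} {σ e : ℕ} (h1 : RLe a σ)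
    (h2 : RLe s e) : RLe (dj a s) (σ + e) := by
  have vv : VLe a σ → VLe s e → RLe (dj a s) (σ + e) := fun g1 g2 => Or.inl (vle_dj g1 g2)
  have ve : VLe a σ → VEv s (e + 1) → RLe (dj a s) (σ + e) := by
    intro g1 g2
    by_cases he : Even (e + 1)
    · exact vv g1 (vev_even he g2)
    · obtain ⟨i1, i2⟩ := rle_dj_right g1 g2 (odd_of_not_even he)
      rcases Nat.eq_zero_or_pos σ with h | h
      · right
        rw [h, zero_add]
        exact i1 h
      · exact Or.inl (i2 h)
  have ev : VEv a (σ + 1) → VLe s e → RLe (dj a s) (σ + e) := by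
    intro g1 g2
    by_cases he : Even (σ + 1)
    · exact vv (vev_even he g1) g2
    · rcases Nat.eq_zero_or_pos e with h | h
      · subst h
        exact Or.inr (vev_dj g1 g2)
      · obtain ⟨e, rfl⟩ : ∃ t, e = t + 1 := ⟨e - 1, by omega⟩
        left
        rw [show σ + (e + 1) = σ + 1 + e by omega]
        exact vle_dj_even (odd_of_not_even he) g1 g2
  rcases h1 with g1 | g1 <;> rcases h2 with g2 | g2
  · exact vv g1 g2
  · exact ve g1 g2
  · exact ev g1 g2
  · by_cases he : Even (σ + 1)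
    · exact ve (vev_even he g1) g2
    · right
      rw [show σ + e + 1 = σ + 1 + e by omega]
      exact vev_dj_even (odd_of_not_even he) g1 g2

/-- `σ` is the least number with `RLe`. -/
def Val {V : Type} (r : V → V → Prop) (σ : ℕ) : Prop := (∀ j < σ, ¬ RLe r j) ∧ RLe r σ

lemma Val.lt {V : Type} {r : V → V → Prop} {σ j : ℕ} (h : Val r σ) (hj : RLe r j) : σ ≤ j := by
  by_contra hc
  exact h.1 j (by omega) hj

lemma Val.rev {V : Type} {r : V → V → Prop} {σ : ℕ} (h : Val r σ) : Val (rv r) σ :=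
  ⟨fun j hj g => h.1 j hj g.rev, h.2.rev⟩

lemma Val.pos {V : Type} {r : V → V → Prop} {σ : ℕ} (h : Val r σ) (he : ¬ VLe r σ) :
    Odd (σ + 1) ∧ 2 ≤ σ ∧ VEv r (σ + 1) := by
  have h1 : VEv r (σ + 1) := h.2.resolve_left he
  obtain ⟨h2, h3⟩ := even_dim h1 he
  exact ⟨h2, by omega, h1⟩

/-- **The lower bound.** -/
lemma stepR {V W : Type} (r : V → V → Prop) (s : W → W → Prop) (e k : ℕ) (he : e ≤ 3)
    (hs : ∀ j < e, ¬ RLe s j) (h : RLe (dj r s) k) : e ≤ k ∧ RLe r (k - e) := by
  rcases Nat.lt_or_ge e 3 with h3 | h3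
  · exact stepE r s e k (by omega) (fun j hj g => hs j hj (Or.inl g)) h
  · obtain rfl : e = 3 := by omega
    have hW : RLe s k := RLe.hom (s := dj r s) Sum.inr (fun a b h => h) h
    have hk : 3 ≤ k := by
      by_contra hc
      exact hs k (by omega) hW
    obtain ⟨k, rfl⟩ : ∃ t, k = t + 3 := ⟨k - 3, by omega⟩
    exact ⟨hk, step3 k r s (hs 2 (by omega)) h⟩

/-- **The dijoin**, the second graph small. -/
lemma val_dj {V W : Type} {a : V → V → Prop} {s : W → W → Prop} {σ e : ℕ} (h1 : Val a σ)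
    (h2 : Val s e) (he : e ≤ 3) : Val (dj a s) (σ + e) ∧
      (¬ VLe (dj a s) (σ + e) ↔ (¬ VLe a σ ∧ ¬ VLe s e) ∨ (¬ VLe a σ ∧ e = 0) ∨
        (σ = 0 ∧ ¬ VLe s e)) := by
  refine ⟨⟨?_, rle_dj h1.2 h2.2⟩, ?_, ?_⟩
  · intro j hj g
    obtain ⟨g1, g2⟩ := stepR a s e j he h2.1 g
    have := h1.lt g2
    omega
  · intro h
    by_cases ha : VLe a σ
    · by_cases hs : VLe s e
      · exact (h (vle_dj ha hs)).elim
      · obtain ⟨p1, p2, p3⟩ := h2.pos hs
        obtain ⟨-, i2⟩ := rle_dj_right ha p3 p1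
        rcases Nat.eq_zero_or_pos σ with h0 | h0
        · exact Or.inr (Or.inr ⟨h0, hs⟩)
        · exact (h (i2 h0)).elim
    · by_cases hs : VLe s e
      · obtain ⟨p1, p2, p3⟩ := h1.pos ha
        rcases Nat.eq_zero_or_pos e with h0 | h0
        · exact Or.inr (Or.inl ⟨ha, h0⟩)
        · obtain ⟨e, rfl⟩ : ∃ t, e = t + 1 := ⟨e - 1, by omega⟩
          refine (h ?_).elim
          rw [show σ + (e + 1) = σ + 1 + e by omega]
          exact vle_dj_even p1 p3 hs
      · exact Or.inl ⟨ha, hs⟩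
  · rintro (⟨ha, hs⟩ | ⟨ha, rfl⟩ | ⟨rfl, hs⟩) h
    · obtain ⟨p1, p2, p3⟩ := h2.pos hs
      have e2 : e = 2 := by
        obtain ⟨t, ht⟩ := p1
        omega
      subst e2
      exact ha (stepU σ a s hs h)
    · exact ha (VLe.hom (s := dj a s) Sum.inl (fun _ _ h => h) h)
    · rw [zero_add] at h
      exact hs (VLe.hom (s := dj a s) Sum.inr (fun _ _ h => h) h)

lemma vle_rv {V : Type} {r : V → V → Prop} {k : ℕ} : VLe (rv r) k ↔ VLe r k :=
  ⟨fun h => h.rev, fun h => h.rev⟩

lemma vev_rv {V : Type} {r : V → V → Prop} {k : ℕ} : VEv (rv r) k ↔ VEv r k :=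
  ⟨fun h => h.rev, fun h => h.rev⟩

lemma vle_swap {V W : Type} {s : W → W → Prop} {r : V → V → Prop} {k : ℕ} :
    VLe (dj (rv r) (rv s)) k ↔ VLe (dj s r) k :=
  ⟨fun h => h.dj_swap, fun h => VLe.dj_swap (s := rv r) (r := rv s) h⟩

lemma vev_swap {V W : Type} {s : W → W → Prop} {r : V → V → Prop} {k : ℕ} :
    VEv (dj (rv r) (rv s)) k ↔ VEv (dj s r) k :=
  ⟨fun h => h.dj_swap, fun h => VEv.dj_swap (s := rv r) (r := rv s) h⟩

lemma rle_swap {V W : Type} {s : W → W → Prop} {r : V → V → Prop} {k : ℕ} :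
    RLe (dj (rv r) (rv s)) k ↔ RLe (dj s r) k :=
  or_congr vle_swap vev_swap

/-- **The dijoin**, the first graph small. -/
lemma val_dj' {V W : Type} {a : V → V → Prop} {s : W → W → Prop} {σ e : ℕ} (h1 : Val a σ)
    (h2 : Val s e) (he : e ≤ 3) : Val (dj s a) (σ + e) ∧
      (¬ VLe (dj s a) (σ + e) ↔ (¬ VLe a σ ∧ ¬ VLe s e) ∨ (¬ VLe a σ ∧ e = 0) ∨
        (σ = 0 ∧ ¬ VLe s e)) := by
  obtain ⟨⟨g1, g2⟩, g3⟩ := val_dj h1.rev h2.rev he
  refine ⟨⟨fun j hj g => g1 j hj (rle_swap.2 g), rle_swap.1 g2⟩, ?_⟩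
  rw [← vle_swap, g3, vle_rv, vle_rv]

lemma Val.iso {K L : Type} {a : K → K → Prop} {b : L → L → Prop} {σ : ℕ} (f : K → L)
    (hf : Function.Surjective f) (hab : ∀ x y, a x y ↔ b (f x) (f y)) :
    (Val a σ ↔ Val b σ) ∧ (VLe a σ ↔ VLe b σ) := by
  have h1 : ∀ x y, a x y → b (f x) (f y) := fun x y => (hab x y).1
  have h2 : ∀ x y, b x y → a (Function.surjInv hf x) (Function.surjInv hf y) := by
    intro x y hxy
    rw [hab, Function.surjInv_eq hf, Function.surjInv_eq hf]
    exact hxy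
  have h3 : ∀ j, RLe a j ↔ RLe b j := fun j => ⟨RLe.hom _ h2, RLe.hom _ h1⟩
  refine ⟨?_, ⟨VLe.hom _ h2, VLe.hom _ h1⟩⟩
  unfold Val
  simp only [h3]

/-- **Joins.** -/
lemma val_kj : ∀ (k : ℕ) (V : Fin k → Type) (r : ∀ i, V i → V i → Prop) (e : Fin k → ℕ)
    (m : Fin k), (∀ i, i ≠ m → e i ≤ 3) → (∀ i, Val (r i) (e i)) →
    Val (kj r) (∑ i, e i) ∧ (¬ VLe (kj r) (∑ i, e i) ↔
      (∃ i, ¬ VLe (r i) (e i)) ∧ ∀ i, ¬ VLe (r i) (e i) ∨ e i = 0) := by
  intro k
  induction k with
  | zero => intro V r e m; exact m.elim0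
  | succ k ih =>
    intro V r e m he h1
    induction m using Fin.cases with
    | zero =>
      rcases k with _ | k
      · have hs : Function.Surjective (fun a : V 0 => (⟨0, a⟩ : Σ i, V i)) := by
          rintro ⟨i, a⟩
          obtain rfl : i = 0 := Fin.ext (by have := i.2; simp only [Fin.val_zero]; omega)
          exact ⟨a, rfl⟩
        obtain ⟨g1, g2⟩ := Val.iso (a := r 0) (b := kj r) (σ := e 0) (fun a => ⟨0, a⟩) hs
          fun x y => (kj_inner r 0 x y).symm
        rw [show ∑ i, e i = e 0 by simp]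
        refine ⟨g1.1 (h1 0), ?_⟩
        rw [← g2]
        constructor
        · intro h
          refine ⟨⟨0, h⟩, fun i => ?_⟩
          obtain rfl : i = 0 := Fin.ext (by have := i.2; simp only [Fin.val_zero]; omega)
          exact Or.inl h
        · rintro ⟨⟨i, hi⟩, -⟩
          obtain rfl : i = 0 := Fin.ext (by have := i.2; simp only [Fin.val_zero]; omega)
          exact hi
      · obtain ⟨i1, i2⟩ := ih (fun i => V i.castSucc) (fun i => r i.castSucc)
          (fun i => e i.castSucc) 0 (fun i hi => he _ fun hc => hi (Fin.castSucc_injective _ hc))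
          (fun i => h1 _)
        obtain ⟨g1, g2⟩ := val_dj i1 (h1 (Fin.last _)) (he _ (Fin.last_pos).ne')
        obtain ⟨j1, j2⟩ := Val.iso (a := dj (kj fun i : Fin (k + 1) => r i.castSucc)
          (r (Fin.last _))) (b := kj r) (σ := ∑ i, e i) _ snoc_surj (kj_snoc r)
        rw [← Fin.sum_univ_castSucc e] at g1 g2
        refine ⟨j1.1 g1, ?_⟩
        rw [← j2, g2, i2]
        constructor
        · rintro (⟨⟨⟨i, hi⟩, hB⟩, hs⟩ | ⟨⟨⟨i, hi⟩, hB⟩, hs⟩ | ⟨h0, hs⟩)
          · refine ⟨⟨_, hs⟩, fun i => ?_⟩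
            induction i using Fin.lastCases with
            | last => exact Or.inl hs
            | cast i => exact hB i
          · refine ⟨⟨_, hi⟩, fun i => ?_⟩
            induction i using Fin.lastCases with
            | last => exact Or.inr hs
            | cast i => exact hB i
          · refine ⟨⟨_, hs⟩, fun i => ?_⟩
            induction i using Fin.lastCases with
            | last => exact Or.inl hs
            | cast i => exact Or.inr (Finset.sum_eq_zero_iff.1 h0 i (Finset.mem_univ i))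
        · rintro ⟨⟨i, hi⟩, hB⟩
          by_cases hA : ∃ i : Fin (k + 1), ¬ VLe (r i.castSucc) (e i.castSucc)
          · rcases hB (Fin.last _) with hs | hs
            · exact Or.inl ⟨⟨hA, fun i => hB _⟩, hs⟩
            · exact Or.inr (Or.inl ⟨⟨hA, fun i => hB _⟩, hs⟩)
          · refine Or.inr (Or.inr ⟨?_, ?_⟩)
            · exact Finset.sum_eq_zero fun i _ => (hB i.castSucc).resolve_left
                fun h => hA ⟨i, h⟩
            · induction i using Fin.lastCases with
              | last => exact hi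
              | cast i => exact (hA ⟨i, hi⟩).elim
    | succ m =>
      obtain ⟨i1, i2⟩ := ih (fun i => V i.succ) (fun i => r i.succ)
        (fun i => e i.succ) m (fun i hi => he _ fun hc => hi (Fin.succ_injective _ hc))
        (fun i => h1 _)
      obtain ⟨g1, g2⟩ := val_dj' i1 (h1 0) (he _ (Fin.succ_pos m).ne)
      obtain ⟨j1, j2⟩ := Val.iso (a := dj (r 0) (kj fun i : Fin k => r i.succ))
        (b := kj r) (σ := ∑ i, e i) _ cons_surj (kj_cons r)
      have hsum : ∑ i : Fin k, e i.succ + e 0 = ∑ i, e i := by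
        rw [Fin.sum_univ_succ e]
        exact Nat.add_comm _ _
      rw [hsum] at g1 g2
      refine ⟨j1.1 g1, ?_⟩
      rw [← j2, g2, i2]
      constructor
      · rintro (⟨⟨⟨i, hi⟩, hB⟩, hs⟩ | ⟨⟨⟨i, hi⟩, hB⟩, hs⟩ | ⟨h0, hs⟩)
        · refine ⟨⟨_, hs⟩, fun i => ?_⟩
          induction i using Fin.cases with
          | zero => exact Or.inl hs
          | succ i => exact hB i
        · refine ⟨⟨_, hi⟩, fun i => ?_⟩
          induction i using Fin.cases with
          | zero => exact Or.inr hs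
          | succ i => exact hB i
        · refine ⟨⟨_, hs⟩, fun i => ?_⟩
          induction i using Fin.cases with
          | zero => exact Or.inl hs
          | succ i => exact Or.inr (Finset.sum_eq_zero_iff.1 h0 i (Finset.mem_univ i))
      · rintro ⟨⟨i, hi⟩, hB⟩
        by_cases hA : ∃ i : Fin k, ¬ VLe (r i.succ) (e i.succ)
        · rcases hB 0 with hs | hs
          · exact Or.inl ⟨⟨hA, fun i => hB _⟩, hs⟩
          · exact Or.inr (Or.inl ⟨⟨hA, fun i => hB _⟩, hs⟩)
        · refine Or.inr (Or.inr ⟨?_, ?_⟩)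
          · exact Finset.sum_eq_zero fun i _ => (hB i.succ).resolve_left
              fun h => hA ⟨i, h⟩
          · induction i using Fin.cases with
            | zero => exact hi
            | succ i => exact (hA ⟨i, hi⟩).elim

/-- The least number exists. -/
lemma exists_val {V : Type} [Finite V] (r : V → V → Prop) (hr : ∀ a b, r a b → ¬ r b a) :
    ∃ σ, Val r σ := by
  classical
  obtain ⟨k, hk⟩ := exists_vle r hr
  have h : ∃ k, RLe r k := ⟨k, Or.inl hk⟩
  exact ⟨Nat.find h, fun j hj => Nat.find_min h hj, Nat.find_spec h⟩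

end Pool.Agent.H2.Dij2
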