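import Pool.Agent.H2.Dij.StepU

/-!
The inversion numbers of tournaments on `n` vertices.
-/

set_option autoImplicit false

namespace Pool.Agent.H2.Dij2

open Finset Matrix

/-- Tournaments. -/
def IsT {V : Type} (T : V → V → Prop) : Prop :=
  (∀ a, ¬ T a a) ∧ ∀ a b, a ≠ b → (T a b ↔ ¬ T b a)

lemma IsT.rv {V : Type} {T : V → V → Prop} (h : IsT T) : IsT (rv T) :=
  ⟨fun a => h.1 a, fun a b hab => h.2 b a (Ne.symm hab)⟩

/-- A source and an acyclic rest. -/
lemma acy_source {V : Type} {R : V → V → Prop} (u : V) (hu : ∀ a, ¬ R a u)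
    (h : Acy fun a b : {w : V // w ≠ u} => R a b) : Acy R := by
  have h1 : ∀ a b, Relation.TransGen R a b → b ≠ u := by
    intro a b hab
    induction hab with
    | single g => intro e; exact hu _ (e ▸ g)
    | tail _ g _ => intro e; exact hu _ (e ▸ g)
  have h2 : ∀ a b, Relation.TransGen R a b → ∀ (ha : a ≠ u) (hb : b ≠ u),
      Relation.TransGen (fun a b : {w : V // w ≠ u} => R a b) ⟨a, ha⟩ ⟨b, hb⟩ := by
    intro a b hab
    induction hab with
    | single h => intro ha hb; exact Relation.TransGen.single h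
    | tail h' h ih =>
      intro ha hb
      exact (ih ha (h1 _ _ h')).tail h
  intro v hv
  have hvu := h1 v v hv
  exact h ⟨v, hvu⟩ (h2 v v hv hvu hvu)

/-- One vertex and one inversion less, the arcs at `v` unchanged. -/
lemma peel' {V : Type} {T : V → V → Prop} (hT : IsT T) (u v : V) (huv : u ≠ v) (h : T u v) :
    ∃ T' : {w : V // w ≠ u} → {w : V // w ≠ u} → Prop, IsT T' ∧
      (∀ w, T' ⟨v, huv.symm⟩ w ↔ T v w) ∧ (∀ w, T' w ⟨v, huv.symm⟩ ↔ T w v) ∧
      ∀ s, VLe T' s → VLe T (s + 1) := by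
  classical
  let Y : V → Prop := fun w => T w u
  have hYv : ¬ Y v := (hT.2 u v huv).1 h
  have hYu : ¬ Y u := hT.1 u
  let T' : {w : V // w ≠ u} → {w : V // w ≠ u} → Prop := fun a b =>
    (¬ (Y a ∧ Y b) ∧ T a b) ∨ ((Y a ∧ Y b) ∧ T b a)
  refine ⟨T', ⟨?_, ?_⟩, ?_, ?_, ?_⟩
  · rintro a (⟨-, h⟩ | ⟨-, h⟩) <;> exact hT.1 _ h
  · intro a b hab
    have hab' : (a : V) ≠ b := fun e => hab (Subtype.ext e)
    have h1 := hT.2 a b hab'
    have h2 := hT.2 b a hab'.symm
    show (¬ (Y a ∧ Y b) ∧ T a b) ∨ ((Y a ∧ Y b) ∧ T b a) ↔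
      ¬ ((¬ (Y b ∧ Y a) ∧ T b a) ∨ ((Y b ∧ Y a) ∧ T a b))
    by_cases h3 : Y a ∧ Y b
    · have h4 : Y b ∧ Y a := ⟨h3.2, h3.1⟩
      simp only [h3, h4, not_true_eq_false, false_and, true_and, false_or, and_self]
      exact h2
    · have h4 : ¬ (Y b ∧ Y a) := fun h => h3 ⟨h.2, h.1⟩
      simp only [h3, h4, not_false_eq_true, true_and, false_and, or_false]
      exact h1
  · intro w
    show (¬ (Y v ∧ Y w) ∧ T v w) ∨ ((Y v ∧ Y w) ∧ T w v) ↔ T v w
    have h3 : ¬ (Y v ∧ Y w) := fun h => hYv h.1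
    simp only [h3, not_false_eq_true, true_and, false_and, or_false]
  · intro w
    show (¬ (Y w ∧ Y v) ∧ T w v) ∨ ((Y w ∧ Y v) ∧ T v w) ↔ T w v
    have h3 : ¬ (Y w ∧ Y v) := fun h => hYv h.2
    simp only [h3, not_false_eq_true, true_and, false_and, or_false]
  · rintro s ⟨x, hx⟩
    let X : V → Fin (s + 1) → ZMod 2 := fun w =>
      if hw : w ≠ u then (Fin.snoc (x ⟨w, hw⟩) (if Y w then 1 else 0) : Fin (s + 1) → ZMod 2)
      else (Fin.snoc (fun _ => 0) 1 : Fin (s + 1) → ZMod 2)
    have e1 : ∀ a b : {w : V // w ≠ u}, X a ⬝ᵥ X b = x a ⬝ᵥ x b +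
        (if Y a ∧ Y b then 1 else 0) := by
      intro a b
      simp only [X, dif_pos a.2, dif_pos b.2]
      rw [snoc_dot]
      by_cases ha : Y a <;> by_cases hb : Y b <;> simp [ha, hb]
    have e2 : ∀ a : {w : V // w ≠ u}, X u ⬝ᵥ X a = if Y a then 1 else 0 := by
      intro a
      simp only [X, dif_pos a.2, ne_eq, not_true_eq_false, dite_false]
      rw [snoc_dot]
      simp [dotProduct]
    refine ⟨X, acy_source u ?_ ?_⟩
    · intro a ha
      by_cases hau : a = u
      · subst hau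
        rcases ha with ⟨g, -⟩ | ⟨g, -⟩ <;> exact hT.1 _ g
      · have e3 := e2 ⟨a, hau⟩
        rw [dotProduct_comm] at e3
        rcases ha with ⟨g1, g2⟩ | ⟨g1, g2⟩
        · rw [e3, if_pos (show Y a from g1)] at g2
          exact absurd g2 (by decide)
        · rw [e3, if_neg (show ¬ Y a from (hT.2 u a (Ne.symm hau)).1 g1)] at g2
          exact absurd g2 (by decide)
    · refine acy_map id ?_ hx
      rintro a b (⟨g1, g2⟩ | ⟨g1, g2⟩)
      · rw [e1] at g2
        by_cases h3 : Y a ∧ Y b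
        · have h4 : Y b ∧ Y a := ⟨h3.2, h3.1⟩
          rw [if_pos h3] at g2
          refine Or.inr ⟨Or.inr ⟨h4, g1⟩, ?_⟩
          show x a ⬝ᵥ x b = 1
          generalize x a ⬝ᵥ x b = p at *
          revert g2; revert p; decide
        · rw [if_neg h3, add_zero] at g2
          exact Or.inl ⟨Or.inl ⟨h3, g1⟩, g2⟩
      · rw [e1] at g2
        by_cases h3 : Y a ∧ Y b
        · rw [if_pos h3] at g2
          refine Or.inl ⟨Or.inr ⟨h3, g1⟩, ?_⟩
          show x a ⬝ᵥ x b = 0
          generalize x a ⬝ᵥ x b = p at *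
          revert g2; revert p; decide
        · have h4 : ¬ (Y b ∧ Y a) := fun h => h3 ⟨h.2, h.1⟩
          rw [if_neg h3, add_zero] at g2
          exact Or.inr ⟨Or.inl ⟨h4, g1⟩, g2⟩

/-- One vertex and one inversion less, the arcs at `v` unchanged. -/
lemma peel {V : Type} {T : V → V → Prop} (hT : IsT T) (u v : V) (huv : u ≠ v) :
    ∃ T' : {w : V // w ≠ u} → {w : V // w ≠ u} → Prop, IsT T' ∧
      (∀ w, T' ⟨v, huv.symm⟩ w ↔ T v w) ∧ (∀ w, T' w ⟨v, huv.symm⟩ ↔ T w v) ∧
      ∀ s, VLe T' s → VLe T (s + 1) := by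
  by_cases h : T u v
  · exact peel' hT u v huv h
  · have h' : rv T u v := (hT.2 v u huv.symm).2 h
    obtain ⟨T', h1, h2, h3, h4⟩ := peel' hT.rv u v huv h'
    exact ⟨rv T', h1.rv, fun w => h3 w, fun w => h2 w, fun s hs => (h4 s hs.rev).rev⟩

/-- All tournaments on `n` vertices have inversion number at most `s`. -/
def Bd (n s : ℕ) : Prop :=
  ∀ (V : Type) (T : V → V → Prop), Finite V → IsT T → Nat.card V = n → VLe T s

lemma card_ne {V : Type} [Finite V] (u : V) : Nat.card {w : V // w ≠ u} + 1 = Nat.card V := by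
  classical
  have := Fintype.ofFinite V
  rw [Nat.card_eq_fintype_card, Nat.card_eq_fintype_card, Fintype.card_subtype_compl,
    Fintype.card_subtype_eq]
  have : 0 < Fintype.card V := Fintype.card_pos_iff.2 ⟨u⟩
  omega

/-- The vertex `v` dominates `m` vertices. -/
lemma dom_bound {m s : ℕ} (hm : Bd m s) : ∀ (p : ℕ) (V : Type) (T : V → V → Prop) (v : V)
    (M : Set V), Finite V → IsT T → Nat.card V = m + p + 1 → Nat.card M = m → v ∉ M →
    (∀ w ∈ M, T v w) → VLe T (p + s) := by
  intro p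
  induction p with
  | zero =>
    intro V T v M hV hT h1 h2 hv hd
    classical
    have hall : ∀ w, w ≠ v → w ∈ M := by
      have h3 : (insert v M).ncard = Nat.card V := by
        rw [Set.ncard_insert_of_notMem hv]
        rw [Nat.card_coe_set_eq] at h2
        omega
      have h4 : insert v M = Set.univ := by
        apply Set.eq_of_subset_of_ncard_le (Set.subset_univ _)
        rw [h3, Set.ncard_univ]
      intro w hw
      have h5 : w ∈ insert v M := by rw [h4]; trivial
      exact (Set.mem_insert_iff.1 h5).resolve_left hw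
    have hM : VLe (fun a b : M => T a b) s := by
      refine hm M _ inferInstance ⟨fun a => hT.1 a, fun a b hab => hT.2 a b ?_⟩ h2
      exact fun e => hab (Subtype.ext e)
    have h0 : VLe (fun _ _ : Unit => False) 0 :=
      ⟨fun _ _ => 0, acy_of_lt (A := ℕ) (fun _ => 0) fun a b h => by
        rcases h with ⟨h, -⟩ | ⟨h, -⟩ <;> exact h.elim⟩
    refine VLe.hom (s := dj (fun _ _ : Unit => False) fun a b : M => T a b)
      (fun w => if h : w = v then Sum.inl () else Sum.inr ⟨w, hall w h⟩) ?_ (vle_dj h0 hM)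
    intro a b hab
    by_cases ha : a = v
    · by_cases hb : b = v
      · subst ha; subst hb; exact (hT.1 _ hab).elim
      · simp only [ha, hb, dite_true, dite_false]; trivial
    · by_cases hb : b = v
      · subst hb
        exact ((hT.2 _ _ ha).1 hab (hd a (hall a ha))).elim
      · simp only [ha, hb, dite_false]; exact hab
  | succ p ih =>
    intro V T v M hV hT h1 h2 hv hd
    have hex : ∃ u, u ≠ v ∧ u ∉ M := by
      by_contra hc
      push Not at hc
      have h3 : (insert v M).ncard = m + 1 := by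
        rw [Set.ncard_insert_of_notMem hv]
        rw [Nat.card_coe_set_eq] at h2
        omega
      have h4 : insert v M = Set.univ := by
        ext w
        refine ⟨fun _ => trivial, fun _ => ?_⟩
        by_cases hw : w = v
        · exact Or.inl hw
        · exact Or.inr (hc w hw)
      rw [h4, Set.ncard_univ] at h3
      omega
    obtain ⟨u, huv, huM⟩ := hex
    obtain ⟨T', i1, i2, i3, i4⟩ := peel hT u v huv
    have hcard := card_ne u
    have := ih {w : V // w ≠ u} T' ⟨v, huv.symm⟩ (Subtype.val ⁻¹' M) inferInstance i1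
      (by omega) ?_ hv (fun w hw => (i2 w).2 (hd _ hw))
    · rw [show p + 1 + s = p + s + 1 by omega]
      exact i4 _ this
    · rw [← h2]
      refine Nat.card_congr ⟨fun w => ⟨w.1.1, w.2⟩, fun w => ⟨⟨w.1, fun e => huM (e ▸ w.2)⟩, w.2⟩,
        fun w => rfl, fun w => rfl⟩

lemma Bd.succ {n s : ℕ} (h : Bd n s) : Bd (n + 1) (s + 1) := by
  intro V T hV hT hc
  rcases n with _ | n
  · have : Subsingleton V := (Nat.card_eq_one_iff_unique.1 (by omega)).1
    refine ⟨fun _ _ => 0, acy_of_lt (A := ℕ) (fun _ => 0) fun a b h => ?_⟩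
    rcases h with ⟨h, -⟩ | ⟨h, -⟩
    · rw [Subsingleton.elim a b] at h; exact (hT.1 _ h).elim
    · rw [Subsingleton.elim a b] at h; exact (hT.1 _ h).elim
  · have : Nontrivial V := Finite.one_lt_card_iff_nontrivial.1 (by omega)
    obtain ⟨u, v, huv⟩ := exists_pair_ne V
    obtain ⟨T', i1, -, -, i4⟩ := peel hT u v huv
    have := card_ne u
    exact i4 _ (h _ T' inferInstance i1 (by omega))

lemma Bd.add {n s : ℕ} (h : Bd n s) (d : ℕ) : Bd (n + d) (s + d) := by
  induction d with
  | zero => exact h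
  | succ d ih => exact ih.succ

lemma Bd.double {m s p : ℕ} (h : Bd m s) (hp : m ≤ p + 1) : Bd (m + p + 1) (p + s) := by
  intro V T hV hT hc
  classical
  have hne : Nonempty V := (Nat.card_pos_iff.1 (by omega)).1
  obtain ⟨v⟩ := hne
  have hsum : {w | T v w}.ncard + {w | T w v}.ncard = m + p := by
    have hd : Disjoint {w | T v w} {w | T w v} := by
      rw [Set.disjoint_left]
      intro w h1 h2
      by_cases hw : v = w
      · subst hw; exact hT.1 _ h1
      · exact (hT.2 _ _ hw).1 h1 h2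
    have hu : {w | T v w} ∪ {w | T w v} = {v}ᶜ := by
      ext w
      simp only [Set.mem_union, Set.mem_ofPred_eq, Set.mem_compl_iff, Set.mem_singleton_iff]
      constructor
      · rintro (h | h) rfl <;> exact hT.1 _ h
      · intro hw
        by_cases h : T v w
        · exact Or.inl h
        · exact Or.inr ((hT.2 w v hw).2 h)
    rw [← Set.ncard_union_eq hd, hu]
    have := Set.ncard_add_ncard_compl ({v} : Set V)
    rw [Set.ncard_singleton] at this
    omega
  rcases Nat.lt_or_ge {w | T v w}.ncard m with h1 | h1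
  · obtain ⟨M, hM, hMc⟩ := Set.exists_subset_card_eq (s := {w | T w v}) (n := m) (by omega)
    have := dom_bound h p V (rv T) v M hV hT.rv hc (by rw [Nat.card_coe_set_eq]; exact hMc)
      (fun hv => hT.1 _ (hM hv)) (fun w hw => hM hw)
    exact this.rev
  · obtain ⟨M, hM, hMc⟩ := Set.exists_subset_card_eq (s := {w | T v w}) (n := m) h1
    exact dom_bound h p V T v M hV hT hc (by rw [Nat.card_coe_set_eq]; exact hMc)
      (fun hv => hT.1 _ (hM hv)) (fun w hw => hM hw)

lemma bd_one : Bd 1 0 := by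
  intro V T hV hT hc
  have : Subsingleton V := (Nat.card_eq_one_iff_unique.1 hc).1
  refine ⟨fun _ _ => 0, acy_of_lt (A := ℕ) (fun _ => 0) fun a b h => ?_⟩
  rcases h with ⟨h, -⟩ | ⟨h, -⟩
  · rw [Subsingleton.elim a b] at h; exact (hT.1 _ h).elim
  · rw [Subsingleton.elim a b] at h; exact (hT.1 _ h).elim

lemma bd_pow (k : ℕ) : ∃ s, s + k + 1 = 2 ^ k ∧ Bd (2 ^ k) s := by
  induction k with
  | zero => exact ⟨0, rfl, bd_one⟩
  | succ k ih =>
    obtain ⟨s, h1, h2⟩ := ih
    have h3 := h2.double (p := 2 ^ k - 1) (by omega)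
    refine ⟨2 ^ k - 1 + s, by rw [pow_succ]; omega, ?_⟩
    have h4 : 2 ^ k + (2 ^ k - 1) + 1 = 2 ^ (k + 1) := by
      rw [pow_succ]
      have : 1 ≤ 2 ^ k := Nat.one_le_two_pow
      omega
    rw [h4] at h3
    exact h3

/-- **The bound** for tournaments. -/
lemma bd_log {n : ℕ} (hn : 1 ≤ n) : ∃ s, s + Nat.log 2 n + 1 = n ∧ Bd n s := by
  obtain ⟨s, h1, h2⟩ := bd_pow (Nat.log 2 n)
  have h3 : 2 ^ Nat.log 2 n ≤ n := Nat.pow_log_le_self 2 (by omega)
  obtain ⟨d, hd⟩ := Nat.exists_eq_add_of_le h3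
  refine ⟨s + d, by omega, ?_⟩
  have h4 := h2.add d
  rw [← hd] at h4
  exact h4

end Pool.Agent.H2.Dij2
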