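import Pool.Agent.H2.Dij.Vec

/-!
Unipotent lower triangular matrices over `ZMod 2` and tournaments: every tournament on `Fin t` is
given by the Gram matrix of the rows of exactly one such matrix.
-/

set_option autoImplicit false

namespace Pool.Agent.H2.Dij2

open Finset Matrix

/-- Unipotent lower triangular matrices. -/
def IsUni {t : ℕ} (Y : Matrix (Fin t) (Fin t) (ZMod 2)) : Prop :=
  (∀ i, Y i i = 1) ∧ ∀ i j, i < j → Y i j = 0

/-- A unipotent matrix is determined by the products of its rows. -/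
lemma uni_inj {t : ℕ} {Y Y' : Matrix (Fin t) (Fin t) (ZMod 2)} (hY : IsUni Y) (hY' : IsUni Y')
    (h : ∀ i j, j < i → Y i ⬝ᵥ Y j = Y' i ⬝ᵥ Y' j) : Y = Y' := by
  have key : ∀ (n : ℕ) (j : Fin t), j.val = n → ∀ i, Y i j = Y' i j := by
    intro n
    induction n using Nat.strong_induction_on with
    | _ n ih =>
      intro j hj i
      rcases lt_trichotomy i j with hij | hij | hij
      · rw [hY.2 i j hij, hY'.2 i j hij]
      · subst hij; rw [hY.1, hY'.1]
      · have h1 := h i j hij
        have h2 : ∑ l, (Y i l * Y j l - Y' i l * Y' j l) = 0 := by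
          rw [Finset.sum_sub_distrib]
          exact sub_eq_zero.2 h1
        rw [Finset.sum_eq_single j] at h2
        · rw [hY.1, hY'.1, mul_one, mul_one] at h2
          exact sub_eq_zero.1 h2
        · intro l _ hl
          rcases lt_or_gt_of_ne hl with hl' | hl'
          · have e := ih l.val (by rw [← hj]; exact hl') l rfl
            rw [e i, e j, sub_self]
          · rw [hY.2 j l hl', hY'.2 j l hl', mul_zero, mul_zero, sub_self]
        · intro hh
          exact (hh (Finset.mem_univ _)).elim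
  ext i j
  exact key j.val j rfl i

/-- The reversed transpose. -/
def rt {t : ℕ} (Z : Matrix (Fin t) (Fin t) (ZMod 2)) : Matrix (Fin t) (Fin t) (ZMod 2) :=
  Matrix.of fun a b => Z b.rev a.rev

lemma rt_uni {t : ℕ} {Z : Matrix (Fin t) (Fin t) (ZMod 2)} (hZ : IsUni Z) : IsUni (rt Z) :=
  ⟨fun i => hZ.1 _, fun i j hij => hZ.2 _ _ (Fin.rev_lt_rev.2 hij)⟩

lemma rt_dot {t : ℕ} (Z : Matrix (Fin t) (Fin t) (ZMod 2)) (i j : Fin t) :
    rt Z i ⬝ᵥ rt Z j = (fun l => Z l i.rev) ⬝ᵥ (fun l => Z l j.rev) := by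
  unfold dotProduct rt
  simp only [Matrix.of_apply]
  exact Equiv.sum_comp Fin.revPerm (fun l => Z l i.rev * Z l j.rev)

/-- A unipotent matrix is determined by the products of its columns. -/
lemma uni_inj' {t : ℕ} {Z Z' : Matrix (Fin t) (Fin t) (ZMod 2)} (hZ : IsUni Z) (hZ' : IsUni Z')
    (h : ∀ i j, j < i → (fun l => Z l i) ⬝ᵥ (fun l => Z l j) =
      (fun l => Z' l i) ⬝ᵥ (fun l => Z' l j)) : Z = Z' := by
  have h1 : rt Z = rt Z' := by
    refine uni_inj (rt_uni hZ) (rt_uni hZ') ?_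
    intro i j hij
    rw [rt_dot, rt_dot, dotProduct_comm, dotProduct_comm (fun l => Z' l i.rev)]
    exact h _ _ (Fin.rev_lt_rev.2 hij)
  ext i j
  have := congrFun (congrFun h1 j.rev) i.rev
  simpa [rt] using this

lemma uni_det {t : ℕ} {Y : Matrix (Fin t) (Fin t) (ZMod 2)} (hY : IsUni Y) : Y.det = 1 := by
  have h : Y.IsLowerTriangular := fun i j hij => hY.2 i j hij
  rw [Matrix.det_of_isLowerTriangular Y h]
  exact Finset.prod_eq_one fun i _ => hY.1 i

lemma uni_of_det {t : ℕ} {Y : Matrix (Fin t) (Fin t) (ZMod 2)} (h : Y.IsLowerTriangular)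
    (hd : Y.det = 1) : IsUni Y := by
  refine ⟨fun i => ?_, fun i j hij => h hij⟩
  rw [Matrix.det_of_isLowerTriangular Y h] at hd
  rcases zc (Y i i) with h0 | h0
  · have h1 : ∏ i, Y i i = 0 := Finset.prod_eq_zero (i := i) (Finset.mem_univ i) h0
    exact absurd (h1.symm.trans hd) (by decide)
  · exact h0

/-- The lower triangular all-one matrix. -/
def CC (t : ℕ) : Matrix (Fin t) (Fin t) (ZMod 2) := Matrix.of fun i j => if j ≤ i then 1 else 0

lemma CC_uni (t : ℕ) : IsUni (CC t) := by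
  refine ⟨fun i => by simp [CC], fun i j hij => ?_⟩
  simp only [CC, Matrix.of_apply]
  rw [if_neg (not_le.2 hij)]

/-- The partner. -/
noncomputable def par {t : ℕ} (Y : Matrix (Fin t) (Fin t) (ZMod 2)) :
    Matrix (Fin t) (Fin t) (ZMod 2) := Y⁻¹ * CC t

lemma mul_par {t : ℕ} {Y : Matrix (Fin t) (Fin t) (ZMod 2)} (hY : IsUni Y) :
    Y * par Y = CC t := by
  have h : IsUnit Y.det := by rw [uni_det hY]; exact isUnit_one
  unfold par
  rw [← Matrix.mul_assoc, Matrix.mul_nonsing_inv _ h, Matrix.one_mul]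

lemma par_uni {t : ℕ} {Y : Matrix (Fin t) (Fin t) (ZMod 2)} (hY : IsUni Y) : IsUni (par Y) := by
  have h : IsUnit Y.det := by rw [uni_det hY]; exact isUnit_one
  have : Invertible Y := Matrix.invertibleOfIsUnitDet Y h
  have h1 : Y.BlockTriangular OrderDual.toDual := fun i j hij => hY.2 i j hij
  have h2 : (Y⁻¹).BlockTriangular OrderDual.toDual :=
    Matrix.blockTriangular_inv_of_blockTriangular h1
  have h3 : (CC t).BlockTriangular OrderDual.toDual := fun i j hij => (CC_uni t).2 i j hij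
  apply uni_of_det
  · exact h2.mul h3
  · have := congrArg Matrix.det (mul_par hY)
    rw [Matrix.det_mul, uni_det hY, one_mul, uni_det (CC_uni t)] at this
    exact this

lemma par_inj {t : ℕ} {Y Y' : Matrix (Fin t) (Fin t) (ZMod 2)} (hY : IsUni Y) (hY' : IsUni Y')
    (h : par Y = par Y') : Y = Y' := by
  have h1 := mul_par hY
  have h2 := mul_par hY'
  rw [← h] at h2
  have h3 : IsUnit (par Y).det := by rw [uni_det (par_uni hY)]; exact isUnit_one
  have h4 : Y * par Y * (par Y)⁻¹ = Y' * par Y * (par Y)⁻¹ := by rw [h1, h2]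
  rwa [Matrix.mul_assoc, Matrix.mul_assoc, Matrix.mul_nonsing_inv _ h3, Matrix.mul_one,
    Matrix.mul_one] at h4

/-- Pairs `(i, j)` with `j < i`. -/
abbrev Low (t : ℕ) : Type := {p : Fin t × Fin t // p.2 < p.1}

/-- The tournament of a pattern. -/
def TT {t : ℕ} (g : Low t → ZMod 2) (a b : Fin t) : Prop :=
  (∃ h : a < b, g ⟨(b, a), h⟩ = 0) ∨ (∃ h : b < a, g ⟨(a, b), h⟩ = 1)

lemma TT_asymm {t : ℕ} (g : Low t → ZMod 2) (a b : Fin t) (h : TT g a b) : ¬ TT g b a := by
  intro h'
  rcases h with ⟨h1, h2⟩ | ⟨h1, h2⟩ <;> rcases h' with ⟨g1, g2⟩ | ⟨g1, g2⟩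
  · exact absurd (lt_trans h1 g1) (lt_irrefl _)
  · rw [h2] at g2; exact absurd g2 (by decide)
  · rw [h2] at g2; exact absurd g2 (by decide)
  · exact absurd (lt_trans h1 g1) (lt_irrefl _)

/-- The pattern of a family of vectors. -/
def pat {t k : ℕ} (y : Fin t → Fin k → ZMod 2) (p : Low t) : ZMod 2 := y p.1.1 ⬝ᵥ y p.1.2

/-- Arcs of the tournament of the pattern of `y` after the inversions coded by `y` go up. -/
lemma arc_pat {t k : ℕ} (y : Fin t → Fin k → ZMod 2) (a b : Fin t) (h : Arc (TT (pat y)) y a b) :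
    a < b := by
  rcases h with ⟨⟨h1, h2⟩ | ⟨h1, h2⟩, h3⟩ | ⟨⟨h1, h2⟩ | ⟨h1, h2⟩, h3⟩
  · exact h1
  · simp only [pat] at h2
    rw [h3] at h2; exact absurd h2 (by decide)
  · simp only [pat] at h2
    rw [h3] at h2; exact absurd h2 (by decide)
  · exact h1

lemma vle_pat {t k : ℕ} (y : Fin t → Fin k → ZMod 2) : VLe (TT (pat y)) k :=
  ⟨y, acy_of_lt id (arc_pat y)⟩

/-- **The upper bound**: the dijoin of the tournaments of `Y` and of its partner. -/
lemma upper_dj {t : ℕ} {Y : Matrix (Fin t) (Fin t) (ZMod 2)} (hY : IsUni Y) :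
    VLe (dj (TT (pat (fun i => Y i))) (TT (pat (fun j l => par Y l j)))) t := by
  have hC : ∀ i j, Y i ⬝ᵥ (fun l => par Y l j) = if j ≤ i then 1 else 0 := by
    intro i j
    have := congrFun (congrFun (mul_par hY) i) j
    rw [Matrix.mul_apply] at this
    exact this
  refine ⟨Sum.elim (fun i => Y i) (fun j l => par Y l j), acy_of_lt (A := ℕ)
    (Sum.elim (fun i => 2 * i.val + 1) (fun j => 2 * j.val)) ?_⟩
  rintro (a | a) (b | b) h
  · have := arc_pat (fun i => Y i) a b h
    have h' : a.val < b.val := this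
    show 2 * a.val + 1 < 2 * b.val + 1
    omega
  · show 2 * a.val + 1 < 2 * b.val
    rcases h with ⟨-, h⟩ | ⟨h, -⟩
    · have h' : (if b ≤ a then (1 : ZMod 2) else 0) = 0 := by rw [← hC]; exact h
      by_cases hba : b ≤ a
      · rw [if_pos hba] at h'; exact absurd h' (by decide)
      · have : a.val < b.val := not_le.1 hba
        omega
    · exact h.elim
  · show 2 * a.val < 2 * b.val + 1
    rcases h with ⟨h, -⟩ | ⟨-, h⟩
    · exact h.elim
    · have h' : (if a ≤ b then (1 : ZMod 2) else 0) = 1 := by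
        rw [← hC, dotProduct_comm]; exact h
      by_cases hba : a ≤ b
      · have : a.val ≤ b.val := hba
        omega
      · rw [if_neg hba] at h'; exact absurd h' (by decide)
  · have := arc_pat (fun j l => par Y l j) a b h
    have h' : a.val < b.val := this
    show 2 * a.val < 2 * b.val
    omega

end Pool.Agent.H2.Dij2
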