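import Mathlib

/-!
Inversions of oriented graphs and vectors over `ZMod 2`.
-/

set_option autoImplicit false

namespace Pool.Agent.H2.Dij2

open Finset Matrix

/-- No directed closed walk. -/
def Acy {V : Type} (R : V → V → Prop) : Prop := ∀ v, ¬ Relation.TransGen R v v

/-- The arcs after the inversions coded by the vectors `x`. -/
def Arc {V : Type} (r : V → V → Prop) {k : ℕ} (x : V → Fin k → ZMod 2) (a b : V) : Prop :=
  (r a b ∧ x a ⬝ᵥ x b = 0) ∨ (r b a ∧ x a ⬝ᵥ x b = 1)

/-- `k` inversions are enough (vector form). -/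
def VLe {V : Type} (r : V → V → Prop) (k : ℕ) : Prop :=
  ∃ x : V → Fin k → ZMod 2, Acy (Arc r x)

/-- `k` inversions are enough, every vertex in an even number of the sets (vector form). -/
def VEv {V : Type} (r : V → V → Prop) (k : ℕ) : Prop :=
  ∃ x : V → Fin k → ZMod 2, Acy (Arc r x) ∧ ∀ a, x a ⬝ᵥ x a = 0

/-- The dijoin. -/
def dj {V W : Type} (r₁ : V → V → Prop) (r₂ : W → W → Prop) : V ⊕ W → V ⊕ W → Prop
  | Sum.inl a, Sum.inl b => r₁ a b
  | Sum.inr a, Sum.inr b => r₂ a b
  | Sum.inl _, Sum.inr _ => True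
  | Sum.inr _, Sum.inl _ => False

lemma zc (x : ZMod 2) : x = 0 ∨ x = 1 := by
  revert x; decide

lemma no_tri {V : Type} {R : V → V → Prop} (h : Acy R) {a b c : V} (h1 : R a b) (h2 : R b c)
    (h3 : R c a) : False :=
  h a ((Relation.TransGen.single h1).trans ((Relation.TransGen.single h2).trans
    (Relation.TransGen.single h3)))

lemma acy_of_lt {V A : Type} [Preorder A] {R : V → V → Prop} (f : V → A)
    (h : ∀ a b, R a b → f a < f b) : Acy R := by
  have key : ∀ a b, Relation.TransGen R a b → f a < f b := by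
    intro a b hab
    induction hab with
    | single h1 => exact h _ _ h1
    | tail _ h1 ih => exact lt_trans ih (h _ _ h1)
  intro v hv
  exact lt_irrefl _ (key v v hv)

lemma acy_map {V W : Type} {R : V → V → Prop} {S : W → W → Prop} (g : V → W)
    (h : ∀ a b, R a b → S (g a) (g b)) (hS : Acy S) : Acy R := by
  intro v hv
  exact hS (g v) (Relation.TransGen.lift g h _ _ hv)

/-- Pull back along a homomorphism, changing the vectors by a map which keeps the products. -/
lemma acy_arc {V W : Type} {r : V → V → Prop} {s : W → W → Prop} (g : V → W)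
    (hg : ∀ a b, r a b → s (g a) (g b)) {k l : ℕ} {x : V → Fin k → ZMod 2}
    {y : W → Fin l → ZMod 2} (h : ∀ a b, x a ⬝ᵥ x b = y (g a) ⬝ᵥ y (g b))
    (hy : Acy (Arc s y)) : Acy (Arc r x) := by
  refine acy_map g ?_ hy
  rintro a b (⟨h1, h2⟩ | ⟨h1, h2⟩)
  · exact Or.inl ⟨hg _ _ h1, by rw [← h]; exact h2⟩
  · exact Or.inr ⟨hg _ _ h1, by rw [← h]; exact h2⟩

lemma VLe.hom {V W : Type} {r : V → V → Prop} {s : W → W → Prop} (g : V → W)
    (hg : ∀ a b, r a b → s (g a) (g b)) {k : ℕ} (h : VLe s k) : VLe r k := by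
  obtain ⟨y, hy⟩ := h
  exact ⟨fun a => y (g a), acy_arc g hg (fun _ _ => rfl) hy⟩

lemma VEv.hom {V W : Type} {r : V → V → Prop} {s : W → W → Prop} (g : V → W)
    (hg : ∀ a b, r a b → s (g a) (g b)) {k : ℕ} (h : VEv s k) : VEv r k := by
  obtain ⟨y, hy, h0⟩ := h
  exact ⟨fun a => y (g a), acy_arc g hg (fun _ _ => rfl) hy, fun a => h0 _⟩

/-- Append a zero coordinate. -/
lemma snoc_dot {k : ℕ} (x y : Fin k → ZMod 2) (s t : ZMod 2) :
    (Fin.snoc x s : Fin (k + 1) → ZMod 2) ⬝ᵥ (Fin.snoc y t : Fin (k + 1) → ZMod 2) =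
      x ⬝ᵥ y + s * t := by
  simp only [dotProduct, Fin.sum_univ_castSucc, Fin.snoc_castSucc, Fin.snoc_last]

lemma VLe.succ {V : Type} {r : V → V → Prop} {k : ℕ} (h : VLe r k) : VLe r (k + 1) := by
  obtain ⟨y, hy⟩ := h
  refine ⟨fun a => (Fin.snoc (y a) 0 : Fin (k + 1) → ZMod 2), ?_⟩
  exact acy_arc id (fun _ _ h => h) (fun a b => by rw [snoc_dot]; simp) hy

lemma VEv.succ {V : Type} {r : V → V → Prop} {k : ℕ} (h : VEv r k) : VEv r (k + 1) := by
  obtain ⟨y, hy, h0⟩ := h
  refine ⟨fun a => (Fin.snoc (y a) 0 : Fin (k + 1) → ZMod 2), ?_, ?_⟩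
  · exact acy_arc id (fun _ _ h => h) (fun a b => by rw [snoc_dot]; simp) hy
  · intro a
    rw [snoc_dot, h0]; simp

lemma VLe.mono {V : Type} {r : V → V → Prop} {k l : ℕ} (h : VLe r k) (hkl : k ≤ l) :
    VLe r l := by
  induction hkl with
  | refl => exact h
  | step _ ih => exact ih.succ

lemma VEv.mono {V : Type} {r : V → V → Prop} {k l : ℕ} (h : VEv r k) (hkl : k ≤ l) :
    VEv r l := by
  induction hkl with
  | refl => exact h
  | step _ ih => exact ih.succ

lemma VEv.vle {V : Type} {r : V → V → Prop} {k : ℕ} (h : VEv r k) : VLe r k :=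
  ⟨h.choose, h.choose_spec.1⟩

/-- Closed walks in a dijoin. -/
lemma acy_dj {V W : Type} {R : V ⊕ W → V ⊕ W → Prop} (h1 : Acy fun a b => R (Sum.inl a) (Sum.inl b))
    (h2 : Acy fun a b => R (Sum.inr a) (Sum.inr b)) (h3 : ∀ a b, ¬ R (Sum.inr a) (Sum.inl b)) :
    Acy R := by
  have key : ∀ x y, Relation.TransGen R x y →
      ((∀ a b, x = Sum.inl a → y = Sum.inl b →
        Relation.TransGen (fun a b => R (Sum.inl a) (Sum.inl b)) a b) ∧
      (∀ a b, x = Sum.inr a → y = Sum.inr b →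
        Relation.TransGen (fun a b => R (Sum.inr a) (Sum.inr b)) a b)) ∧
      (∀ a b, x = Sum.inr a → y = Sum.inl b → False) := by
    intro x y hxy
    induction hxy with
    | single h =>
      refine ⟨⟨?_, ?_⟩, ?_⟩
      · rintro a b rfl rfl; exact Relation.TransGen.single h
      · rintro a b rfl rfl; exact Relation.TransGen.single h
      · rintro a b rfl rfl; exact h3 _ _ h
    | @tail z w hz h ih =>
      obtain ⟨⟨i1, i2⟩, i3⟩ := ih
      refine ⟨⟨?_, ?_⟩, ?_⟩
      · rintro a b rfl rfl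
        rcases z with c | c
        · exact (i1 a c rfl rfl).tail h
        · exact (h3 _ _ h).elim
      · rintro a b rfl rfl
        rcases z with c | c
        · exact (i3 a c rfl rfl).elim
        · exact (i2 a c rfl rfl).tail h
      · rintro a b rfl rfl
        rcases z with c | c
        · exact i3 a c rfl rfl
        · exact h3 _ _ h
  rintro (v | v) hv
  · exact h1 v ((key _ _ hv).1.1 v v rfl rfl)
  · exact h2 v ((key _ _ hv).1.2 v v rfl rfl)

/-- Subadditivity. -/
lemma vle_dj {V W : Type} {r₁ : V → V → Prop} {r₂ : W → W → Prop} {k l : ℕ} (h1 : VLe r₁ k)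
    (h2 : VLe r₂ l) : VLe (dj r₁ r₂) (k + l) := by
  obtain ⟨x, hx⟩ := h1
  obtain ⟨y, hy⟩ := h2
  let z : V ⊕ W → Fin (k + l) → ZMod 2 := fun v => Fin.append (Sum.elim x (fun _ => 0) v)
    (Sum.elim (fun _ => 0) y v)
  have hz : ∀ a b, z a ⬝ᵥ z b = Sum.elim x (fun _ => 0) a ⬝ᵥ Sum.elim x (fun _ => 0) b +
      Sum.elim (fun _ => 0) y a ⬝ᵥ Sum.elim (fun _ => 0) y b := by
    intro a b
    simp only [z, dotProduct, Fin.sum_univ_add, Fin.append_left, Fin.append_right]
  refine ⟨z, acy_dj ?_ ?_ ?_⟩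
  · refine acy_map id ?_ hx
    rintro a b (⟨g1, g2⟩ | ⟨g1, g2⟩)
    · exact Or.inl ⟨g1, by rw [hz] at g2; simpa [dotProduct] using g2⟩
    · exact Or.inr ⟨g1, by rw [hz] at g2; simpa [dotProduct] using g2⟩
  · refine acy_map id ?_ hy
    rintro a b (⟨g1, g2⟩ | ⟨g1, g2⟩)
    · exact Or.inl ⟨g1, by rw [hz] at g2; simpa [dotProduct] using g2⟩
    · exact Or.inr ⟨g1, by rw [hz] at g2; simpa [dotProduct] using g2⟩
  · rintro a b (⟨g1, g2⟩ | ⟨g1, g2⟩)
    · exact g1
    · rw [hz] at g2
      simp [dotProduct] at g2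

/-- The dijoin with a `universal' graph: the first graph has vectors orthogonal to the all-one
vector in odd dimension. -/
lemma vle_dj_even {V W : Type} {r₁ : V → V → Prop} {r₂ : W → W → Prop} {k l : ℕ}
    (hk : Odd k) (h1 : VEv r₁ k) (h2 : VLe r₂ (l + 1)) : VLe (dj r₁ r₂) (k + l) := by
  obtain ⟨x, hx, hx0⟩ := h1
  obtain ⟨y, hy⟩ := h2
  have hk1 : ((k : ℕ) : ZMod 2) = 1 := (ZMod.natCast_eq_one_iff_odd).2 hk
  have hsum : ∀ a, ∑ i, x a i = 0 := by
    intro a
    have := hx0 a
    rw [dotProduct] at this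
    rw [← this]
    refine Finset.sum_congr rfl fun i _ => ?_
    rcases zc (x a i) with h | h <;> rw [h] <;> decide
  let p : V ⊕ W → Fin k → ZMod 2 := Sum.elim x (fun w _ => y w (Fin.last l))
  let q : V ⊕ W → Fin l → ZMod 2 := Sum.elim (fun _ _ => 0) (fun w i => y w i.castSucc)
  let z : V ⊕ W → Fin (k + l) → ZMod 2 := fun v => Fin.append (p v) (q v)
  have hz : ∀ a b, z a ⬝ᵥ z b = p a ⬝ᵥ p b + q a ⬝ᵥ q b := by
    intro a b
    simp only [z, dotProduct, Fin.sum_univ_add, Fin.append_left, Fin.append_right]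
  refine ⟨z, acy_dj ?_ ?_ ?_⟩
  · refine acy_map id ?_ hx
    have e : ∀ a b : V, z (Sum.inl a) ⬝ᵥ z (Sum.inl b) = x a ⬝ᵥ x b := by
      intro a b
      rw [hz]; simp [dotProduct, p, q]
    rintro a b (⟨g1, g2⟩ | ⟨g1, g2⟩)
    · exact Or.inl ⟨g1, by rw [e] at g2; exact g2⟩
    · exact Or.inr ⟨g1, by rw [e] at g2; exact g2⟩
  · refine acy_map id ?_ hy
    have e : ∀ a b : W, z (Sum.inr a) ⬝ᵥ z (Sum.inr b) = y a ⬝ᵥ y b := by
      intro a b
      rw [hz]
      simp only [p, q, Sum.elim_inr, dotProduct, Finset.sum_const, Finset.card_univ,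
        Fintype.card_fin, nsmul_eq_mul, hk1, one_mul]
      rw [Fin.sum_univ_castSucc (fun i => y a i * y b i), add_comm]
    rintro a b (⟨g1, g2⟩ | ⟨g1, g2⟩)
    · exact Or.inl ⟨g1, by rw [e] at g2; exact g2⟩
    · exact Or.inr ⟨g1, by rw [e] at g2; exact g2⟩
  · rintro a b (⟨g1, g2⟩ | ⟨g1, g2⟩)
    · exact g1
    · rw [hz] at g2
      simp only [p, q, Sum.elim_inr, Sum.elim_inl, dotProduct, ← Finset.mul_sum, hsum, mul_zero,
        Finset.sum_const_zero, add_zero] at g2
      exact absurd g2 (by decide)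

/-- Deleting a coordinate: `w` of norm one with `w j = 0`. -/
lemma reduce {s : ℕ} (w : Fin (s + 1) → ZMod 2) (hw : w ⬝ᵥ w = 1) (j : Fin (s + 1))
    (hj : w j = 0) (x y : Fin (s + 1) → ZMod 2) (hx : x ⬝ᵥ w = 0) (hy : y ⬝ᵥ w = 0) :
    (fun i : Fin s => x (j.succAbove i) + x j * w (j.succAbove i)) ⬝ᵥ
      (fun i : Fin s => y (j.succAbove i) + y j * w (j.succAbove i)) = x ⬝ᵥ y := by
  unfold dotProduct at *
  rw [Fin.sum_univ_succAbove _ j, hj] at hw hx hy
  rw [Fin.sum_univ_succAbove (fun i => x i * y i) j]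
  simp only [mul_zero, zero_add] at hw hx hy
  have e : ∀ i, (x (j.succAbove i) + x j * w (j.succAbove i)) *
      (y (j.succAbove i) + y j * w (j.succAbove i)) =
      x (j.succAbove i) * y (j.succAbove i) + y j * (x (j.succAbove i) * w (j.succAbove i)) +
        x j * (y (j.succAbove i) * w (j.succAbove i)) +
          (x j * y j) * (w (j.succAbove i) * w (j.succAbove i)) := by
    intro i; ring
  simp only [e, Finset.sum_add_distrib, ← Finset.mul_sum, hw, hx, hy]
  ring

/-- Deleting a coordinate in even dimension, all vectors orthogonal to the all-one vector. -/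
lemma reduce_one {s : ℕ} (hs : Even (s + 1)) (x y : Fin (s + 1) → ZMod 2)
    (hx : x ⬝ᵥ x = 0) (hy : y ⬝ᵥ y = 0) :
    (fun i : Fin s => x i.castSucc + x (Fin.last s)) ⬝ᵥ
      (fun i : Fin s => y i.castSucc + y (Fin.last s)) = x ⬝ᵥ y := by
  have hs1 : ((s : ℕ) : ZMod 2) = 1 := by
    have : ((s + 1 : ℕ) : ZMod 2) = 0 := (ZMod.natCast_eq_zero_iff_even).2 hs
    push_cast at this
    rcases zc ((s : ℕ) : ZMod 2) with h | h
    · rw [h] at this; exact absurd this (by decide)
    · exact h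
  have hx' : ∑ i : Fin s, x i.castSucc = x (Fin.last s) := by
    have h1 : ∑ i, x i = 0 := by
      rw [dotProduct] at hx
      rw [← hx]
      refine Finset.sum_congr rfl fun i _ => ?_
      rcases zc (x i) with h | h <;> rw [h] <;> decide
    rw [Fin.sum_univ_castSucc] at h1
    generalize (∑ i : Fin s, x i.castSucc) = p at *
    generalize x (Fin.last s) = q at *
    revert h1; revert p q; decide
  have hy' : ∑ i : Fin s, y i.castSucc = y (Fin.last s) := by
    have h1 : ∑ i, y i = 0 := by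
      rw [dotProduct] at hy
      rw [← hy]
      refine Finset.sum_congr rfl fun i _ => ?_
      rcases zc (y i) with h | h <;> rw [h] <;> decide
    rw [Fin.sum_univ_castSucc] at h1
    generalize (∑ i : Fin s, y i.castSucc) = p at *
    generalize y (Fin.last s) = q at *
    revert h1; revert p q; decide
  have e : ∀ i : Fin s, (x i.castSucc + x (Fin.last s)) * (y i.castSucc + y (Fin.last s)) =
      x i.castSucc * y i.castSucc + y (Fin.last s) * x i.castSucc +
        x (Fin.last s) * y i.castSucc + x (Fin.last s) * y (Fin.last s) := by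
    intro i; ring
  unfold dotProduct
  rw [Fin.sum_univ_castSucc (fun i => x i * y i)]
  simp only [e, Finset.sum_add_distrib, ← Finset.mul_sum, hx', hy', Finset.sum_const,
    Finset.card_univ, Fintype.card_fin, nsmul_eq_mul, hs1]
  generalize (∑ i : Fin s, x i.castSucc * y i.castSucc) = p
  generalize x (Fin.last s) = a
  generalize y (Fin.last s) = b
  revert p a b; decide

end Pool.Agent.H2.Dij2
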